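import Mathlib

/-!
# ESA bases: definitions
-/

set_option autoImplicit false
open Filter Topology Finset

namespace Pool.Agent.MP_15d71b_an

variable {X : Type} [NormedAddCommGroup X] [NormedSpace ℝ X]

/-- `e` is a Schauder basis of `X` which is equal signs additive (ESA); the two fields are word for
word the two hypotheses of the frozen statement. -/
structure ESA (e : ℕ → X) : Prop where
  basis : ∀ x : X, ∃! a : ℕ → ℝ,
    Filter.Tendsto (fun N : ℕ => ∑ i ∈ Finset.range N, a i • e i) Filter.atTop (nhds x)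
  merge : ∀ (a : ℕ → ℝ) (N k : ℕ), k + 1 < N → 0 ≤ a k * a (k + 1) →
    ‖∑ i ∈ Finset.range k, a i • e i + (a k + a (k + 1)) • e k
        + ∑ i ∈ Finset.Ico (k + 2) N, a i • e (i - 1)‖
      = ‖∑ i ∈ Finset.range N, a i • e i‖

/-- `vec e l = ∑ l_i e_i` for a list `l = [l_0, l_1, ...]` of coefficients. -/
def vec : (ℕ → X) → List ℝ → X
  | _, [] => 0
  | e, a :: l => a • e 0 + vec (fun n => e (n + 1)) l

/-- the linear map `a ↦ ∑ a_i e_i` on finitely supported sequences -/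
noncomputable abbrev lc (e : ℕ → X) : (ℕ →₀ ℝ) →ₗ[ℝ] X := Finsupp.linearCombination ℝ e

/-- `D e m = ∑_{j<m} (e_{2j} - e_{2j+1})` -/
noncomputable def D (e : ℕ → X) (m : ℕ) : X := ∑ j ∈ Finset.range m, (e (2 * j) - e (2 * j + 1))

/-- the difference sequence `e_{2j} - e_{2j+1}` has no lower `ℓ_1` estimate -/
def NoL1 (e : ℕ → X) : Prop :=
  ¬ ∃ δ : ℝ, 0 < δ ∧ ∀ (m : ℕ) (c : ℕ → ℝ), δ * ∑ j ∈ Finset.range m, |c j|
    ≤ ‖∑ j ∈ Finset.range m, c j • (e (2 * j) - e (2 * j + 1))‖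

/-- the sums `∑_{j<m} (e_{2j} - e_{2j+1})` are unbounded -/
def NoC0 (e : ℕ → X) : Prop := ∀ B : ℝ, ∃ m : ℕ, B < ‖D e m‖

/-- the zero-sum block space of the partition of `ℕ` into the intervals `[τ j, τ (j+1))`: the closed
span of the differences `e_i - e_i'` with `i, i'` in the same interval -/
def zeroSumSpace (e : ℕ → X) (τ : ℕ → ℕ) : Submodule ℝ X :=
  (Submodule.span ℝ {x : X | ∃ j i i' : ℕ, i ∈ Finset.Ico (τ j) (τ (j + 1)) ∧
    i' ∈ Finset.Ico (τ j) (τ (j + 1)) ∧ x = e i - e i'}).topologicalClosure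

/-- block index: the `j` with `τ j ≤ k < τ (j+1)` (for `τ` strictly increasing, `τ 0 = 0`) -/
def bidx (τ : ℕ → ℕ) (k : ℕ) : ℕ := Nat.findGreatest (fun j => τ j ≤ k) k

end Pool.Agent.MP_15d71b_an
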