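import Pool.Agent.Lib.MP_15d71b_an.Defs

/-!
# Lists of coefficients
-/

set_option autoImplicit false
open Filter Topology Finset

namespace Pool.Agent.MP_15d71b_an

variable {X : Type} [NormedAddCommGroup X] [NormedSpace ℝ X]

private theorem E1_cons (e : ℕ → X) (a : ℝ) (l : List ℝ) :
    vec e (a :: l) = a • e 0 + vec (fun n => e (n + 1)) l := rfl

/-- Induction on `l1` (generalizing `e`). -/
theorem vec_append (e : ℕ → X) (l1 l2 : List ℝ) :
    vec e (l1 ++ l2) = vec e l1 + vec (fun n => e (n + l1.length)) l2 := by
  induction l1 generalizing e with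
  | nil => simp [vec]
  | cons a l ih =>
    rw [List.cons_append, E1_cons, E1_cons, ih, add_assoc]
    simp only [List.length_cons]
    have h : (fun n => (fun m => e (m + 1)) (n + l.length)) = fun n => e (n + (l.length + 1)) := by
      funext n
      exact congrArg e (by omega)
    rw [h]

/-- Induction on `l` (generalizing `e`), `Finset.sum_range_succ'`. -/
theorem vec_eq_sum (e : ℕ → X) (l : List ℝ) :
    vec e l = ∑ i ∈ Finset.range l.length, (l.getD i 0) • e i := by
  induction l generalizing e with
  | nil => simp [vec]
  | cons a l ih =>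
    rw [E1_cons, List.length_cons, Finset.sum_range_succ', ih, add_comm]
    simp

/-- From `vec_eq_sum`, or induction on `N` with `List.range_succ` and `vec_append`. -/
theorem vec_range (e : ℕ → X) (a : ℕ → ℝ) (N : ℕ) :
    vec e ((List.range N).map a) = ∑ i ∈ Finset.range N, a i • e i := by
  rw [vec_eq_sum]
  have hl : ((List.range N).map a).length = N := by simp
  rw [hl]
  refine Finset.sum_congr rfl ?_
  intro i hi
  have hi' : i < N := Finset.mem_range.mp hi
  have h : ((List.range N).map a).getD i 0 = a i := by
    simp [List.getD, hi']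
  rw [h]

/-- A list as a finitely supported sequence. -/
theorem exists_lc (e : ℕ → X) (l : List ℝ) :
    ∃ a : ℕ →₀ ℝ, lc e a = vec e l ∧ ∀ i, a i = l.getD i 0 := by
  classical
  refine ⟨Finsupp.onFinset (Finset.range l.length) (fun i => l.getD i 0) ?_, ?_, ?_⟩
  · intro i hi
    rw [Finset.mem_range]
    by_contra h
    apply hi
    have h' : l.length ≤ i := not_lt.mp h
    simp [List.getD, h']
  · rw [vec_eq_sum]
    unfold lc
    rw [Finsupp.linearCombination_apply]
    rw [Finsupp.onFinset_sum]
    intro i
    simp
  · intro i
    rfl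

/-- A finitely supported sequence as a list (any `N` beyond the support). -/
theorem lc_eq_vec (e : ℕ → X) (a : ℕ →₀ ℝ) (N : ℕ) (hN : ∀ i, N ≤ i → a i = 0) :
    lc e a = vec e ((List.range N).map a) := by
  rw [vec_range]
  unfold lc
  rw [Finsupp.linearCombination_apply]
  refine Finsupp.sum_of_support_subset a ?_ _ ?_
  · intro i hi
    rw [Finset.mem_range]
    by_contra h
    exact (Finsupp.mem_support_iff.mp hi) (hN i (not_lt.mp h))
  · intro i _
    simp

end Pool.Agent.MP_15d71b_an
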