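import Pool.Agent.Lib.MP_15d71b_an.E9

/-!
# Functionals converge along the basis unless there is a lower `ℓ_1` estimate
-/

set_option autoImplicit false
open Filter Topology Finset

namespace Pool.Agent.MP_15d71b_an

variable {X : Type} [NormedAddCommGroup X] [NormedSpace ℝ X] [CompleteSpace X] {e : ℕ → X}

/-- The first vector is `Mop n` of the second (`norm_Mop_eq`). -/
theorem spread_diff (h : ESA e) (n : ℕ → ℕ) (hn : StrictMono n) (m : ℕ) (c : ℕ → ℝ) :
    ‖∑ j ∈ Finset.range m, c j • (e (n (2 * j)) - e (n (2 * j + 1)))‖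
      = ‖∑ j ∈ Finset.range m, c j • (e (2 * j) - e (2 * j + 1))‖ := by
  rw [← norm_Mop_eq h n hn (∑ j ∈ Finset.range m, c j • (e (2 * j) - e (2 * j + 1)))]
  rw [map_sum]
  congr 1
  refine Finset.sum_congr rfl fun j _ => ?_
  rw [map_smul, map_sub, Mop_e, Mop_e]

/-- Otherwise, by `tendsto_of_no_upcrossings` (the sequence `φ (e n)` is bounded by `‖φ‖ ‖e 0‖`,
`norm_e`) there are `α < β` with `φ (e n) < α` frequently and `β < φ (e n)` frequently. Given `m` and
`c`, `Filter.extraction_forall_of_frequently` gives a strictly increasing `n` with, for all `j`: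
if `0 ≤ c j` then `β < φ (e (n (2j)))` and `φ (e (n (2j+1))) < α`, and if `c j < 0` the same with
the roles of `2j` and `2j+1` exchanged. Then
`φ (∑ c_j (e_{n(2j)} - e_{n(2j+1)})) ≥ (β - α) ∑ |c_j|`, and the norm of the vector is
`‖∑ c_j (e_{2j} - e_{2j+1})‖` by `spread_diff`. With `δ := (β - α) / (‖φ‖ + 1)` this contradicts
`NoL1`. -/
theorem conv (h : ESA e) (hl1 : NoL1 e) (φ : X →L[ℝ] ℝ) :
    ∃ L, Tendsto (fun n => φ (e n)) atTop (𝓝 L) := by
  have hb : ∀ n, |φ (e n)| ≤ ‖φ‖ * ‖e 0‖ := fun n => by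
    have := φ.le_opNorm (e n)
    rwa [Real.norm_eq_abs, norm_e h] at this
  refine tendsto_of_no_upcrossings (s := Set.univ) dense_univ ?_ ?_ ?_
  · rintro α - β - hαβ ⟨hlow, hhigh⟩
    apply hl1
    refine ⟨(β - α) / (‖φ‖ + 1), div_pos (by linarith) (by positivity), fun m c => ?_⟩
    have hfr : ∀ i, ∃ᶠ k in atTop,
        (if ((0 ≤ c (i / 2)) ↔ i % 2 = 0) then β < φ (e k) else φ (e k) < α) := by
      intro i
      by_cases hi : ((0 ≤ c (i / 2)) ↔ i % 2 = 0)
      · simp only [if_pos hi]; exact hhigh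
      · simp only [if_neg hi]; exact hlow
    obtain ⟨n, hn, hQ⟩ := Filter.extraction_forall_of_frequently hfr
    have hterm : ∀ j, (β - α) * |c j| ≤ c j * (φ (e (n (2 * j))) - φ (e (n (2 * j + 1)))) := by
      intro j
      have h0 := hQ (2 * j)
      have h1 := hQ (2 * j + 1)
      have e0 : (2 * j) / 2 = j := by omega
      have e1 : (2 * j + 1) / 2 = j := by omega
      have e2 : (2 * j) % 2 = 0 := by omega
      have e3 : ¬ ((2 * j + 1) % 2 = 0) := by omega
      rw [e0] at h0
      rw [e1] at h1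
      by_cases hc : 0 ≤ c j
      · rw [if_pos (by simp [hc, e2])] at h0
        rw [if_neg (by simp [hc, e3])] at h1
        rw [abs_of_nonneg hc, mul_comm]
        exact mul_le_mul_of_nonneg_left (by linarith) hc
      · rw [if_neg (by simp [hc, e2])] at h0
        rw [if_pos (by simp [hc, e3])] at h1
        rw [abs_of_neg (not_le.1 hc)]
        nlinarith [not_le.1 hc]
    have hsum : (β - α) * ∑ j ∈ Finset.range m, |c j|
        ≤ φ (∑ j ∈ Finset.range m, c j • (e (n (2 * j)) - e (n (2 * j + 1)))) := by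
      rw [Finset.mul_sum, map_sum]
      refine Finset.sum_le_sum fun j _ => ?_
      rw [map_smul, map_sub, smul_eq_mul]
      exact hterm j
    have hle : φ (∑ j ∈ Finset.range m, c j • (e (n (2 * j)) - e (n (2 * j + 1))))
        ≤ (‖φ‖ + 1) * ‖∑ j ∈ Finset.range m, c j • (e (2 * j) - e (2 * j + 1))‖ := by
      rw [← spread_diff h n hn m c]
      refine (le_abs_self _).trans ((φ.le_opNorm _).trans ?_)
      exact mul_le_mul_of_nonneg_right (by linarith) (norm_nonneg _)
    rw [div_mul_eq_mul_div, div_le_iff₀ (by positivity)]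
    linarith [hsum.trans hle]
  · exact ⟨‖φ‖ * ‖e 0‖, by
      rw [eventually_map]
      exact Eventually.of_forall fun n => (le_abs_self _).trans (hb n)⟩
  · exact ⟨-(‖φ‖ * ‖e 0‖), by
      rw [eventually_map]
      exact Eventually.of_forall fun n => (neg_le_neg (hb n)).trans (neg_abs_le _)⟩

end Pool.Agent.MP_15d71b_an
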