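import Pool.Agent.Lib.MP_15d71b_an.E1

/-!
# Merging on lists
-/

set_option autoImplicit false
open Filter Topology Finset

namespace Pool.Agent.MP_15d71b_an

variable {X : Type} [NormedAddCommGroup X] [NormedSpace ℝ X] {e : ℕ → X}

/-- This is `h.merge` for `a i := (l1 ++ x :: y :: l2).getD i 0`, `N := l1.length + l2.length + 2`,
`k := l1.length` (use `vec_append`, `vec_eq_sum`). -/
theorem vec_merge (h : ESA e) (l1 l2 : List ℝ) (x y : ℝ) (hxy : 0 ≤ x * y) :
    ‖vec e (l1 ++ x :: y :: l2)‖ = ‖vec e (l1 ++ (x + y) :: l2)‖ := by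
  set a : ℕ → ℝ := fun i => (l1 ++ x :: y :: l2).getD i 0 with ha
  have hlen : (l1 ++ x :: y :: l2).length = l1.length + l2.length + 2 := by
    simp only [List.length_append, List.length_cons]
    omega
  have ha1 : ∀ i, i < l1.length → a i = l1.getD i 0 := by
    intro i hi
    simp only [ha]
    exact List.getD_append _ _ _ _ hi
  have hak : a l1.length = x := by
    simp only [ha]
    rw [List.getD_append_right _ _ _ _ (le_refl _)]
    simp
  have hak1 : a (l1.length + 1) = y := by
    simp only [ha]
    rw [List.getD_append_right _ _ _ _ (by omega)]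
    have : l1.length + 1 - l1.length = 1 := by omega
    rw [this]
    simp
  have ha2 : ∀ j, a (l1.length + 2 + j) = l2.getD j 0 := by
    intro j
    simp only [ha]
    rw [List.getD_append_right _ _ _ _ (by omega)]
    have : l1.length + 2 + j - l1.length = j + 1 + 1 := by omega
    rw [this]
    simp
  have hm := h.merge a (l1.length + l2.length + 2) l1.length (by omega) (by rw [hak, hak1]; exact hxy)
  have hR : ∑ i ∈ Finset.range (l1.length + l2.length + 2), a i • e i = vec e (l1 ++ x :: y :: l2) := by
    rw [vec_eq_sum, hlen]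
  have hL : ∑ i ∈ Finset.range l1.length, a i • e i + (a l1.length + a (l1.length + 1)) • e l1.length
        + ∑ i ∈ Finset.Ico (l1.length + 2) (l1.length + l2.length + 2), a i • e (i - 1)
      = vec e (l1 ++ (x + y) :: l2) := by
    rw [vec_append, vec_eq_sum e l1]
    have h1 : vec (fun n => e (n + l1.length)) ((x + y) :: l2)
        = (x + y) • e (0 + l1.length) + vec (fun n => e (n + 1 + l1.length)) l2 := rfl
    rw [h1, vec_eq_sum (fun n => e (n + 1 + l1.length)) l2, hak, hak1, Finset.sum_Ico_eq_sum_range]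
    have h2 : l1.length + l2.length + 2 - (l1.length + 2) = l2.length := by omega
    rw [h2]
    have h3 : ∑ i ∈ Finset.range l1.length, a i • e i
        = ∑ i ∈ Finset.range l1.length, l1.getD i 0 • e i :=
      Finset.sum_congr rfl fun i hi => by rw [ha1 i (Finset.mem_range.1 hi)]
    have h4 : ∑ i ∈ Finset.range l2.length, a (l1.length + 2 + i) • e (l1.length + 2 + i - 1)
        = ∑ i ∈ Finset.range l2.length, l2.getD i 0 • e (i + 1 + l1.length) :=
      Finset.sum_congr rfl fun i _ => by
        rw [ha2 i]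
        have : l1.length + 2 + i - 1 = i + 1 + l1.length := by omega
        rw [this]
    rw [h3, h4, zero_add]
    abel
  rw [hL, hR] at hm
  exact hm.symm

/-- If `l2 = y :: l2'`: `vec_merge` with `x = 0`. If `l2 = []` and `l1 = l1' ++ [x]`: `vec_merge`
with `y = 0`. If both are empty: trivial. (In fact for `l2 = []` simply
`vec e (l1 ++ [0]) = vec e l1` by `vec_append`.) -/
theorem vec_zero (h : ESA e) (l1 l2 : List ℝ) :
    ‖vec e (l1 ++ 0 :: l2)‖ = ‖vec e (l1 ++ l2)‖ := by
  cases l2 with
  | nil =>
    have h1 : vec e (l1 ++ [0]) = vec e l1 := by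
      rw [vec_append]
      simp [vec]
    rw [h1, List.append_nil]
  | cons y l2' =>
    have h1 := vec_merge h l1 l2' 0 y (by simp)
    rw [zero_add] at h1
    exact h1

/-- Induction on `n` with `vec_zero`. -/
theorem vec_zeros (h : ESA e) (l1 l2 : List ℝ) (n : ℕ) :
    ‖vec e (l1 ++ (List.replicate n 0 ++ l2))‖ = ‖vec e (l1 ++ l2)‖ := by
  induction n with
  | zero => simp
  | succ n ih =>
    rw [List.replicate_succ, List.cons_append, vec_zero h, ih]

private theorem E2_split_aux (h : ESA e) (l2 : List ℝ) (t : ℝ) (n : ℕ) :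
    ∀ l1 : List ℝ, ‖vec e (l1 ++ (List.replicate n t ++ l2))‖ = ‖vec e (l1 ++ (n * t) :: l2)‖ := by
  induction n with
  | zero =>
    intro l1
    have h1 := vec_zero h l1 l2
    simp only [Nat.cast_zero, zero_mul, List.replicate_zero, List.nil_append]
    exact h1.symm
  | succ n ih =>
    intro l1
    rw [List.replicate_succ, List.cons_append]
    have h1 : l1 ++ t :: (List.replicate n t ++ l2) = (l1 ++ [t]) ++ (List.replicate n t ++ l2) := by
      simp
    rw [h1, ih (l1 ++ [t])]
    have h2 : (l1 ++ [t]) ++ ((n : ℝ) * t) :: l2 = l1 ++ t :: ((n : ℝ) * t) :: l2 := by simp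
    rw [h2, vec_merge h l1 l2 t ((n : ℝ) * t) (by nlinarith [mul_nonneg (Nat.cast_nonneg (α := ℝ) n) (mul_self_nonneg t)])]
    have h3 : t + (n : ℝ) * t = ((n + 1 : ℕ) : ℝ) * t := by
      push_cast
      ring
    rw [h3]

/-- Prove first, by induction on `n` with `vec_merge` (the products `(n * t) * t` are `≥ 0`), that
`‖vec e (l1 ++ (List.replicate n t ++ l2))‖ = ‖vec e (l1 ++ (n * t) :: l2)‖` (`n = 0`: `vec_zero`),
then put `t = x / n`. -/
theorem vec_split (h : ESA e) (l1 l2 : List ℝ) (x : ℝ) (n : ℕ) (hn : 0 < n) :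
    ‖vec e (l1 ++ (List.replicate n (x / n) ++ l2))‖ = ‖vec e (l1 ++ x :: l2)‖ := by
  have key := E2_split_aux h l2 (x / n) n l1
  have hn' : (n : ℝ) ≠ 0 := by
    exact_mod_cast hn.ne'
  rw [mul_div_cancel₀ x hn'] at key
  exact key

/-- `e n = vec e (List.replicate n 0 ++ [1])`, so `vec_zeros` (with `l1 = []`). -/
theorem norm_e (h : ESA e) (n : ℕ) : ‖e n‖ = ‖e 0‖ := by
  have h1 : ∀ m, vec e (List.replicate m 0 ++ [1]) = e m := by
    intro m
    have h2 : ∀ (f : ℕ → X) (m : ℕ), vec f (List.replicate m 0 ++ [1]) = f m := by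
      intro f m
      induction m generalizing f with
      | zero => simp [vec]
      | succ m ih =>
        rw [List.replicate_succ, List.cons_append]
        have h3 : vec f (0 :: (List.replicate m 0 ++ [1])) = (0 : ℝ) • f 0 +
            vec (fun n => f (n + 1)) (List.replicate m 0 ++ [1]) := rfl
        rw [h3, ih, zero_smul, zero_add]
    exact h2 e m
  have h4 := vec_zeros h [] [1] n
  rw [List.nil_append, List.nil_append, h1 n] at h4
  have h5 := h1 0
  rw [List.replicate_zero, List.nil_append] at h5
  rw [h4, h5]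

/-- If `e n = 0`, then `0` has the two expansions `0` and `Pi.single n 1`, contradicting
`h.basis 0`. -/
theorem e_ne_zero (h : ESA e) (n : ℕ) : e n ≠ 0 := by
  intro hn
  obtain ⟨a, _, ha⟩ := h.basis 0
  have h1 : (fun _ : ℕ => (0 : ℝ)) = a := ha _ (by simp)
  have h2 : (Pi.single n (1 : ℝ) : ℕ → ℝ) = a := by
    apply ha
    have h3 : (fun N : ℕ => ∑ i ∈ Finset.range N, (Pi.single n (1 : ℝ) : ℕ → ℝ) i • e i) = fun _ => 0 := by
      funext N
      apply Finset.sum_eq_zero
      intro i _
      by_cases hi : i = n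
      · rw [hi, hn, smul_zero]
      · rw [Pi.single_eq_of_ne hi, zero_smul]
    rw [h3]
    exact tendsto_const_nhds
  have h4 : (Pi.single n (1 : ℝ) : ℕ → ℝ) n = (0 : ℝ) := by
    rw [h2, ← h1]
  rw [Pi.single_eq_same] at h4
  exact one_ne_zero h4

/-- If `a • e 0 + b • e 1 = 0`, then `0` has the expansion `(a, b, 0, 0, ...)`, so `a = b = 0` by the
uniqueness in `h.basis 0`. -/
theorem e01_indep (h : ESA e) (a b : ℝ) (hab : a • e 0 + b • e 1 = 0) : a = 0 ∧ b = 0 := by
  obtain ⟨c, _, hc⟩ := h.basis 0
  have h1 : (fun _ : ℕ => (0 : ℝ)) = c := hc _ (by simp)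
  have h2 : (fun i : ℕ => if i = 0 then a else if i = 1 then b else 0) = c := by
    apply hc
    have h3 : ∀ N : ℕ, 2 ≤ N → ∑ i ∈ Finset.range N,
        (if i = 0 then a else if i = 1 then b else 0 : ℝ) • e i = 0 := by
      intro N hN
      have h4 : ∑ i ∈ Finset.range 2, (if i = 0 then a else if i = 1 then b else 0 : ℝ) • e i
          = ∑ i ∈ Finset.range N, (if i = 0 then a else if i = 1 then b else 0 : ℝ) • e i := by
        apply Finset.sum_subset
        · intro i hi
          rw [Finset.mem_range] at hi ⊢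
          omega
        · intro i _ hi
          rw [Finset.mem_range] at hi
          have h5 : i ≠ 0 := by omega
          have h6 : i ≠ 1 := by omega
          rw [if_neg h5, if_neg h6, zero_smul]
      rw [← h4, Finset.sum_range_succ, Finset.sum_range_one]
      simp only [if_true, one_ne_zero, if_false]
      exact hab
    refine tendsto_const_nhds.congr' ?_
    filter_upwards [Filter.eventually_ge_atTop 2] with N hN
    exact (h3 N hN).symm
  have h7 := congrFun h2 0
  have h8 := congrFun h2 1
  rw [← h1] at h7 h8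
  simp only [if_true] at h7
  simp only [one_ne_zero, if_false, if_true] at h8
  exact ⟨h7, h8⟩

end Pool.Agent.MP_15d71b_an
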