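import Pool.Agent.Lib.MP_15d71b_an.E2

/-!
# The deletion lemma
-/

set_option autoImplicit false
open Filter Topology Finset

namespace Pool.Agent.MP_15d71b_an

variable {X : Type} [NormedAddCommGroup X] [NormedSpace ℝ X] {e : ℕ → X}

private theorem E3_zeros (e : ℕ → X) (n : ℕ) : vec e (List.replicate n (0 : ℝ)) = 0 := by
  induction n generalizing e with
  | zero => rfl
  | succ n ih =>
    rw [List.replicate_succ]
    simp only [vec]
    rw [ih, zero_smul, add_zero]

private theorem E3_repl (e : ℕ → X) (n : ℕ) (t : ℝ) :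
    vec e (List.replicate n t) = ∑ j ∈ Finset.range n, t • e j := by
  induction n generalizing e with
  | zero => rfl
  | succ n ih =>
    rw [List.replicate_succ, Finset.sum_range_succ']
    simp only [vec]
    rw [ih, add_comm]

private theorem E3_v (e : ℕ → X) (l1 l2 : List ℝ) (x y : ℝ) (n j : ℕ) (hj : j < n) :
    vec e (l1 ++ (List.replicate j (0 : ℝ) ++
      (x :: y :: (List.replicate (n - 1 - j) (0 : ℝ) ++ l2)))) =
    vec e l1 + (x • e (l1.length + j) + y • e (l1.length + j + 1)) +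
      vec (fun i => e (i + (l1.length + n + 1))) l2 := by
  rw [vec_append, vec_append, E3_zeros]
  simp only [vec]
  rw [vec_append, E3_zeros]
  simp only [List.length_replicate, zero_add]
  have e1 : j + l1.length = l1.length + j := by omega
  have e2 : 1 + j + l1.length = l1.length + j + 1 := by omega
  have e3 : (fun m : ℕ => e (m + (n - 1 - j) + 1 + 1 + j + l1.length)) =
      fun i => e (i + (l1.length + n + 1)) := by
    funext m
    have : m + (n - 1 - j) + 1 + 1 + j + l1.length = m + (l1.length + n + 1) := by omega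
    rw [this]
  rw [e1, e2, e3]
  abel

private theorem E3_w (e : ℕ → X) (l1 l2 : List ℝ) (t : ℝ) (n : ℕ) :
    vec e (l1 ++ (List.replicate n t ++ (0 :: l2))) =
    vec e l1 + ∑ j ∈ Finset.range n, t • e (l1.length + j) +
      vec (fun i => e (i + (l1.length + n + 1))) l2 := by
  rw [vec_append, vec_append, E3_repl]
  simp only [vec, List.length_replicate]
  have e3 : (fun m : ℕ => e (m + 1 + n + l1.length)) =
      fun i => e (i + (l1.length + n + 1)) := by
    funext m
    have : m + 1 + n + l1.length = m + (l1.length + n + 1) := by omega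
    rw [this]
  have e4 : ∀ j : ℕ, j + l1.length = l1.length + j := fun j => Nat.add_comm _ _
  rw [e3]
  simp only [e4]
  rw [zero_smul, zero_add, ← add_assoc (vec e l1)]

private theorem E3_n (h : ESA e) (l1 l2 : List ℝ) (x y : ℝ) (n : ℕ) (hn : 0 < n) :
    (n : ℝ) * ‖vec e (l1 ++ (x + y) :: l2)‖ ≤
      n * ‖vec e (l1 ++ x :: y :: l2)‖ + |y| * (2 * ‖e 0‖) := by
  have hn' : (n : ℝ) ≠ 0 := by
    have : (0 : ℝ) < n := by exact_mod_cast hn
    exact ne_of_gt this
  have hv : ∀ j, ‖vec e (l1 ++ (List.replicate j (0 : ℝ) ++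
      (x :: y :: (List.replicate (n - 1 - j) (0 : ℝ) ++ l2))))‖ =
      ‖vec e (l1 ++ x :: y :: l2)‖ := by
    intro j
    rw [vec_zeros h]
    have h1 := vec_zeros h (l1 ++ [x, y]) l2 (n - 1 - j)
    simpa using h1
  have hw : ‖vec e (l1 ++ (List.replicate n ((x + y) / n) ++ (0 :: l2)))‖ =
      ‖vec e (l1 ++ (x + y) :: l2)‖ := by
    rw [vec_split h l1 (0 :: l2) (x + y) n hn]
    have h1 := vec_zero h (l1 ++ [x + y]) l2
    simpa using h1
  have key : (n : ℝ) • vec e (l1 ++ (List.replicate n ((x + y) / n) ++ (0 :: l2))) =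
      ∑ j ∈ Finset.range n, vec e (l1 ++ (List.replicate j (0 : ℝ) ++
        (x :: y :: (List.replicate (n - 1 - j) (0 : ℝ) ++ l2)))) -
      y • (e (l1.length + n) - e l1.length) := by
    rw [Finset.sum_congr rfl (fun j hj => E3_v e l1 l2 x y n j (Finset.mem_range.1 hj)), E3_w]
    have ht : e (l1.length + n) - e l1.length =
        ∑ j ∈ Finset.range n, (e (l1.length + j + 1) - e (l1.length + j)) := by
      exact (Finset.sum_range_sub (fun j => e (l1.length + j)) n).symm
    rw [ht, Finset.smul_sum, ← Finset.sum_sub_distrib, smul_add, smul_add, Finset.smul_sum]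
    have hA : (n : ℝ) • vec e l1 = ∑ j ∈ Finset.range n, vec e l1 := by
      rw [Finset.sum_const, Finset.card_range, Nat.cast_smul_eq_nsmul]
    have hB : (n : ℝ) • vec (fun i => e (i + (l1.length + n + 1))) l2 =
        ∑ j ∈ Finset.range n, vec (fun i => e (i + (l1.length + n + 1))) l2 := by
      rw [Finset.sum_const, Finset.card_range, Nat.cast_smul_eq_nsmul]
    rw [hA, hB, ← Finset.sum_add_distrib, ← Finset.sum_add_distrib]
    refine Finset.sum_congr rfl (fun j _ => ?_)
    rw [smul_smul, mul_div_cancel₀ _ hn', add_smul, smul_sub]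
    abel
  have h1 : (n : ℝ) * ‖vec e (l1 ++ (x + y) :: l2)‖ =
      ‖(n : ℝ) • vec e (l1 ++ (List.replicate n ((x + y) / n) ++ (0 :: l2)))‖ := by
    rw [norm_smul, hw, Real.norm_natCast]
  rw [h1, key]
  refine (norm_sub_le _ _).trans (add_le_add ?_ ?_)
  · refine (norm_sum_le _ _).trans ?_
    rw [Finset.sum_congr rfl (fun j _ => hv j), Finset.sum_const, Finset.card_range,
      nsmul_eq_mul]
  · rw [norm_smul, Real.norm_eq_abs]
    refine mul_le_mul_of_nonneg_left ?_ (abs_nonneg y)
    refine (norm_sub_le _ _).trans ?_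
    rw [norm_e h (l1.length + n), norm_e h l1.length, two_mul]

/-- Let `k = l1.length`, `n ≥ 1`. For `j < n` put
`v j := vec e (l1 ++ (replicate j 0 ++ (x :: y :: (replicate (n - 1 - j) 0 ++ l2))))`;
`‖v j‖ = ‖vec e (l1 ++ x :: y :: l2)‖ =: c` by `vec_zeros` twice, so `‖∑_{j<n} v j‖ ≤ n c`.
Compute with `vec_append`:
`v j = vec e l1 + (x • e (k+j) + y • e (k+j+1)) + vec (fun i => e (i + (k+n+1))) l2`.
On the other hand let `w := vec e (l1 ++ (replicate n ((x+y)/n) ++ (0 :: l2)))`; its norm is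
`‖vec e (l1 ++ (x+y) :: 0 :: l2)‖ = ‖vec e (l1 ++ (x+y) :: l2)‖ =: d` by `vec_split` and
`vec_zero` (for the latter regard the list as `(l1 ++ [x+y]) ++ 0 :: l2`), and
`w = vec e l1 + ∑_{j<n} ((x+y)/n) • e (k+j) + vec (fun i => e (i + (k+n+1))) l2`.
Hence `∑_{j<n} v j - n • w = y • (e (k+n) - e k)` (telescoping), so
`n d = ‖n • w‖ ≤ n c + 2 |y| ‖e 0‖`, i.e. `d ≤ c + 2|y|‖e 0‖/n` for all `n ≥ 1`; let `n → ∞`. -/
theorem vec_del (h : ESA e) (l1 l2 : List ℝ) (x y : ℝ) :
    ‖vec e (l1 ++ (x + y) :: l2)‖ ≤ ‖vec e (l1 ++ x :: y :: l2)‖ := by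
  set c := ‖vec e (l1 ++ x :: y :: l2)‖ with hc
  set d := ‖vec e (l1 ++ (x + y) :: l2)‖ with hd
  by_contra hlt
  push Not at hlt
  obtain ⟨n, hn⟩ := exists_nat_gt ((|y| * (2 * ‖e 0‖)) / (d - c))
  have hpos : 0 < d - c := by linarith
  rw [div_lt_iff₀ hpos] at hn
  have h0 : 0 ≤ |y| * (2 * ‖e 0‖) := by positivity
  have hn0 : 0 < n := by
    rcases Nat.eq_zero_or_pos n with h' | h'
    · rw [h'] at hn
      simp only [Nat.cast_zero, zero_mul] at hn
      linarith
    · exact h'
  have h1 := E3_n h l1 l2 x y n hn0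
  rw [← hc, ← hd] at h1
  nlinarith [h1, hn]

end Pool.Agent.MP_15d71b_an
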