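import Pool.Agent.Lib.MP_15d71b_an.E3

/-!
# Monotone maps act by contractions
-/

set_option autoImplicit false
open Filter Topology Finset

namespace Pool.Agent.MP_15d71b_an

variable {X : Type} [NormedAddCommGroup X] [NormedSpace ℝ X] {e : ℕ → X}

private theorem E4_vec_zero (n : ℕ) : ∀ f : ℕ → X, vec f (List.replicate n 0) = 0 := by
  induction n with
  | zero => intro f; rfl
  | succ n ih =>
    intro f
    rw [List.replicate_succ]
    show (0 : ℝ) • f 0 + vec (fun n => f (n + 1)) (List.replicate n 0) = 0
    rw [ih, zero_smul, add_zero]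

private theorem E4_vec_one (f : ℕ → X) (x : ℝ) : vec f [x] = x • f 0 := by
  show x • f 0 + (0 : X) = x • f 0
  rw [add_zero]

/-- Induction on `l`, generalizing `pre` and `p`. `l = []`: both sides are `‖vec e pre‖`.
`l = x :: l'`: the sum is `x • e (p 0) + ∑_{i < l'.length} l'_i • e (p (i+1))`
(`Finset.sum_range_succ'`), and one uses the induction hypothesis with `fun i => p (i + 1)`.
Case `p 0 + 1 = pre.length`, so `pre = pre' ++ [y]` with `pre'.length = p 0`:
`vec e pre + x • e (p 0) = vec e (pre' ++ [y + x])`, the induction hypothesis for the initial list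
`pre' ++ [y + x]` gives `≤ ‖vec e (pre' ++ (y + x) :: l')‖ ≤ ‖vec e (pre' ++ y :: x :: l')‖` by
`vec_del`. Case `pre.length ≤ p 0`: `vec e pre + x • e (p 0) = vec e (pre ++ (replicate (p 0 -
pre.length) 0 ++ [x]))`, the induction hypothesis for this initial list (its length is `p 0 + 1`) gives
`≤ ‖vec e (pre ++ (replicate _ 0 ++ x :: l'))‖ = ‖vec e (pre ++ x :: l')‖` by `vec_zeros`. -/
theorem place (h : ESA e) (l : List ℝ) : ∀ (pre : List ℝ) (p : ℕ → ℕ), Monotone p →
    pre.length ≤ p 0 + 1 →
    ‖vec e pre + ∑ i ∈ Finset.range l.length, (l.getD i 0) • e (p i)‖ ≤ ‖vec e (pre ++ l)‖ := by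
  induction l with
  | nil =>
    intro pre p _ _
    rw [List.length_nil, Finset.sum_range_zero, add_zero, List.append_nil]
  | cons x l' ih =>
    intro pre p hp hpre
    have hp' : Monotone fun i => p (i + 1) := fun i j hij => hp (Nat.add_le_add_right hij 1)
    have hp01 : p 0 ≤ p (0 + 1) := hp (Nat.zero_le _)
    have e1 : ∑ i ∈ Finset.range (x :: l').length, ((x :: l').getD i 0) • e (p i) =
        ∑ i ∈ Finset.range l'.length, (l'.getD i 0) • e (p (i + 1)) + x • e (p 0) := by
      rw [List.length_cons, Finset.sum_range_succ']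
      rfl
    have e2 : vec e pre + ∑ i ∈ Finset.range (x :: l').length, ((x :: l').getD i 0) • e (p i) =
        (vec e pre + x • e (p 0)) + ∑ i ∈ Finset.range l'.length, (l'.getD i 0) • e (p (i + 1)) := by
      rw [e1]
      abel
    rw [e2]
    rcases Nat.lt_or_ge (p 0) pre.length with hlt | hge
    · have hne : pre ≠ [] := by
        rintro rfl
        exact absurd hlt (Nat.not_lt_zero _)
      obtain ⟨pre', y, rfl⟩ : ∃ pre' y, pre = pre' ++ [y] :=
        ⟨pre.dropLast, pre.getLast hne, (List.dropLast_append_getLast hne).symm⟩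
      have hl' : pre'.length = p 0 := by
        rw [List.length_append, List.length_singleton] at hlt hpre
        omega
      have h1 := ih (pre' ++ [y + x]) (fun i => p (i + 1)) hp' (by
        rw [List.length_append, List.length_singleton]
        show pre'.length + 1 ≤ p (0 + 1) + 1
        omega)
      have h2 : vec e (pre' ++ [y]) + x • e (p 0) = vec e (pre' ++ [y + x]) := by
        rw [vec_append, vec_append, E4_vec_one, E4_vec_one, hl', zero_add, add_smul, add_assoc]
      rw [h2]
      refine h1.trans ?_
      have h3 : (pre' ++ [y + x]) ++ l' = pre' ++ (y + x) :: l' := by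
        rw [List.append_assoc]
        rfl
      have h4 : (pre' ++ [y]) ++ x :: l' = pre' ++ y :: x :: l' := by
        rw [List.append_assoc]
        rfl
      rw [h3, h4]
      exact vec_del h pre' l' y x
    · obtain ⟨n, hn⟩ := Nat.exists_eq_add_of_le hge
      have h2 : vec e pre + x • e (p 0) = vec e (pre ++ (List.replicate n 0 ++ [x])) := by
        rw [vec_append, vec_append, E4_vec_zero, zero_add, E4_vec_one, List.length_replicate]
        congr 2
        show e (p 0) = e (0 + n + pre.length)
        congr 1
        omega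
      have h1 := ih (pre ++ (List.replicate n 0 ++ [x])) (fun i => p (i + 1)) hp' (by
        rw [List.length_append, List.length_append, List.length_replicate, List.length_singleton]
        show pre.length + (n + 1) ≤ p (0 + 1) + 1
        omega)
      rw [h2]
      refine h1.trans ?_
      have h3 : (pre ++ (List.replicate n 0 ++ [x])) ++ l' = pre ++ (List.replicate n 0 ++ (x :: l')) := by
        rw [List.append_assoc, List.append_assoc]
        rfl
      rw [h3, vec_zeros h]

/-- Take `N` beyond the support of `a`, `l = (List.range N).map a`, `pre = []` and `p = r` in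
`place`; `lc e (a.mapDomain r) = ∑_{i<N} a i • e (r i)` (`Finsupp.linearCombination_mapDomain`,
`Finsupp.linearCombination_apply`, `Finsupp.sum_of_support_subset`) and `lc_eq_vec`. -/
theorem lc_mapDomain_le (h : ESA e) (r : ℕ → ℕ) (hr : Monotone r) (a : ℕ →₀ ℝ) :
    ‖lc e (a.mapDomain r)‖ ≤ ‖lc e a‖ := by
  obtain ⟨N, hN⟩ : ∃ N, ∀ i, N ≤ i → a i = 0 := by
    refine ⟨a.support.sup id + 1, fun i hi => ?_⟩
    by_contra hne
    have h1 : id i ≤ a.support.sup id := Finset.le_sup (Finsupp.mem_support_iff.2 hne)
    have h2 : i ≤ a.support.sup id := h1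
    omega
  have e1 : lc e (a.mapDomain r) = ∑ i ∈ Finset.range N, a i • e (r i) := by
    have h1 : lc e (a.mapDomain r) = lc (e ∘ r) a := Finsupp.linearCombination_mapDomain ℝ r a
    rw [h1, lc_eq_vec (e ∘ r) a N hN, vec_range]
    rfl
  have h1 := place h ((List.range N).map a) [] r hr (Nat.zero_le _)
  have e2 : ∑ i ∈ Finset.range ((List.range N).map a).length, (((List.range N).map a).getD i 0) • e (r i) =
      ∑ i ∈ Finset.range N, a i • e (r i) := by
    rw [List.length_map, List.length_range]
    refine Finset.sum_congr rfl fun i hi => ?_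
    have hi' : i < ((List.range N).map a).length := by
      rw [List.length_map, List.length_range]
      exact Finset.mem_range.1 hi
    rw [List.getD_eq_getElem _ _ hi', List.getElem_map, List.getElem_range]
  have e3 : vec e ([] : List ℝ) = 0 := rfl
  rw [e2, e3, zero_add, List.nil_append, ← lc_eq_vec e a N hN, ← e1] at h1
  exact h1

end Pool.Agent.MP_15d71b_an
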