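import Pool.Agent.Lib.MP_15d71b_an.E3

/-!
# Same-sign fibres: no loss of norm
-/

set_option autoImplicit false
open Filter Topology Finset

namespace Pool.Agent.MP_15d71b_an

variable {X : Type} [NormedAddCommGroup X] [NormedSpace ℝ X] {e : ℕ → X}

private theorem E5_vec_repl (n : ℕ) : ∀ e : ℕ → X, vec e (List.replicate n 0) = 0 := by
  induction n with
  | zero => intro e; simp [vec]
  | succ n ih =>
    intro e
    rw [List.replicate_succ]
    simp only [vec]
    rw [ih, zero_smul, add_zero]

private theorem E5_vec_snoc (e : ℕ → X) (l : List ℝ) (x : ℝ) :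
    vec e (l ++ [x]) = vec e l + x • e l.length := by
  rw [vec_append]
  simp only [vec, Nat.zero_add, add_zero]

private theorem E5_sum_cons (e : ℕ → X) (x : ℝ) (l : List ℝ) (p : ℕ → ℕ) :
    ∑ i ∈ Finset.range (x :: l).length, ((x :: l).getD i 0) • e (p i)
      = x • e (p 0) + ∑ i ∈ Finset.range l.length, (l.getD i 0) • e (p (i + 1)) := by
  rw [List.length_cons, Finset.sum_range_succ', add_comm]
  simp only [List.getD_cons_zero, List.getD_cons_succ]

/-- Like `place` in E4, with equalities. Induction on `l`, generalizing `pre`, `y` and `p` (`y` is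
the sum of the entries which have been placed at the current position `pre.length`).
`l = []`: `vec e (pre ++ [y])` on both sides. `l = x :: l'`: the sum is
`x • e (p 0) + ∑_{i < l'.length} l'_i • e (p (i+1))`.
Case `p 0 = pre.length`: `0 ≤ y * x`, `vec e (pre ++ [y]) + x • e (p 0) = vec e (pre ++ [y + x])` and
`‖vec e (pre ++ y :: x :: l')‖ = ‖vec e (pre ++ (y + x) :: l')‖` by `vec_merge`; induction hypothesis
for `pre`, `y + x` (its sign conditions: for `p (i+1) = pre.length` one has `0 ≤ y * l'_i` and
`0 ≤ x * l'_i`, as `p 0 = p (i+1)`).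
Case `pre.length < p 0`: put `pre' := pre ++ (y :: replicate (p 0 - pre.length - 1) 0)`, of length
`p 0`; `vec e (pre ++ [y]) + x • e (p 0) = vec e (pre' ++ [x])` and
`‖vec e (pre ++ y :: x :: l')‖ = ‖vec e (pre' ++ x :: l')‖` by `vec_zeros`; induction hypothesis for
`pre'`, `x`. -/
theorem place_ge (h : ESA e) (l : List ℝ) : ∀ (pre : List ℝ) (y : ℝ) (p : ℕ → ℕ), Monotone p →
    pre.length ≤ p 0 → (∀ i, i < l.length → p i = pre.length → 0 ≤ y * l.getD i 0) →
    (∀ i j, i < l.length → j < l.length → p i = p j → 0 ≤ l.getD i 0 * l.getD j 0) →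
    ‖vec e (pre ++ y :: l)‖
      = ‖vec e (pre ++ [y]) + ∑ i ∈ Finset.range l.length, (l.getD i 0) • e (p i)‖ := by
  induction l with
  | nil =>
    intro pre y p _ _ _ _
    simp
  | cons x l ih =>
    intro pre y p hp hpre hs hss
    rw [E5_sum_cons, ← add_assoc]
    have hp' : Monotone (fun i => p (i + 1)) := fun a b hab => hp (by omega)
    have h01 : p 0 ≤ p (0 + 1) := hp (by omega)
    have hss' : ∀ i j, i < l.length → j < l.length → (fun i => p (i + 1)) i = (fun i => p (i + 1)) j →
        0 ≤ l.getD i 0 * l.getD j 0 := by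
      intro i j hi hj hij
      have := hss (i + 1) (j + 1) (by simpa using hi) (by simpa using hj) hij
      simpa only [List.getD_cons_succ] using this
    have hx : ∀ i, i < l.length → p (i + 1) = p 0 → 0 ≤ x * l.getD i 0 := by
      intro i hi hi'
      have := hss 0 (i + 1) (by simp) (by simpa using hi) hi'.symm
      simpa only [List.getD_cons_succ, List.getD_cons_zero] using this
    rcases Nat.lt_or_ge pre.length (p 0) with hlt | hge
    · set m : ℕ := p 0 - pre.length - 1 with hm
      have hlen : (pre ++ y :: List.replicate m 0).length = p 0 := by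
        rw [List.length_append, List.length_cons, List.length_replicate]
        omega
      have e1 : vec e ((pre ++ y :: List.replicate m 0) ++ [x])
          = vec e (pre ++ [y]) + x • e (p 0) := by
        rw [E5_vec_snoc, hlen]
        congr 1
        have e2 : pre ++ y :: List.replicate m 0 = (pre ++ [y]) ++ List.replicate m 0 := by simp
        rw [e2, vec_append, E5_vec_repl, add_zero]
      have e3 : ‖vec e (pre ++ y :: x :: l)‖
          = ‖vec e ((pre ++ y :: List.replicate m 0) ++ x :: l)‖ := by
        have e4 := vec_zeros h (pre ++ [y]) (x :: l) m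
        have e5 : (pre ++ y :: List.replicate m 0) ++ x :: l
            = (pre ++ [y]) ++ (List.replicate m 0 ++ x :: l) := by simp
        have e6 : pre ++ y :: x :: l = (pre ++ [y]) ++ x :: l := by simp
        rw [e5, e6, e4]
      rw [e3, ← e1]
      refine ih _ x (fun i => p (i + 1)) hp' ?_ ?_ hss'
      · rw [hlen]
        exact h01
      · intro i hi hi'
        rw [hlen] at hi'
        exact hx i hi hi'
    · have heq : p 0 = pre.length := le_antisymm hge hpre
      have hyx : 0 ≤ y * x := by
        have := hs 0 (by simp) heq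
        simpa only [List.getD_cons_zero] using this
      have e1 : vec e (pre ++ [y]) + x • e (p 0) = vec e (pre ++ [y + x]) := by
        rw [E5_vec_snoc, E5_vec_snoc, heq, add_smul, add_assoc]
      rw [vec_merge h pre l y x hyx, e1]
      refine ih pre (y + x) (fun i => p (i + 1)) hp' ?_ ?_ hss'
      · rw [← heq]
        exact h01
      · intro i hi hi'
        have h1 := hs (i + 1) (by simpa using hi) hi'
        have h2 := hx i hi (hi'.trans heq.symm)
        rw [List.getD_cons_succ] at h1
        rw [add_mul]
        exact add_nonneg h1 h2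

/-- Take `N` beyond the support of `a` and `l = (List.range N).map a` in `place_ge` with `pre = []`,
`y = 0` and `p = r`: `‖lc e a‖ = ‖vec e l‖ = ‖vec e (0 :: l)‖` (`vec_zero` with `l1 = []`) and
`vec e [0] = 0`, `∑_{i<N} a i • e (r i) = lc e (a.mapDomain r)`
(`Finsupp.linearCombination_mapDomain`). -/
theorem lc_mapDomain_eq (h : ESA e) (r : ℕ → ℕ) (hr : Monotone r) (a : ℕ →₀ ℝ)
    (hs : ∀ i j, r i = r j → 0 ≤ a i * a j) :
    ‖lc e (a.mapDomain r)‖ = ‖lc e a‖ := by
  obtain ⟨N, hN⟩ : ∃ N : ℕ, ∀ i ∈ a.support, i < N :=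
    ⟨a.support.sup id + 1, fun i hi => Nat.lt_succ_of_le (Finset.le_sup (f := id) hi)⟩
  have hN' : ∀ i, N ≤ i → a i = 0 := by
    intro i hi
    by_contra hne
    exact absurd (hN i (Finsupp.mem_support_iff.mpr hne)) (by omega)
  have hlen : ((List.range N).map a).length = N := by simp
  have hget : ∀ i, i < N → ((List.range N).map a).getD i 0 = a i := by
    intro i hi
    rw [List.getD_eq_getElem _ _ (by rw [hlen]; exact hi)]
    simp
  have h1 := place_ge h ((List.range N).map a) [] 0 r hr (Nat.zero_le _) (by
    intro i _ _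
    rw [zero_mul]) (by
    intro i j hi hj hij
    rw [hlen] at hi hj
    rw [hget i hi, hget j hj]
    exact hs i j hij)
  have h2 := vec_zero h [] ((List.range N).map a)
  have h3 : vec e ([] ++ [(0 : ℝ)]) = 0 := by simp [vec]
  have h4 : lc e (a.mapDomain r) = ∑ i ∈ Finset.range N, a i • e (r i) := by
    have h5 : lc e (a.mapDomain r) = Finsupp.linearCombination ℝ (e ∘ r) a :=
      Finsupp.linearCombination_mapDomain ℝ r a
    rw [h5, Finsupp.linearCombination_apply]
    rw [Finsupp.sum_of_support_subset a (s := Finset.range N) ?_ _ ?_]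
    · rfl
    · intro i hi
      exact Finset.mem_range.mpr (hN i hi)
    · intro i _
      exact zero_smul ℝ _
  rw [h3, zero_add, hlen] at h1
  rw [h4, lc_eq_vec e a N hN']
  have h6 : ∑ i ∈ Finset.range N, ((List.range N).map a).getD i 0 • e (r i)
      = ∑ i ∈ Finset.range N, a i • e (r i) :=
    Finset.sum_congr rfl fun i hi => by rw [hget i (Finset.mem_range.mp hi)]
  rw [h6] at h1
  rw [← h1, h2]
  rfl

end Pool.Agent.MP_15d71b_an
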