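import Pool.Agent.Lib.MP_15d71b_an.E4

/-!
# The operators of monotone maps
-/

set_option autoImplicit false
open Filter Topology Finset

namespace Pool.Agent.MP_15d71b_an

variable {X : Type} [NormedAddCommGroup X] [NormedSpace ℝ X] {e : ℕ → X}

/-- Every `x` is the limit of its partial sums (`h.basis x`), which are in the range of `lc e`. -/
theorem dense_lc (h : ESA e) : DenseRange (lc e) := by
  intro x
  obtain ⟨a, ha, -⟩ := h.basis x
  refine mem_closure_of_tendsto ha (Eventually.of_forall fun N => ?_)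
  refine ⟨∑ i ∈ Finset.range N, Finsupp.single i (a i), ?_⟩
  rw [map_sum]
  exact Finset.sum_congr rfl fun i _ => Finsupp.linearCombination_single ℝ (a i) i

/-- Continuous linear maps which agree on the basis agree (`dense_lc`, `DenseRange.equalizer`,
`Finsupp.lhom_ext`). -/
theorem clm_ext_e (h : ESA e) {Y : Type} [NormedAddCommGroup Y] [NormedSpace ℝ Y]
    {S T : X →L[ℝ] Y} (hST : ∀ i, S (e i) = T (e i)) : S = T := by
  have h1 : (S : X → Y) = T := by
    refine (dense_lc h).equalizer S.continuous T.continuous ?_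
    funext a
    change S (lc e a) = T (lc e a)
    rw [Finsupp.linearCombination_apply, Finsupp.sum, map_sum, map_sum]
    refine Finset.sum_congr rfl fun i _ => ?_
    rw [map_smul, map_smul, hST]
  exact DFunLike.coe_injective h1

/-- `LinearMap.extendOfNorm` (file Mathlib.Analysis.Normed.Operator.Extend: `extendOfNorm_eq`,
`norm_extendOfNorm_apply_le`) for the dense map `lc e`; in general, if
`u : (ℕ →₀ ℝ) →ₗ[ℝ] Y` satisfies `‖u a‖ ≤ C ‖lc e a‖`, then there is a bounded operator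
`U` with `U (lc e a) = u a` and `‖U x‖ ≤ C ‖x‖`. -/
theorem exists_clm (h : ESA e) {Y : Type} [NormedAddCommGroup Y] [NormedSpace ℝ Y]
    [CompleteSpace Y] (u : (ℕ →₀ ℝ) →ₗ[ℝ] Y) (C : ℝ) (hC : ∀ a, ‖u a‖ ≤ C * ‖lc e a‖) :
    ∃ U : X →L[ℝ] Y, (∀ a, U (lc e a) = u a) ∧ ∀ x, ‖U x‖ ≤ C * ‖x‖ := by
  exact ⟨u.extendOfNorm (lc e), fun a => LinearMap.extendOfNorm_eq (dense_lc h) ⟨C, hC⟩ a,
    fun x => LinearMap.norm_extendOfNorm_apply_le (dense_lc h) C hC x⟩

/-- `exists_clm` for `u := (lc e) ∘ (Finsupp.lmapDomain ℝ ℝ r)` and `C = 1` with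
`lc_mapDomain_le`. -/
theorem exists_Mop [CompleteSpace X] (h : ESA e) (r : ℕ → ℕ) (hr : Monotone r) :
    ∃ M : X →L[ℝ] X, (∀ i, M (e i) = e (r i)) ∧ ∀ x, ‖M x‖ ≤ ‖x‖ := by
  obtain ⟨U, hU, hU'⟩ := exists_clm h ((lc e) ∘ₗ (Finsupp.lmapDomain ℝ ℝ r)) 1 (fun a => by
    rw [one_mul]
    exact lc_mapDomain_le h r hr a)
  refine ⟨U, fun i => ?_, fun x => ?_⟩
  · have h1 := hU (Finsupp.single i 1)
    rw [Finsupp.linearCombination_single, one_smul] at h1
    rw [h1]
    change lc e (Finsupp.mapDomain r (Finsupp.single i 1)) = e (r i)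
    rw [Finsupp.mapDomain_single, Finsupp.linearCombination_single, one_smul]
  · have h1 := hU' x
    rwa [one_mul] at h1

/-- The operator `e_i ↦ e_{r i}` of a monotone map `r`. -/
noncomputable def Mop [CompleteSpace X] (h : ESA e) (r : ℕ → ℕ) (hr : Monotone r) : X →L[ℝ] X :=
  (exists_Mop h r hr).choose

theorem Mop_e [CompleteSpace X] (h : ESA e) (r : ℕ → ℕ) (hr : Monotone r) (i : ℕ) :
    Mop h r hr (e i) = e (r i) := by
  exact (exists_Mop h r hr).choose_spec.1 i

theorem norm_Mop_le [CompleteSpace X] (h : ESA e) (r : ℕ → ℕ) (hr : Monotone r) (x : X) :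
    ‖Mop h r hr x‖ ≤ ‖x‖ := by
  exact (exists_Mop h r hr).choose_spec.2 x

/-- `clm_ext_e`. -/
theorem Mop_comp [CompleteSpace X] (h : ESA e) (r s : ℕ → ℕ) (hr : Monotone r) (hs : Monotone s)
    (x : X) : Mop h r hr (Mop h s hs x) = Mop h (r ∘ s) (hr.comp hs) x := by
  have h1 : (Mop h r hr).comp (Mop h s hs) = Mop h (r ∘ s) (hr.comp hs) := by
    refine clm_ext_e h fun i => ?_
    rw [ContinuousLinearMap.comp_apply, Mop_e, Mop_e, Mop_e]
    rfl
  exact DFunLike.congr_fun h1 x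

/-- `clm_ext_e`. -/
theorem Mop_left_inv [CompleteSpace X] (h : ESA e) (r s : ℕ → ℕ) (hr : Monotone r)
    (hs : Monotone s) (hrs : ∀ k, r (s k) = k) (x : X) :
    Mop h r hr (Mop h s hs x) = x := by
  have h1 : (Mop h r hr).comp (Mop h s hs) = ContinuousLinearMap.id ℝ X := by
    refine clm_ext_e h fun i => ?_
    rw [ContinuousLinearMap.comp_apply, Mop_e, Mop_e, hrs, ContinuousLinearMap.id_apply]
  exact DFunLike.congr_fun h1 x

/-- A strictly increasing `s` has a monotone left inverse `r` (e.g. `r n := Nat.find` of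
`∃ k, n ≤ s k`), and `‖x‖ = ‖Mop r (Mop s x)‖ ≤ ‖Mop s x‖ ≤ ‖x‖`. -/
theorem norm_Mop_eq [CompleteSpace X] (h : ESA e) (s : ℕ → ℕ) (hs : StrictMono s) (x : X) :
    ‖Mop h s hs.monotone x‖ = ‖x‖ := by
  classical
  have hex : ∀ n : ℕ, ∃ k, n ≤ s k := fun n => ⟨n, hs.le_apply⟩
  have hr : Monotone fun n => Nat.find (hex n) := by
    intro n n' hnn
    exact Nat.find_min' (hex n) (hnn.trans (Nat.find_spec (hex n')))
  have hrs : ∀ k, (fun n => Nat.find (hex n)) (s k) = k := by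
    intro k
    refine (Nat.find_eq_iff (hex (s k))).2 ⟨le_rfl, fun j hj hc => ?_⟩
    exact absurd (hs hj) (not_lt.2 hc)
  refine le_antisymm (norm_Mop_le h s hs.monotone x) ?_
  have h1 := Mop_left_inv h _ s hr hs.monotone hrs x
  have h2 := norm_Mop_le h _ hr (Mop h s hs.monotone x)
  rwa [h1] at h2

end Pool.Agent.MP_15d71b_an
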