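import Pool.Agent.Lib.MP_15d71b_an.E6

/-!
# The functionals `B_k` and `s`
-/

set_option autoImplicit false
open Filter Topology Finset

namespace Pool.Agent.MP_15d71b_an

variable {X : Type} [NormedAddCommGroup X] [NormedSpace ℝ X] {e : ℕ → X}

/-- `e 0` and `e 1` are linearly independent (`e01_indep`), so there is a bounded functional with
`f (e 0) = 1`, `f (e 1) = 0`: e.g. `e 0` is not in the closed (one-dimensional) subspace
`span {e 1}`, Hahn-Banach (`geometric_hahn_banach_point_closed` or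
`exists_dual_map_eq_bot_of_notMem` / `Submodule.exists_dual_map_eq_bot_of_notMem`-like lemmas), or
the continuous extension of a functional of a finite-dimensional subspace
(`exists_extension_norm_eq`). -/
theorem exists_f01 (h : ESA e) :
    ∃ f : X →L[ℝ] ℝ, f (e 0) = 1 ∧ f (e 1) = 0 := by
  obtain ⟨g1, hg1⟩ := SeparatingDual.exists_eq_one (R := ℝ) (e_ne_zero h 1)
  have hu : e 0 - g1 (e 0) • e 1 ≠ 0 := by
    intro h0
    have h1 : (1 : ℝ) • e 0 + (-(g1 (e 0))) • e 1 = 0 := by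
      rw [one_smul, neg_smul, ← sub_eq_add_neg]
      exact h0
    exact one_ne_zero (e01_indep h _ _ h1).1
  obtain ⟨g2, hg2⟩ := SeparatingDual.exists_eq_one (R := ℝ) hu
  refine ⟨g2 - (g2 (e 1)) • g1, ?_, ?_⟩
  · rw [map_sub, map_smul, smul_eq_mul] at hg2
    rw [sub_apply, smul_apply, smul_eq_mul, mul_comm]
    exact hg2
  · rw [sub_apply, smul_apply, smul_eq_mul, hg1, mul_one,
      sub_self]

private theorem E7_mono0 : Monotone (fun _ : ℕ => 0) := fun _ _ _ => le_refl _

private theorem E7_monok (k : ℕ) : Monotone (fun i : ℕ => if i < k then 0 else 1) := by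
  intro a b hab
  show (if a < k then 0 else 1) ≤ (if b < k then 0 else 1)
  by_cases h1 : b < k
  · rw [if_pos (lt_of_le_of_lt hab h1)]
    exact Nat.zero_le _
  · rw [if_neg h1]
    split_ifs <;> omega

/-- `s := f ∘ Mop (fun _ => 0)` and `B k := f ∘ Mop (fun i => if i < k then 0 else 1)` for the
functional `f` of `exists_f01`; `K := ‖f‖ + 1`. -/
theorem exists_BS [CompleteSpace X] (h : ESA e) :
    ∃ (B : ℕ → X →L[ℝ] ℝ) (S : X →L[ℝ] ℝ) (K : ℝ), 0 < K ∧
      (∀ k i, B k (e i) = if i < k then 1 else 0) ∧ (∀ i, S (e i) = 1) ∧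
      (∀ k x, |B k x| ≤ K * ‖x‖) ∧ ∀ x, |S x| ≤ K * ‖x‖ := by
  obtain ⟨f, hf0, hf1⟩ := exists_f01 h
  have hK : 0 < ‖f‖ + 1 := by positivity
  have hb : ∀ (r : ℕ → ℕ) (hr : Monotone r) (x : X), |(f.comp (Mop h r hr)) x| ≤
      (‖f‖ + 1) * ‖x‖ := by
    intro r hr x
    rw [ContinuousLinearMap.comp_apply, ← Real.norm_eq_abs]
    calc ‖f (Mop h r hr x)‖ ≤ ‖f‖ * ‖Mop h r hr x‖ := f.le_opNorm _
      _ ≤ ‖f‖ * ‖x‖ := mul_le_mul_of_nonneg_left (norm_Mop_le h r hr x) (norm_nonneg _)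
      _ ≤ (‖f‖ + 1) * ‖x‖ :=
        mul_le_mul_of_nonneg_right (le_add_of_nonneg_right zero_le_one) (norm_nonneg _)
  refine ⟨fun k => f.comp (Mop h (fun i : ℕ => if i < k then 0 else 1) (E7_monok k)),
    f.comp (Mop h (fun _ : ℕ => 0) E7_mono0), ‖f‖ + 1, hK, ?_, ?_, fun k x => hb _ _ x,
    fun x => hb _ _ x⟩
  · intro k i
    rw [ContinuousLinearMap.comp_apply, Mop_e]
    by_cases hik : i < k
    · rw [if_pos hik, if_pos hik, hf0]
    · rw [if_neg hik, if_neg hik, hf1]
  · intro i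
    rw [ContinuousLinearMap.comp_apply, Mop_e, hf0]

/-- the sum of the first `k` coefficients -/
noncomputable def BF [CompleteSpace X] (h : ESA e) : ℕ → X →L[ℝ] ℝ := (exists_BS h).choose

/-- the sum of all coefficients -/
noncomputable def SF [CompleteSpace X] (h : ESA e) : X →L[ℝ] ℝ :=
  (exists_BS h).choose_spec.choose

theorem BF_e [CompleteSpace X] (h : ESA e) (k i : ℕ) :
    BF h k (e i) = if i < k then 1 else 0 :=
  (exists_BS h).choose_spec.choose_spec.choose_spec.2.1 k i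

theorem SF_e [CompleteSpace X] (h : ESA e) (i : ℕ) : SF h (e i) = 1 :=
  (exists_BS h).choose_spec.choose_spec.choose_spec.2.2.1 i

theorem BS_bound [CompleteSpace X] (h : ESA e) :
    ∃ K : ℝ, 0 < K ∧ (∀ k x, |BF h k x| ≤ K * ‖x‖) ∧ ∀ x, |SF h x| ≤ K * ‖x‖ :=
  ⟨(exists_BS h).choose_spec.choose_spec.choose,
    (exists_BS h).choose_spec.choose_spec.choose_spec.1,
    (exists_BS h).choose_spec.choose_spec.choose_spec.2.2.2.1,
    (exists_BS h).choose_spec.choose_spec.choose_spec.2.2.2.2⟩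

/-- `clm_ext_e` for `(SF h).smulRight (e 0)` and `Mop (fun _ => 0)`, then `norm_Mop_le`. -/
theorem SF_smul [CompleteSpace X] (h : ESA e) (x : X) : |SF h x| * ‖e 0‖ ≤ ‖x‖ := by
  have h1 : (SF h).smulRight (e 0) = Mop h (fun _ : ℕ => 0) E7_mono0 := by
    refine clm_ext_e h ?_
    intro i
    rw [ContinuousLinearMap.smulRight_apply, SF_e, one_smul, Mop_e]
  have h2 : SF h x • e 0 = Mop h (fun _ : ℕ => 0) E7_mono0 x := by
    rw [← h1, ContinuousLinearMap.smulRight_apply]
  rw [← Real.norm_eq_abs, ← norm_smul, h2]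
  exact norm_Mop_le h _ _ x

/-- `clm_ext_e`. -/
theorem SF_Mop [CompleteSpace X] (h : ESA e) (r : ℕ → ℕ) (hr : Monotone r) (x : X) :
    SF h (Mop h r hr x) = SF h x := by
  have h1 : (SF h).comp (Mop h r hr) = SF h := by
    refine clm_ext_e h ?_
    intro i
    rw [ContinuousLinearMap.comp_apply, Mop_e, SF_e, SF_e]
  have h2 : ((SF h).comp (Mop h r hr)) x = SF h x := by rw [h1]
  rwa [ContinuousLinearMap.comp_apply] at h2

/-- `clm_ext_e`. -/
theorem BF_zero [CompleteSpace X] (h : ESA e) (x : X) : BF h 0 x = 0 := by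
  have h1 : BF h 0 = 0 := by
    refine clm_ext_e h ?_
    intro i
    rw [BF_e, if_neg (Nat.not_lt_zero i), zero_apply]
  rw [h1, zero_apply]

/-- the `k`-th coordinate functional -/
noncomputable def co [CompleteSpace X] (h : ESA e) (k : ℕ) : X →L[ℝ] ℝ := BF h (k + 1) - BF h k

theorem co_e [CompleteSpace X] (h : ESA e) (k i : ℕ) : co h k (e i) = if i = k then 1 else 0 := by
  rw [co, sub_apply, BF_e, BF_e]
  rcases lt_trichotomy i k with h1 | h1 | h1
  · rw [if_pos (Nat.lt_succ_of_lt h1), if_pos h1, if_neg (Nat.ne_of_lt h1), sub_self]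
  · rw [if_pos (h1 ▸ Nat.lt_succ_self i), if_neg (h1 ▸ Nat.lt_irrefl i), if_pos h1, sub_zero]
  · have h2 : ¬ i < k + 1 := by omega
    have h3 : ¬ i < k := by omega
    have h4 : ¬ i = k := by omega
    rw [if_neg h2, if_neg h3, if_neg h4, sub_self]

/-- Telescoping and `BF_zero`. -/
theorem BF_eq_sum [CompleteSpace X] (h : ESA e) (k : ℕ) (x : X) :
    BF h k x = ∑ i ∈ Finset.range k, co h i x := by
  induction k with
  | zero => rw [BF_zero, Finset.range_zero, Finset.sum_empty]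
  | succ k ih => rw [Finset.sum_range_succ, ← ih, co, sub_apply,
      add_sub_cancel]

end Pool.Agent.MP_15d71b_an
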