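import Pool.Agent.Lib.MP_15d71b_an.E7

/-!
# Partial sum projections
-/

set_option autoImplicit false
open Filter Topology Finset

namespace Pool.Agent.MP_15d71b_an

variable {X : Type} [NormedAddCommGroup X] [NormedSpace ℝ X] [CompleteSpace X] {e : ℕ → X}

/-- the initial sum projection `x ↦ ∑_{i<N} x_i e_i` -/
noncomputable def PN (h : ESA e) (N : ℕ) : X →L[ℝ] X :=
  ∑ i ∈ Finset.range N, (co h i).smulRight (e i)

theorem PN_apply (h : ESA e) (N : ℕ) (x : X) :
    PN h N x = ∑ i ∈ Finset.range N, co h i x • e i := by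
  unfold PN
  rw [_root_.sum_apply]
  rfl

/-- `PN_apply`, `co_e`. -/
theorem PN_e (h : ESA e) (N i : ℕ) : PN h N (e i) = if i < N then e i else 0 := by
  rw [PN_apply]
  have h1 : ∀ j ∈ Finset.range N, co h j (e i) • e j = if i = j then e j else 0 := by
    intro j _
    rw [co_e]
    by_cases hij : i = j
    · rw [if_pos hij, if_pos hij, one_smul]
    · rw [if_neg hij, if_neg hij, zero_smul]
  rw [Finset.sum_congr rfl h1, Finset.sum_ite_eq]
  simp only [Finset.mem_range]

/-- `clm_ext_e` and `PN_e`. -/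
theorem PN_PN (h : ESA e) (N M : ℕ) (x : X) : PN h N (PN h M x) = PN h (min N M) x := by
  have h1 : (PN h N).comp (PN h M) = PN h (min N M) := by
    refine clm_ext_e h fun i => ?_
    rw [ContinuousLinearMap.comp_apply, PN_e, PN_e]
    by_cases hM : i < M
    · rw [if_pos hM, PN_e]
      by_cases hN : i < N
      · rw [if_pos hN, if_pos (lt_min hN hM)]
      · rw [if_neg hN, if_neg fun hh => hN (lt_of_lt_of_le hh (min_le_left _ _))]
    · rw [if_neg hM, map_zero, if_neg fun hh => hM (lt_of_lt_of_le hh (min_le_right _ _))]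
  exact congrArg (fun T : X →L[ℝ] X => T x) h1

/-- Let `x` have the expansion `a` (`h.basis x`). Applying the continuous functional `co h k` to the
initial sums gives `a k` eventually, so `co h k x = a k`; hence the initial sums are `PN h N x`. -/
theorem tendsto_PN (h : ESA e) (x : X) : Tendsto (fun N => PN h N x) atTop (𝓝 x) := by
  obtain ⟨a, ha, _⟩ := h.basis x
  have ha' : Tendsto (fun N : ℕ => ∑ i ∈ Finset.range N, a i • e i) atTop (𝓝 x) := ha
  have hco : ∀ k, co h k x = a k := by
    intro k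
    have h1 : Tendsto (fun N : ℕ => co h k (∑ i ∈ Finset.range N, a i • e i)) atTop (𝓝 (co h k x)) :=
      ((co h k).continuous.tendsto x).comp ha'
    have h2 : ∀ᶠ N : ℕ in atTop, co h k (∑ i ∈ Finset.range N, a i • e i) = a k := by
      filter_upwards [eventually_gt_atTop k] with N hN
      rw [map_sum]
      have h3 : ∀ i ∈ Finset.range N, co h k (a i • e i) = if i = k then a i else 0 := by
        intro i _
        rw [map_smul, co_e, smul_eq_mul]
        by_cases hik : i = k
        · rw [if_pos hik, if_pos hik, mul_one]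
        · rw [if_neg hik, if_neg hik, mul_zero]
      rw [Finset.sum_congr rfl h3, Finset.sum_ite_eq', if_pos (Finset.mem_range.2 hN)]
    have h4 : Tendsto (fun N : ℕ => co h k (∑ i ∈ Finset.range N, a i • e i)) atTop (𝓝 (a k)) :=
      tendsto_const_nhds.congr' (h2.mono fun N hN => hN.symm)
    exact tendsto_nhds_unique h1 h4
  refine ha'.congr fun N => ?_
  rw [PN_apply]
  exact Finset.sum_congr rfl fun i _ => by rw [hco i]

/-- Banach-Steinhaus (`banach_steinhaus`) and `tendsto_PN`. -/
theorem PN_bound (h : ESA e) : ∃ K : ℝ, 0 < K ∧ ∀ N x, ‖PN h N x‖ ≤ K * ‖x‖ := by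
  obtain ⟨C, hC⟩ := banach_steinhaus (g := fun N => PN h N) (fun x => by
    obtain ⟨C, hC⟩ := isBounded_iff_forall_norm_le.1 (Metric.isBounded_range_of_tendsto _ (tendsto_PN h x))
    exact ⟨C, fun N => hC _ ⟨N, rfl⟩⟩)
  refine ⟨max C 1, lt_of_lt_of_le zero_lt_one (le_max_right _ _), fun N x => ?_⟩
  refine ((PN h N).le_opNorm x).trans ?_
  exact mul_le_mul_of_nonneg_right ((hC N).trans (le_max_left _ _)) (norm_nonneg _)

/-- `SF h (PN h N x) = BF h N x` (`clm_ext_e`). -/
theorem SF_PN (h : ESA e) (N : ℕ) (x : X) : SF h (PN h N x) = BF h N x := by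
  have h1 : (SF h).comp (PN h N) = BF h N := by
    refine clm_ext_e h fun i => ?_
    rw [ContinuousLinearMap.comp_apply, PN_e, BF_e]
    by_cases hi : i < N
    · rw [if_pos hi, if_pos hi, SF_e]
    · rw [if_neg hi, if_neg hi, map_zero]
  exact congrArg (fun T : X →L[ℝ] ℝ => T x) h1

/-- `SF_PN`, `tendsto_PN` and the continuity of `SF h`. -/
theorem tendsto_BF (h : ESA e) (x : X) : Tendsto (fun k => BF h k x) atTop (𝓝 (SF h x)) := by
  have h1 : Tendsto (fun k => SF h (PN h k x)) atTop (𝓝 (SF h x)) :=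
    ((SF h).continuous.tendsto x).comp (tendsto_PN h x)
  exact h1.congr fun k => SF_PN h k x

/-- `tendsto_PN`. -/
theorem ext_co (h : ESA e) (x : X) (hx : ∀ k, co h k x = 0) : x = 0 := by
  have h1 : ∀ N, PN h N x = 0 := by
    intro N
    rw [PN_apply]
    exact Finset.sum_eq_zero fun i _ => by rw [hx i, zero_smul]
  have h2 : Tendsto (fun N => PN h N x) atTop (𝓝 (0 : X)) :=
    tendsto_const_nhds.congr fun N => (h1 N).symm
  exact tendsto_nhds_unique (tendsto_PN h x) h2

/-- The operator of `k ↦ min k K` is `x ↦ PN K x + (s(x) - B_K(x)) e_K` (`clm_ext_e`). -/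
theorem Mop_min (h : ESA e) (K : ℕ) (hK : Monotone fun k => min k K) (x : X) :
    Mop h (fun k => min k K) hK x = PN h K x + (SF h x - BF h K x) • e K := by
  have h1 : Mop h (fun k => min k K) hK = PN h K + (SF h - BF h K).smulRight (e K) := by
    refine clm_ext_e h fun i => ?_
    rw [add_apply, ContinuousLinearMap.smulRight_apply, sub_apply, Mop_e,
      PN_e, SF_e, BF_e]
    by_cases hi : i < K
    · rw [if_pos hi, if_pos hi, sub_self, zero_smul, add_zero, min_eq_left hi.le]
    · rw [if_neg hi, if_neg hi, sub_zero, one_smul, zero_add, min_eq_right (not_lt.1 hi)]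
  exact congrArg (fun T : X →L[ℝ] X => T x) h1

end Pool.Agent.MP_15d71b_an
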