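import Pool.Agent.Lib.MP_15d71b_an.Defs

/-!
# Block index
-/

set_option autoImplicit false
open Filter Topology Finset

namespace Pool.Agent.MP_15d71b_an

/-- `j ≤ τ j` (`StrictMono.le_apply`), so `bidx τ k` is the largest `j` with `τ j ≤ k`. -/
theorem bidx_spec {τ : ℕ → ℕ} (hτ : StrictMono τ) (h0 : τ 0 = 0) (k : ℕ) :
    τ (bidx τ k) ≤ k ∧ k < τ (bidx τ k + 1) := by
  have h1 : τ (Nat.findGreatest (fun j => τ j ≤ k) k) ≤ k :=
    Nat.findGreatest_spec (P := fun j => τ j ≤ k) (m := 0) (Nat.zero_le k) (by simp [h0])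
  refine ⟨h1, ?_⟩
  by_contra hcon
  push Not at hcon
  have h2 : bidx τ k + 1 ≤ k := le_trans hτ.le_apply hcon
  exact Nat.findGreatest_is_greatest (P := fun j => τ j ≤ k) (n := k) (k := bidx τ k + 1)
    (Nat.lt_succ_self _) h2 hcon

theorem bidx_eq {τ : ℕ → ℕ} (hτ : StrictMono τ) (h0 : τ 0 = 0) {j k : ℕ} (h1 : τ j ≤ k)
    (h2 : k < τ (j + 1)) : bidx τ k = j := by
  obtain ⟨h3, h4⟩ := bidx_spec hτ h0 k
  have h5 : τ (bidx τ k) < τ (j + 1) := lt_of_le_of_lt h3 h2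
  have h6 : τ j < τ (bidx τ k + 1) := lt_of_le_of_lt h1 h4
  have h7 := hτ.lt_iff_lt.1 h5
  have h8 := hτ.lt_iff_lt.1 h6
  omega

theorem bidx_mono {τ : ℕ → ℕ} (hτ : StrictMono τ) (h0 : τ 0 = 0) : Monotone (bidx τ) := by
  intro k l hkl
  obtain ⟨h1, _⟩ := bidx_spec hτ h0 k
  obtain ⟨_, h2⟩ := bidx_spec hτ h0 l
  have h3 : τ (bidx τ k) < τ (bidx τ l + 1) := lt_of_le_of_lt (h1.trans hkl) h2
  have h4 := hτ.lt_iff_lt.1 h3
  omega

end Pool.Agent.MP_15d71b_an
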