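import Pool.Agent.Lib.MP_15d71b_an.E8
import Pool.Agent.Lib.MP_15d71b_an.E9a

/-!
# Blocks and zero-sum block spaces
-/

set_option autoImplicit false
open Filter Topology Finset

namespace Pool.Agent.MP_15d71b_an

variable {X : Type} [NormedAddCommGroup X] [NormedSpace ℝ X] [CompleteSpace X] {e : ℕ → X}

/-- the block sum operator `e_k ↦ e_{bidx τ k}` -/
noncomputable def Rop (h : ESA e) {τ : ℕ → ℕ} (hτ : StrictMono τ) (h0 : τ 0 = 0) : X →L[ℝ] X :=
  Mop h (bidx τ) (bidx_mono hτ h0)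

theorem Rop_e (h : ESA e) {τ : ℕ → ℕ} (hτ : StrictMono τ) (h0 : τ 0 = 0) (k : ℕ) :
    Rop h hτ h0 (e k) = e (bidx τ k) := by
  exact Mop_e h _ _ k

/-- `clm_ext_e`: for `b = e_k`, the coefficient is `1` iff `τ j ≤ k < τ (j+1)` iff
`bidx τ k = j`. -/
theorem co_Rop (h : ESA e) {τ : ℕ → ℕ} (hτ : StrictMono τ) (h0 : τ 0 = 0) (j : ℕ) (x : X) :
    co h j (Rop h hτ h0 x) = ∑ i ∈ Finset.Ico (τ j) (τ (j + 1)), co h i x := by
  have key : (co h j).comp (Rop h hτ h0) = ∑ i ∈ Finset.Ico (τ j) (τ (j + 1)), co h i := by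
    refine clm_ext_e h fun k => ?_
    rw [ContinuousLinearMap.comp_apply, Rop_e, co_e, ContinuousLinearMap.sum_apply]
    have e1 : ∀ i ∈ Finset.Ico (τ j) (τ (j + 1)), co h i (e k) = if k = i then (1 : ℝ) else 0 :=
      fun i _ => co_e h i k
    rw [Finset.sum_congr rfl e1, Finset.sum_ite_eq]
    by_cases hk : bidx τ k = j
    · have := bidx_spec hτ h0 k
      rw [hk] at this
      rw [if_pos hk, if_pos (Finset.mem_Ico.mpr this)]
    · rw [if_neg hk, if_neg]
      intro h1
      obtain ⟨h2, h3⟩ := Finset.mem_Ico.mp h1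
      exact hk (bidx_eq hτ h0 h2 h3)
  have := DFunLike.congr_fun key x
  rw [ContinuousLinearMap.comp_apply, ContinuousLinearMap.sum_apply] at this
  exact this

private theorem E9_le {τ : ℕ → ℕ} (V : Submodule ℝ X) (hV : IsClosed (V : Set X))
    (hd : ∀ j i i' : ℕ, i ∈ Finset.Ico (τ j) (τ (j + 1)) → i' ∈ Finset.Ico (τ j) (τ (j + 1)) →
      e i - e i' ∈ V) : zeroSumSpace e τ ≤ V := by
  unfold zeroSumSpace
  refine Submodule.topologicalClosure_minimal _ ?_ hV
  rw [Submodule.span_le]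
  rintro y ⟨j, i, i', hi, hi', rfl⟩
  exact hd j i i' hi hi'

private theorem E9_PN_mem (h : ESA e) {τ : ℕ → ℕ} (hτ : StrictMono τ) (h0 : τ 0 = 0) (x : X)
    (hx : Rop h hτ h0 x = 0) (J : ℕ) :
    PN h (τ J) x ∈ Submodule.span ℝ {x : X | ∃ j i i' : ℕ, i ∈ Finset.Ico (τ j) (τ (j + 1)) ∧
      i' ∈ Finset.Ico (τ j) (τ (j + 1)) ∧ x = e i - e i'} := by
  induction J with
  | zero =>
    rw [h0, PN_apply]
    simp
  | succ J ih =>
    have hlt : τ J < τ (J + 1) := hτ (Nat.lt_succ_self J)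
    have e1 : PN h (τ (J + 1)) x
        = PN h (τ J) x + ∑ i ∈ Finset.Ico (τ J) (τ (J + 1)), co h i x • e i := by
      rw [PN_apply, PN_apply, Finset.range_eq_Ico, Finset.range_eq_Ico]
      exact (Finset.sum_Ico_consecutive _ (Nat.zero_le _) hlt.le).symm
    have e2 : ∑ i ∈ Finset.Ico (τ J) (τ (J + 1)), co h i x = 0 := by
      rw [← co_Rop h hτ h0 J x, hx, map_zero]
    have e3 : ∑ i ∈ Finset.Ico (τ J) (τ (J + 1)), co h i x • e i
        = ∑ i ∈ Finset.Ico (τ J) (τ (J + 1)), co h i x • (e i - e (τ J)) := by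
      have e4 : ∑ i ∈ Finset.Ico (τ J) (τ (J + 1)), co h i x • (e i - e (τ J))
          = ∑ i ∈ Finset.Ico (τ J) (τ (J + 1)), co h i x • e i
            - (∑ i ∈ Finset.Ico (τ J) (τ (J + 1)), co h i x) • e (τ J) := by
        rw [Finset.sum_smul, ← Finset.sum_sub_distrib]
        exact Finset.sum_congr rfl fun i _ => smul_sub _ _ _
      rw [e4, e2, zero_smul, sub_zero]
    rw [e1, e3]
    refine Submodule.add_mem _ ih (Submodule.sum_mem _ fun i hi => Submodule.smul_mem _ _ ?_)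
    exact Submodule.subset_span
      ⟨J, i, τ J, hi, Finset.mem_Ico.mpr ⟨le_refl _, hlt⟩, rfl⟩

/-- `←`: let `Rop x = 0` and `y_J := PN h (τ J) x`. By `co_Rop` the coefficients of `x` sum to zero
on each block, so `y_J = ∑_{j<J} ∑_{i∈Ico (τ j) (τ (j+1))} co h i x • (e i - e (τ j))` is in the span
(`Finset.sum_Ico_consecutive`-type splitting of `range (τ J)`), and `y_J → x`.
`→`: `Rop` vanishes on the generators, hence on the span and on its closure (`ker` is closed). -/
theorem mem_zeroSumSpace (h : ESA e) {τ : ℕ → ℕ} (hτ : StrictMono τ) (h0 : τ 0 = 0) (x : X) :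
    x ∈ zeroSumSpace e τ ↔ Rop h hτ h0 x = 0 := by
  constructor
  · intro hx
    have hle : zeroSumSpace e τ ≤ LinearMap.ker (Rop h hτ h0 : X →ₗ[ℝ] X) := by
      refine E9_le _ ?_ ?_
      · have : (LinearMap.ker (Rop h hτ h0 : X →ₗ[ℝ] X) : Set X)
            = (fun x => Rop h hτ h0 x) ⁻¹' {0} := by
          ext y
          simp
        rw [this]
        exact isClosed_singleton.preimage (Rop h hτ h0).continuous
      · intro j i i' hi hi'
        obtain ⟨h1, h2⟩ := Finset.mem_Ico.mp hi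
        obtain ⟨h3, h4⟩ := Finset.mem_Ico.mp hi'
        rw [LinearMap.mem_ker]
        change Rop h hτ h0 (e i - e i') = 0
        rw [map_sub, Rop_e, Rop_e, bidx_eq hτ h0 h1 h2, bidx_eq hτ h0 h3 h4, sub_self]
    have := hle hx
    rw [LinearMap.mem_ker] at this
    exact this
  · intro hx
    have ht : Tendsto (fun J => PN h (τ J) x) atTop (𝓝 x) :=
      (tendsto_PN h x).comp hτ.tendsto_atTop
    have := mem_closure_of_tendsto ht
      (Filter.Eventually.of_forall fun J => E9_PN_mem h hτ h0 x hx J)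
    exact this

/-- `zeroSumSpace` is closed (`Submodule.isClosed_topologicalClosure`). -/
theorem isClosed_zeroSumSpace (e : ℕ → X) (τ : ℕ → ℕ) :
    IsClosed (zeroSumSpace e τ : Set X) := by
  exact Submodule.isClosed_topologicalClosure _

/-- `Rop ∘ Mop τ = id` (`bidx τ (τ j) = j`), so `X ≃ X × ker Rop`
(`ContinuousLinearEquiv.equivOfRightInverse`) and `ker Rop = zeroSumSpace e τ`. -/
theorem split_zeroSum (h : ESA e) {τ : ℕ → ℕ} (hτ : StrictMono τ) (h0 : τ 0 = 0) :
    Nonempty (X ≃L[ℝ] X × zeroSumSpace e τ) := by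
  have hri : Function.RightInverse (Mop h τ hτ.monotone) (Rop h hτ h0) := by
    intro x
    refine Mop_left_inv h (bidx τ) τ (bidx_mono hτ h0) hτ.monotone (fun k => ?_) x
    exact bidx_eq hτ h0 (le_refl _) (hτ (Nat.lt_succ_self k))
  have hk : (Rop h hτ h0).ker = zeroSumSpace e τ := by
    ext x
    rw [mem_zeroSumSpace h hτ h0 x]
    exact LinearMap.mem_ker
  rw [← hk]
  exact ⟨ContinuousLinearEquiv.equivOfRightInverse (Rop h hτ h0) (Mop h τ hτ.monotone) hri⟩

/-- A closed-span induction principle: a closed subspace which contains all differences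
`e i - e i'` of a block contains `zeroSumSpace e τ` (`Submodule.topologicalClosure_minimal`,
`Submodule.span_le`). -/
theorem zeroSumSpace_le {τ : ℕ → ℕ} (V : Submodule ℝ X) (hV : IsClosed (V : Set X))
    (hd : ∀ j i i' : ℕ, i ∈ Finset.Ico (τ j) (τ (j + 1)) → i' ∈ Finset.Ico (τ j) (τ (j + 1)) →
      e i - e i' ∈ V) : zeroSumSpace e τ ≤ V := by
  exact E9_le V hV hd

end Pool.Agent.MP_15d71b_an
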