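import Mathlib

/-!
# An abstract `p`-decomposition: operators with given components
-/

set_option autoImplicit false
open Filter Topology Finset

namespace Pool.Agent.MP_15d71b_an

variable {D E A : Type} [NormedAddCommGroup D] [NormedSpace ℝ D] [CompleteSpace D]
  [NormedAddCommGroup E] [NormedSpace ℝ E] [CompleteSpace E]
  [NormedAddCommGroup A] [NormedSpace ℝ A]

/-- For each `a` the series `∑ ‖T n a‖^p` converges (partial sums bounded by `C ‖a‖^p`), so by `h4`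
and the Cauchy criterion (`summable_iff_vanishing_norm`) the family `ι n (T n a)` is summable; put
`U a := ∑' n, ι n (T n a)`. It is linear, `‖U a‖^p ≤ K * C * ‖a‖^p` (limit of `h4`; `K, C ≥ 0` may be
enlarged), so bounded (`LinearMap.mkContinuous` with the constant `(K * C)^(1/p)`), and
`π n (U a) = ∑' m, π n (ι m (T m a)) = T n a` (`ContinuousLinearMap.map_tsum`, `tsum_eq_single`). -/
theorem univ_prop (π : ℕ → D →L[ℝ] E) (ι : ℕ → E →L[ℝ] D) (p K C : ℝ) (hp : 0 < p) (hK : 0 ≤ K)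
    (hC : 0 ≤ C) (h1 : ∀ n y, π n (ι n y) = y) (h2 : ∀ m n, m ≠ n → ∀ y, π m (ι n y) = 0)
    (h4 : ∀ (F : Finset ℕ) (y : ℕ → E), ‖∑ n ∈ F, ι n (y n)‖ ^ p ≤ K * ∑ n ∈ F, ‖y n‖ ^ p)
    (T : ℕ → A →L[ℝ] E) (hT : ∀ (a : A) (N : ℕ), ∑ n ∈ Finset.range N, ‖T n a‖ ^ p ≤ C * ‖a‖ ^ p) :
    ∃ U : A →L[ℝ] D, ∀ n a, π n (U a) = T n a := by
  have hT' : ∀ a : A, Summable (fun n => ‖T n a‖ ^ p) := fun a =>
    summable_of_sum_range_le (fun n => Real.rpow_nonneg (norm_nonneg _) _) (hT a)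
  have hsum : ∀ a : A, Summable (fun n => ι n (T n a)) := by
    intro a
    rw [summable_iff_vanishing_norm]
    intro ε hε
    have hεp : 0 < ε ^ p := Real.rpow_pos_of_pos hε p
    have hK1 : 0 < K + 1 := by linarith
    obtain ⟨s, hs⟩ := summable_iff_vanishing_norm.mp (hT' a) (ε ^ p / (K + 1))
      (div_pos hεp hK1)
    refine ⟨s, ?_⟩
    intro t ht
    have h5 := hs t ht
    have h6 : ∑ n ∈ t, ‖T n a‖ ^ p < ε ^ p / (K + 1) := lt_of_le_of_lt (le_abs_self _) h5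
    have h7 := h4 t (fun n => T n a)
    have h8 : K * ∑ n ∈ t, ‖T n a‖ ^ p ≤ K * (ε ^ p / (K + 1)) :=
      mul_le_mul_of_nonneg_left h6.le hK
    have h9 : K * (ε ^ p / (K + 1)) < ε ^ p := by
      rw [← mul_div_assoc, div_lt_iff₀ hK1]
      nlinarith
    have h10 : ‖∑ n ∈ t, ι n (T n a)‖ ^ p < ε ^ p := lt_of_le_of_lt (h7.trans h8) h9
    exact (Real.rpow_lt_rpow_iff (norm_nonneg _) hε.le hp).mp h10
  have hKC : 0 ≤ K * C := mul_nonneg hK hC
  have hbound : ∀ a : A, ‖∑' n, ι n (T n a)‖ ≤ (K * C) ^ (p⁻¹) * ‖a‖ := by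
    intro a
    have ht := (hsum a).hasSum.tendsto_sum_nat
    refine le_of_tendsto' ht.norm ?_
    intro N
    have h5 := h4 (Finset.range N) (fun n => T n a)
    have h6 : K * ∑ n ∈ Finset.range N, ‖T n a‖ ^ p ≤ K * (C * ‖a‖ ^ p) :=
      mul_le_mul_of_nonneg_left (hT a N) hK
    have h7 : ((K * C) ^ (p⁻¹) * ‖a‖) ^ p = K * (C * ‖a‖ ^ p) := by
      rw [Real.mul_rpow (Real.rpow_nonneg hKC _) (norm_nonneg _), Real.rpow_inv_rpow hKC hp.ne',
        mul_assoc]
    have h8 : ‖∑ n ∈ Finset.range N, ι n (T n a)‖ ^ p ≤ ((K * C) ^ (p⁻¹) * ‖a‖) ^ p := by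
      rw [h7]
      exact h5.trans h6
    exact (Real.rpow_le_rpow_iff (norm_nonneg _)
      (mul_nonneg (Real.rpow_nonneg hKC _) (norm_nonneg _)) hp).mp h8
  let U0 : A →ₗ[ℝ] D :=
    { toFun := fun a => ∑' n, ι n (T n a)
      map_add' := by
        intro a b
        rw [← (hsum a).tsum_add (hsum b)]
        refine tsum_congr ?_
        intro n
        rw [map_add, map_add]
      map_smul' := by
        intro c a
        rw [RingHom.id_apply, ← (hsum a).tsum_const_smul c]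
        refine tsum_congr ?_
        intro n
        rw [map_smul, map_smul] }
  refine ⟨U0.mkContinuous ((K * C) ^ (p⁻¹)) hbound, ?_⟩
  intro n a
  rw [LinearMap.mkContinuous_apply]
  show π n (∑' m, ι m (T m a)) = T n a
  rw [ContinuousLinearMap.map_tsum _ (hsum a), tsum_eq_single n, h1]
  intro m hm
  exact h2 n m hm.symm _

end Pool.Agent.MP_15d71b_an
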