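import Pool.Agent.Lib.MP_15d71b_an.F1

/-!
# The swindle
-/

set_option autoImplicit false
open Filter Topology Finset

namespace Pool.Agent.MP_15d71b_an

variable {D E : Type} [NormedAddCommGroup D] [NormedSpace ℝ D] [CompleteSpace D]
  [NormedAddCommGroup E] [NormedSpace ℝ E] [CompleteSpace E]

theorem F2_rpow_add {a b p : ℝ} (ha : 0 ≤ a) (hb : 0 ≤ b) (hp : 0 < p) :
    (a + b) ^ p ≤ 2 ^ p * (a ^ p + b ^ p) := by
  have h1 : a + b ≤ 2 * max a b := by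
    have h2 := le_max_left a b
    have h3 := le_max_right a b
    linarith
  have h2 : (a + b) ^ p ≤ (2 * max a b) ^ p := Real.rpow_le_rpow (add_nonneg ha hb) h1 hp.le
  rw [Real.mul_rpow (by norm_num) (le_max_of_le_left ha)] at h2
  refine h2.trans (mul_le_mul_of_nonneg_left ?_ (by positivity))
  rcases max_cases a b with ⟨h3, _⟩ | ⟨h3, _⟩
  · rw [h3]
    have := Real.rpow_nonneg hb p
    linarith
  · rw [h3]
    have := Real.rpow_nonneg ha p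
    linarith

theorem F2_norm_add {E : Type} [NormedAddCommGroup E] {a b : E} {α β p : ℝ} (ha : ‖a‖ ≤ α)
    (hb : ‖b‖ ≤ β) (hp : 0 < p) : ‖a + b‖ ^ p ≤ 2 ^ p * (α ^ p + β ^ p) := by
  have hα : 0 ≤ α := (norm_nonneg _).trans ha
  have hβ : 0 ≤ β := (norm_nonneg _).trans hb
  refine le_trans ?_ (F2_rpow_add hα hβ hp)
  exact Real.rpow_le_rpow (norm_nonneg _) ((norm_add_le _ _).trans (add_le_add ha hb)) hp.le

/-- Let `Q : E →L E` be the projection onto `W` along `V` (`Submodule.linearProjOfClosedCompl`).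
By `univ_prop` (the estimates from `h3`, `‖a + b‖^p ≤ 2^p (‖a‖^p + ‖b‖^p)`, `‖Q y‖ ≤ ‖Q‖ ‖y‖`) there are
`U : W × D →L D` with `π 0 (U (w, x)) = w + (1 - Q) (π 0 x)`,
`π (n+1) (U (w, x)) = Q (π n x) + (1 - Q) (π (n+1) x)`, and
`U' : D →L D` with `π n (U' y) = Q (π (n+1) y) + (1 - Q) (π n y)`. Then
`y ↦ (Q (π 0 y), U' y)` is the inverse of `U`: compare all `π n` (`hinj`), using `Q Q = Q`,
`Q w = w` for `w ∈ W`. (`ContinuousLinearEquiv.equivOfInverse`.) -/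
theorem swindle (π : ℕ → D →L[ℝ] E) (ι : ℕ → E →L[ℝ] D) (p K : ℝ) (hp : 0 < p) (hK : 0 ≤ K)
    (h1 : ∀ n y, π n (ι n y) = y) (h2 : ∀ m n, m ≠ n → ∀ y, π m (ι n y) = 0)
    (h3 : ∀ (x : D) (N : ℕ), ∑ n ∈ Finset.range N, ‖π n x‖ ^ p ≤ K * ‖x‖ ^ p)
    (h4 : ∀ (F : Finset ℕ) (y : ℕ → E), ‖∑ n ∈ F, ι n (y n)‖ ^ p ≤ K * ∑ n ∈ F, ‖y n‖ ^ p)
    (hinj : ∀ x : D, (∀ n, π n x = 0) → x = 0)
    (W V : Submodule ℝ E) (hW : IsClosed (W : Set E)) (hV : IsClosed (V : Set E))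
    (hWV : IsCompl W V) :
    Nonempty (D ≃L[ℝ] W × D) := by
  obtain ⟨q, hq⟩ := Submodule.ClosedComplemented.of_isCompl_isClosed hWV hW hV
  obtain ⟨Q, hQ⟩ : ∃ Q : E →L[ℝ] E, Q = W.subtypeL.comp q := ⟨_, rfl⟩
  obtain ⟨R, hR⟩ : ∃ R : E →L[ℝ] E, R = ContinuousLinearMap.id ℝ E - Q := ⟨_, rfl⟩
  have hQq : ∀ z, Q z = (q z : E) := by intro z; rw [hQ]; rfl
  have hRz : ∀ z, R z = z - Q z := by intro z; rw [hR]; rfl
  have hQW : ∀ w : W, Q (w : E) = (w : E) := by intro w; rw [hQq, hq]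
  have hQQ : ∀ z, Q (Q z) = Q z := by intro z; rw [hQq z, hQW]
  have hRQ : ∀ z, R (Q z) = 0 := by intro z; rw [hRz, hQQ, sub_self]
  have hQR : ∀ z, Q (R z) = 0 := by intro z; rw [hRz, map_sub, hQQ, sub_self]
  have hRR : ∀ z, R (R z) = R z := by intro z; rw [hRz (R z), hQR, sub_zero]
  have hqR : ∀ z, q (R z) = 0 := by
    intro z
    have h := hQR z
    rw [hQq] at h
    exact Subtype.ext h
  have hqQ : ∀ z, q (Q z) = q z := by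
    intro z
    have h := hQQ z
    rw [hQq (Q z), hQq z] at h
    rw [hQq]
    exact Subtype.ext h
  obtain ⟨c, hc⟩ : ∃ c, c = ‖Q‖ := ⟨_, rfl⟩
  obtain ⟨d, hd⟩ : ∃ d, d = ‖R‖ := ⟨_, rfl⟩
  have hc0 : 0 ≤ c := by rw [hc]; exact norm_nonneg _
  have hd0 : 0 ≤ d := by rw [hd]; exact norm_nonneg _
  have hQn : ∀ z, ‖Q z‖ ≤ c * ‖z‖ := by intro z; rw [hc]; exact Q.le_opNorm z
  have hRn : ∀ z, ‖R z‖ ≤ d * ‖z‖ := by intro z; rw [hd]; exact R.le_opNorm z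
  have hS : ∀ (x : D) (N : ℕ), ∑ n ∈ Finset.range N, ‖π (n + 1) x‖ ^ p ≤ K * ‖x‖ ^ p := by
    intro x N
    have h5 := h3 x (N + 1)
    rw [Finset.sum_range_succ'] at h5
    have h6 : 0 ≤ ‖π 0 x‖ ^ p := Real.rpow_nonneg (norm_nonneg _) p
    linarith
  have hcp : 0 ≤ c ^ p := Real.rpow_nonneg hc0 p
  have hdp : 0 ≤ d ^ p := Real.rpow_nonneg hd0 p
  have h2p : (0 : ℝ) ≤ 2 ^ p := Real.rpow_nonneg (by norm_num) p
  -- the operators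
  obtain ⟨T, hT0, hT1⟩ : ∃ T : ℕ → (W × D) →L[ℝ] E,
      (∀ a, T 0 a = (a.1 : E) + R (π 0 a.2)) ∧
      (∀ n a, T (n + 1) a = Q (π n a.2) + R (π (n + 1) a.2)) := by
    refine ⟨fun n => Nat.rec (W.subtypeL.comp (ContinuousLinearMap.fst ℝ W D)
      + R.comp ((π 0).comp (ContinuousLinearMap.snd ℝ W D)))
      (fun m _ => Q.comp ((π m).comp (ContinuousLinearMap.snd ℝ W D))
        + R.comp ((π (m + 1)).comp (ContinuousLinearMap.snd ℝ W D))) n, fun a => rfl, fun n a => rfl⟩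
  have hTb : ∀ (a : W × D) (N : ℕ), ∑ n ∈ Finset.range N, ‖T n a‖ ^ p
      ≤ (2 ^ p * (1 + c ^ p * K + d ^ p * K)) * ‖a‖ ^ p := by
    intro a N
    have ha1 : ‖a.1‖ ≤ ‖a‖ := norm_fst_le a
    have ha2 : ‖a.2‖ ^ p ≤ ‖a‖ ^ p := Real.rpow_le_rpow (norm_nonneg _) (norm_snd_le a) hp.le
    have hap : 0 ≤ ‖a‖ ^ p := Real.rpow_nonneg (norm_nonneg _) p
    rcases Nat.eq_zero_or_pos N with rfl | hN
    · rw [Finset.sum_range_zero]
      positivity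
    obtain ⟨M, rfl⟩ : ∃ M, N = M + 1 := ⟨N - 1, by omega⟩
    rw [Finset.sum_range_succ']
    have e0 : ‖T 0 a‖ ^ p ≤ 2 ^ p * (‖a.1‖ ^ p + d ^ p * ‖π 0 a.2‖ ^ p) := by
      rw [hT0, ← Real.mul_rpow hd0 (norm_nonneg _)]
      exact F2_norm_add le_rfl (hRn _) hp
    have e1 : ∀ n, ‖T (n + 1) a‖ ^ p
        ≤ 2 ^ p * (c ^ p * ‖π n a.2‖ ^ p + d ^ p * ‖π (n + 1) a.2‖ ^ p) := by
      intro n
      rw [hT1, ← Real.mul_rpow hd0 (norm_nonneg _), ← Real.mul_rpow hc0 (norm_nonneg _)]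
      exact F2_norm_add (hQn _) (hRn _) hp
    have e2 : ∑ n ∈ Finset.range M, ‖T (n + 1) a‖ ^ p
        ≤ ∑ n ∈ Finset.range M, 2 ^ p * (c ^ p * ‖π n a.2‖ ^ p + d ^ p * ‖π (n + 1) a.2‖ ^ p) :=
      Finset.sum_le_sum fun n _ => e1 n
    have e3 : ∑ n ∈ Finset.range M, 2 ^ p * (c ^ p * ‖π n a.2‖ ^ p + d ^ p * ‖π (n + 1) a.2‖ ^ p)
        = 2 ^ p * (c ^ p * ∑ n ∈ Finset.range M, ‖π n a.2‖ ^ p
          + d ^ p * ∑ n ∈ Finset.range M, ‖π (n + 1) a.2‖ ^ p) := by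
      rw [← Finset.mul_sum, Finset.sum_add_distrib, ← Finset.mul_sum, ← Finset.mul_sum]
    have e4 := h3 a.2 M
    have e5 := h3 a.2 (M + 1)
    rw [Finset.sum_range_succ'] at e5
    have e6 : ‖a.1‖ ^ p ≤ ‖a‖ ^ p := Real.rpow_le_rpow (norm_nonneg _) ha1 hp.le
    rw [e3] at e2
    have e7 : K * ‖a.2‖ ^ p ≤ K * ‖a‖ ^ p := mul_le_mul_of_nonneg_left ha2 hK
    have e8 : c ^ p * ∑ n ∈ Finset.range M, ‖π n a.2‖ ^ p ≤ c ^ p * (K * ‖a‖ ^ p) :=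
      mul_le_mul_of_nonneg_left (e4.trans e7) hcp
    have e9 : d ^ p * (∑ n ∈ Finset.range M, ‖π (n + 1) a.2‖ ^ p + ‖π 0 a.2‖ ^ p)
        ≤ d ^ p * (K * ‖a‖ ^ p) := mul_le_mul_of_nonneg_left (e5.trans e7) hdp
    calc ∑ n ∈ Finset.range M, ‖T (n + 1) a‖ ^ p + ‖T 0 a‖ ^ p
        ≤ 2 ^ p * (c ^ p * ∑ n ∈ Finset.range M, ‖π n a.2‖ ^ p
          + d ^ p * ∑ n ∈ Finset.range M, ‖π (n + 1) a.2‖ ^ p)
          + 2 ^ p * (‖a.1‖ ^ p + d ^ p * ‖π 0 a.2‖ ^ p) := add_le_add e2 e0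
      _ = 2 ^ p * (c ^ p * ∑ n ∈ Finset.range M, ‖π n a.2‖ ^ p
          + d ^ p * (∑ n ∈ Finset.range M, ‖π (n + 1) a.2‖ ^ p + ‖π 0 a.2‖ ^ p) + ‖a.1‖ ^ p) := by
          ring
      _ ≤ 2 ^ p * (c ^ p * (K * ‖a‖ ^ p) + d ^ p * (K * ‖a‖ ^ p) + ‖a‖ ^ p) :=
          mul_le_mul_of_nonneg_left (add_le_add (add_le_add e8 e9) e6) h2p
      _ = (2 ^ p * (1 + c ^ p * K + d ^ p * K)) * ‖a‖ ^ p := by ring
  obtain ⟨U, hU⟩ := univ_prop π ι p K _ hp hK (show 0 ≤ 2 ^ p * (1 + c ^ p * K + d ^ p * K) by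
    positivity) h1 h2 h4 T hTb
  have hTb' : ∀ (y : D) (N : ℕ), ∑ n ∈ Finset.range N,
      ‖(Q.comp (π (n + 1)) + R.comp (π n)) y‖ ^ p ≤ (2 ^ p * (c ^ p * K + d ^ p * K)) * ‖y‖ ^ p := by
    intro y N
    have e1 : ∀ n, ‖(Q.comp (π (n + 1)) + R.comp (π n)) y‖ ^ p
        ≤ 2 ^ p * (c ^ p * ‖π (n + 1) y‖ ^ p + d ^ p * ‖π n y‖ ^ p) := by
      intro n
      rw [← Real.mul_rpow hd0 (norm_nonneg _), ← Real.mul_rpow hc0 (norm_nonneg _)]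
      exact F2_norm_add (hQn _) (hRn _) hp
    refine (Finset.sum_le_sum fun n _ => e1 n).trans ?_
    rw [← Finset.mul_sum, Finset.sum_add_distrib, ← Finset.mul_sum, ← Finset.mul_sum]
    have e4 := mul_le_mul_of_nonneg_left (h3 y N) hdp
    have e5 := mul_le_mul_of_nonneg_left (hS y N) hcp
    have e6 := mul_le_mul_of_nonneg_left (add_le_add e5 e4) h2p
    refine e6.trans (le_of_eq ?_)
    ring
  obtain ⟨U', hU'⟩ := univ_prop π ι p K _ hp hK (show 0 ≤ 2 ^ p * (c ^ p * K + d ^ p * K) by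
    positivity) h1 h2 h4 (fun n => Q.comp (π (n + 1)) + R.comp (π n)) hTb'
  have hU'' : ∀ n y, π n (U' y) = Q (π (n + 1) y) + R (π n y) := fun n y => hU' n y
  have hU0 : ∀ a, π 0 (U a) = (a.1 : E) + R (π 0 a.2) := fun a => by rw [hU, hT0]
  have hU1 : ∀ n a, π (n + 1) (U a) = Q (π n a.2) + R (π (n + 1) a.2) := fun n a => by
    rw [hU, hT1]
  have hQRz : ∀ z, Q z + R z = z := by intro z; rw [hRz]; abel
  have hRW : ∀ w : W, R (w : E) = 0 := by intro w; rw [hRz, hQW, sub_self]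
  have hleft : ∀ a : W × D, (q (π 0 (U a)), U' (U a)) = a := by
    intro a
    refine Prod.ext ?_ ?_
    · show q (π 0 (U a)) = a.1
      rw [hU0, map_add, hq, hqR, add_zero]
    · show U' (U a) = a.2
      rw [← sub_eq_zero]
      refine hinj _ fun n => ?_
      rw [map_sub, hU'', hU1, map_add, hQQ, hQR, add_zero]
      rcases Nat.eq_zero_or_pos n with rfl | hn
      · rw [hU0, map_add, hRW, hRR, zero_add, hQRz, sub_self]
      · obtain ⟨m, rfl⟩ : ∃ m, n = m + 1 := ⟨n - 1, by omega⟩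
        rw [hU1, map_add, hRQ, hRR, zero_add, hQRz, sub_self]
  have hright : ∀ y : D, U (q (π 0 y), U' y) = y := by
    intro y
    rw [← sub_eq_zero]
    refine hinj _ fun n => ?_
    rw [map_sub]
    rcases Nat.eq_zero_or_pos n with rfl | hn
    · rw [hU0, hU'', map_add, hRQ, hRR, zero_add, ← hQq, hQRz, sub_self]
    · obtain ⟨m, rfl⟩ : ∃ m, n = m + 1 := ⟨n - 1, by omega⟩
      rw [hU1, hU'', hU'', map_add, map_add, hQQ, hQR, hRQ, hRR, add_zero, zero_add, hQRz, sub_self]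
  exact ⟨ContinuousLinearEquiv.equivOfInverse ((q.comp (π 0)).prod U') U hright hleft⟩

end Pool.Agent.MP_15d71b_an
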