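import Mathlib

/-!
# Combinatorics: infinitely many copies of every block
-/

set_option autoImplicit false
open Filter Topology Finset

namespace Pool.Agent.MP_15d71b_an

/-- `t` is a partition whose block number `Nat.pair n i` has the size of block `i` of `τ`; `s n`
inserts the partition `τ` into the blocks `pair n i` of `t`, and `ρ n` is a monotone left inverse of
`s n` which is constant on all other blocks. -/
structure Shuf (τ t : ℕ → ℕ) (s ρ : ℕ → ℕ → ℕ) : Prop where
  ht : StrictMono t
  ht0 : t 0 = 0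
  hs : ∀ n, StrictMono (s n)
  hρ : ∀ n, Monotone (ρ n)
  hρs : ∀ n k, ρ n (s n k) = k
  h1 : ∀ n i k, k ∈ Finset.Ico (τ i) (τ (i + 1)) → s n k = t (Nat.pair n i) + (k - τ i)
  h2 : ∀ n i, t (Nat.pair n i + 1) = t (Nat.pair n i) + (τ (i + 1) - τ i)
  h3 : ∀ n j, (Nat.unpair j).1 ≠ n → ∀ k k', k ∈ Finset.Ico (t j) (t (j + 1)) →
    k' ∈ Finset.Ico (t j) (t (j + 1)) → ρ n k = ρ n k'

/-- `t j := ∑_{l<j} (τ (i_l + 1) - τ i_l)` with `i_l = (Nat.unpair l).2`; every summand is `≥ 1`.
`s n k := t (Nat.pair n i) + (k - τ i)` where `i` is the block of `k` (the largest `i` with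
`τ i ≤ k`); it is strictly increasing as `Nat.pair n i` is increasing in `i`
(`Nat.pair_lt_pair_right`). `ρ n k := Nat.find` of `∃ k', k ≤ s n k'` (exists, `k ≤ s n k`), the least
`k'` with `k ≤ s n k'`: monotone, `ρ n (s n k) = k`, and if the block `j` of `t` is not of the form
`pair n i`, no value `s n k'` lies in it, so `k ≤ s n k'` iff `t (j+1) ≤ s n k'` for every
`k ∈ Ico (t j) (t (j+1))`, whence `ρ n` is constant there. -/
theorem exists_shuf (τ : ℕ → ℕ) (hτ : StrictMono τ) (h0 : τ 0 = 0) :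
    ∃ (t : ℕ → ℕ) (s ρ : ℕ → ℕ → ℕ), Shuf τ t s ρ := by
  classical
  -- block index of `τ`
  obtain ⟨blk, hblk1, hblk2⟩ : ∃ blk : ℕ → ℕ, (∀ k, τ (blk k) ≤ k) ∧ ∀ k, k < τ (blk k + 1) := by
    refine ⟨fun k => Nat.findGreatest (fun j => τ j ≤ k) k, ?_, ?_⟩
    · intro k
      exact Nat.findGreatest_spec (P := fun j => τ j ≤ k) (m := 0) (Nat.zero_le k) (by simp [h0])
    · intro k
      by_contra hcon
      push Not at hcon
      exact Nat.findGreatest_is_greatest (P := fun j => τ j ≤ k) (n := k)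
        (k := Nat.findGreatest (fun j => τ j ≤ k) k + 1)
        (Nat.lt_succ_self _) (le_trans hτ.le_apply hcon) hcon
  have hblku : ∀ i k, τ i ≤ k → k < τ (i + 1) → blk k = i := by
    intro i k h1 h2
    have h3 := hτ.lt_iff_lt.1 (lt_of_le_of_lt (hblk1 k) h2)
    have h4 := hτ.lt_iff_lt.1 (lt_of_le_of_lt h1 (hblk2 k))
    omega
  set d : ℕ → ℕ := fun l => τ ((Nat.unpair l).2 + 1) - τ (Nat.unpair l).2 with hd
  have hdpos : ∀ l, 0 < d l := fun l => Nat.sub_pos_of_lt (hτ (Nat.lt_succ_self _))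
  set t : ℕ → ℕ := fun j => ∑ l ∈ Finset.range j, d l with ht
  have htsucc : ∀ j, t (j + 1) = t j + d j := fun j => Finset.sum_range_succ _ _
  have htmono : StrictMono t := by
    apply strictMono_nat_of_lt_succ
    intro j
    rw [htsucc]
    exact Nat.lt_add_of_pos_right (hdpos j)
  have hdp : ∀ n i, d (Nat.pair n i) = τ (i + 1) - τ i := by
    intro n i
    simp only [hd, Nat.unpair_pair]
  set s : ℕ → ℕ → ℕ := fun n k => t (Nat.pair n (blk k)) + (k - τ (blk k)) with hs
  have hslt : ∀ n k, s n k < t (Nat.pair n (blk k) + 1) := by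
    intro n k
    rw [htsucc, hdp]
    have h1 := hblk1 k
    have h2 := hblk2 k
    simp only [hs]
    omega
  have hsge : ∀ n k, t (Nat.pair n (blk k)) ≤ s n k := fun n k => Nat.le_add_right _ _
  have hsm : ∀ n, StrictMono (s n) := by
    intro n
    apply strictMono_nat_of_lt_succ
    intro k
    have h1 := hblk1 k
    have h2 := hblk2 k
    have h3 := hblk1 (k + 1)
    have h4 := hblk2 (k + 1)
    by_cases hb : blk (k + 1) = blk k
    · simp only [hs]
      rw [hb]
      omega
    · have h5 : blk k < blk (k + 1) + 1 := hτ.lt_iff_lt.1 (by omega)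
      have h6 : blk k < blk (k + 1) := by omega
      calc s n k < t (Nat.pair n (blk k) + 1) := hslt n k
        _ ≤ t (Nat.pair n (blk (k + 1))) := htmono.monotone (Nat.pair_lt_pair_right n h6)
        _ ≤ s n (k + 1) := hsge n (k + 1)
  have hex : ∀ n k, ∃ k', k ≤ s n k' := fun n k => ⟨k, (hsm n).le_apply⟩
  refine ⟨t, s, fun n k => Nat.find (hex n k), ?_⟩
  have hspec : ∀ n k, k ≤ s n (Nat.find (hex n k)) := fun n k => Nat.find_spec (hex n k)
  have hmin : ∀ n k k', k ≤ s n k' → Nat.find (hex n k) ≤ k' := fun n k k' hk =>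
    Nat.find_min' (hex n k) hk
  refine ⟨htmono, ?_, hsm, ?_, ?_, ?_, ?_, ?_⟩
  · simp [ht]
  · intro n k l hkl
    exact hmin n k _ (hkl.trans (hspec n l))
  · intro n k
    refine le_antisymm (hmin n _ _ (le_refl _)) ?_
    exact (hsm n).le_iff_le.1 (hspec n (s n k))
  · intro n i k hk
    rw [Finset.mem_Ico] at hk
    simp only [hs]
    rw [hblku i k hk.1 hk.2]
  · intro n i
    rw [htsucc, hdp]
  · intro n j hj
    have key : ∀ k k', k ∈ Finset.Ico (t j) (t (j + 1)) → k' ∈ Finset.Ico (t j) (t (j + 1)) →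
        Nat.find (hex n k) ≤ Nat.find (hex n k') := by
      intro k k' hk hk'
      rw [Finset.mem_Ico] at hk hk'
      apply hmin
      set m := Nat.find (hex n k') with hm
      have h1 : k' ≤ s n m := hspec n k'
      have h2 := hslt n m
      have h3 : t j < t (Nat.pair n (blk m) + 1) := by omega
      have h4 := htmono.lt_iff_lt.1 h3
      have h5 : j ≠ Nat.pair n (blk m) := by
        intro h6
        apply hj
        rw [h6, Nat.unpair_pair]
      have h7 : j + 1 ≤ Nat.pair n (blk m) := by omega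
      have h8 := htmono.monotone h7
      have h9 := hsge n m
      omega
    intro k k' hk hk'
    exact le_antisymm (key k k' hk hk') (key k' k hk' hk)

end Pool.Agent.MP_15d71b_an
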