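import Pool.Agent.Lib.MP_15d71b_an.E9
import Pool.Agent.Lib.MP_15d71b_an.F3

/-!
# The operators between the zero-sum block spaces of tau and t
-/

set_option autoImplicit false
open Filter Topology Finset

namespace Pool.Agent.MP_15d71b_an

variable {X : Type} [NormedAddCommGroup X] [NormedSpace ℝ X] [CompleteSpace X] {e : ℕ → X}

/-- differences in a block are in the space -/
private theorem F4a_mem {t : ℕ → ℕ} {j i i' : ℕ} (hi : i ∈ Finset.Ico (t j) (t (j + 1)))
    (hi' : i' ∈ Finset.Ico (t j) (t (j + 1))) : e i - e i' ∈ zeroSumSpace e t :=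
  Submodule.le_topologicalClosure _ (Submodule.subset_span ⟨j, i, i', hi, hi', rfl⟩)

/-- `s n` maps block `l` of `τ` into block `pair n l` of `t` -/
private theorem F4a_s {τ t : ℕ → ℕ} {s ρ : ℕ → ℕ → ℕ} (S : Shuf τ t s ρ) (n l i : ℕ)
    (hi : i ∈ Finset.Ico (τ l) (τ (l + 1))) :
    s n i ∈ Finset.Ico (t (Nat.pair n l)) (t (Nat.pair n l + 1)) := by
  have h1 := Finset.mem_Ico.1 hi
  rw [S.h1 n l i hi, S.h2 n l, Finset.mem_Ico]
  omega

/-- `zeroSumSpace_le` for the preimage (`Submodule.comap`, closed) of `zeroSumSpace e t`: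
`e i - e i'` in block `l` of `τ` goes to `e (s n i) - e (s n i')`, in block `pair n l` of `t` (`S.h1`,
`S.h2`), which is in the span (`Submodule.le_topologicalClosure`, `Submodule.subset_span`). -/
theorem Mop_s_mem (h : ESA e) {τ t : ℕ → ℕ} {s ρ : ℕ → ℕ → ℕ} (S : Shuf τ t s ρ)
    (hτ : StrictMono τ) (h0 : τ 0 = 0) (n : ℕ) (x : X) (hx : x ∈ zeroSumSpace e τ) :
    Mop h (s n) (S.hs n).monotone x ∈ zeroSumSpace e t := by
  have hle : zeroSumSpace e τ ≤ (zeroSumSpace e t).comap (Mop h (s n) (S.hs n).monotone : X →ₗ[ℝ] X) := by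
    refine zeroSumSpace_le _ ?_ ?_
    · exact (isClosed_zeroSumSpace e t).preimage (Mop h (s n) (S.hs n).monotone).continuous
    · intro l i i' hi hi'
      show Mop h (s n) (S.hs n).monotone (e i - e i') ∈ zeroSumSpace e t
      rw [map_sub, Mop_e, Mop_e]
      exact F4a_mem (F4a_s S n l i hi) (F4a_s S n l i' hi')
  exact hle hx

/-- `zeroSumSpace_le`: let `k, k'` be in block `j` of `t`. If `(unpair j).1 ≠ n`, the image of
`e k - e k'` is `0` (`S.h3`). If `j = pair n i`, then `k = s n (τ i + (k - t j))` (`S.h1`), so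
`ρ n k = τ i + (k - t j) ∈ Ico (τ i) (τ (i+1))` (`S.h2`). -/
theorem Mop_ρ_mem (h : ESA e) {τ t : ℕ → ℕ} {s ρ : ℕ → ℕ → ℕ} (S : Shuf τ t s ρ)
    (hτ : StrictMono τ) (h0 : τ 0 = 0) (n : ℕ) (x : X) (hx : x ∈ zeroSumSpace e t) :
    Mop h (ρ n) (S.hρ n) x ∈ zeroSumSpace e τ := by
  have hle : zeroSumSpace e t ≤ (zeroSumSpace e τ).comap (Mop h (ρ n) (S.hρ n) : X →ₗ[ℝ] X) := by
    refine zeroSumSpace_le _ ?_ ?_
    · exact (isClosed_zeroSumSpace e τ).preimage (Mop h (ρ n) (S.hρ n)).continuous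
    · intro j k k' hk hk'
      show Mop h (ρ n) (S.hρ n) (e k - e k') ∈ zeroSumSpace e τ
      rw [map_sub, Mop_e, Mop_e]
      by_cases hj : (Nat.unpair j).1 = n
      · obtain ⟨i, hi⟩ : ∃ i, j = Nat.pair n i := by
          refine ⟨(Nat.unpair j).2, ?_⟩
          rw [← hj, Nat.pair_unpair]
        have key : ∀ m, m ∈ Finset.Ico (t j) (t (j + 1)) → ρ n m ∈ Finset.Ico (τ i) (τ (i + 1)) := by
          intro m hm
          rw [hi, S.h2 n i, Finset.mem_Ico] at hm
          have h4 : τ i + (m - t (Nat.pair n i)) ∈ Finset.Ico (τ i) (τ (i + 1)) := by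
            rw [Finset.mem_Ico]
            omega
          have h5 : s n (τ i + (m - t (Nat.pair n i))) = m := by
            rw [S.h1 n i _ h4]
            omega
          have h6 := S.hρs n (τ i + (m - t (Nat.pair n i)))
          rw [h5] at h6
          rw [h6]
          exact h4
        exact F4a_mem (key k hk) (key k' hk')
      · rw [S.h3 n j hj k k' hk hk', sub_self]
        exact Submodule.zero_mem _
  exact hle hx

/-- `zeroSumSpace_le` for the kernel: on `e i - e i'` in block `l` of `τ` the image under `Mop (s n)`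
is a difference in block `pair n l` of `t`, killed by `Mop (ρ m)` (`S.h3`). -/
theorem Mop_ρ_s (h : ESA e) {τ t : ℕ → ℕ} {s ρ : ℕ → ℕ → ℕ} (S : Shuf τ t s ρ)
    (hτ : StrictMono τ) (h0 : τ 0 = 0) (m n : ℕ) (hmn : m ≠ n) (x : X)
    (hx : x ∈ zeroSumSpace e τ) :
    Mop h (ρ m) (S.hρ m) (Mop h (s n) (S.hs n).monotone x) = 0 := by
  have hle : zeroSumSpace e τ ≤
      LinearMap.ker (((Mop h (ρ m) (S.hρ m)).comp (Mop h (s n) (S.hs n).monotone) : X →L[ℝ] X) : X →ₗ[ℝ] X) := by
    refine zeroSumSpace_le _ ?_ ?_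
    · exact ContinuousLinearMap.isClosed_ker ((Mop h (ρ m) (S.hρ m)).comp (Mop h (s n) (S.hs n).monotone))
    · intro l i i' hi hi'
      rw [LinearMap.mem_ker]
      show Mop h (ρ m) (S.hρ m) (Mop h (s n) (S.hs n).monotone (e i - e i')) = 0
      rw [map_sub, Mop_e, Mop_e, map_sub, Mop_e, Mop_e,
        S.h3 m (Nat.pair n l) (by rw [Nat.unpair_pair]; exact fun hh => hmn hh.symm) _ _
          (F4a_s S n l i hi) (F4a_s S n l i' hi'), sub_self]
  exact LinearMap.mem_ker.1 (hle hx)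

end Pool.Agent.MP_15d71b_an
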