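import Pool.Agent.Lib.MP_15d71b_an.F4a

/-!
# Coordinates and block parts
-/

set_option autoImplicit false
open Filter Topology Finset

namespace Pool.Agent.MP_15d71b_an

variable {X : Type} [NormedAddCommGroup X] [NormedSpace ℝ X] [CompleteSpace X] {e : ℕ → X}

/-- blocks of `t` with first index `n` consist of values of `s n` -/
private theorem F4b_aux1 {τ t : ℕ → ℕ} {s ρ : ℕ → ℕ → ℕ} (S : Shuf τ t s ρ) (n l m : ℕ)
    (hm : m ∈ Finset.Ico (t (Nat.pair n l)) (t (Nat.pair n l + 1))) :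
    τ l + (m - t (Nat.pair n l)) ∈ Finset.Ico (τ l) (τ (l + 1)) ∧
      s n (τ l + (m - t (Nat.pair n l))) = m := by
  obtain ⟨h1, h2⟩ := Finset.mem_Ico.mp hm
  rw [S.h2 n l] at h2
  have hmem : τ l + (m - t (Nat.pair n l)) ∈ Finset.Ico (τ l) (τ (l + 1)) := by
    refine Finset.mem_Ico.mpr ⟨by omega, by omega⟩
  refine ⟨hmem, ?_⟩
  rw [S.h1 n l _ hmem]
  omega

/-- values of `s n` on block `l` of `τ` lie in the block `pair n l` of `t` -/
private theorem F4b_aux2 {τ t : ℕ → ℕ} {s ρ : ℕ → ℕ → ℕ} (S : Shuf τ t s ρ) (n l k : ℕ)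
    (hk : k ∈ Finset.Ico (τ l) (τ (l + 1))) :
    s n k ∈ Finset.Ico (t (Nat.pair n l)) (t (Nat.pair n l + 1)) := by
  rw [S.h1 n l k hk, S.h2 n l]
  obtain ⟨h1, h2⟩ := Finset.mem_Ico.mp hk
  refine Finset.mem_Ico.mpr ⟨by omega, by omega⟩

/-- `zeroSumSpace_le` for the kernel of `co h (s n k) - co h k ∘ Mop (ρ n)`: let `a, b` be in block
`j` of `t`. If `(unpair j).1 ≠ n`: the right side vanishes (`S.h3`), and the left side too, as
`s n k` lies in a block `pair n i`, so `s n k ≠ a, b`. If `j = pair n i`: `a = s n a'`, `b = s n b'`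
with `a' = ρ n a`, `b' = ρ n b`, and `s n` is injective. -/
theorem co_s (h : ESA e) {τ t : ℕ → ℕ} {s ρ : ℕ → ℕ → ℕ} (S : Shuf τ t s ρ)
    (hτ : StrictMono τ) (h0 : τ 0 = 0) (n k : ℕ) (x : X) (hx : x ∈ zeroSumSpace e t) :
    co h (s n k) x = co h k (Mop h (ρ n) (S.hρ n) x) := by
  classical
  have hkey : zeroSumSpace e t ≤ LinearMap.ker
      ((co h (s n k) - (co h k).comp (Mop h (ρ n) (S.hρ n)) : X →L[ℝ] ℝ) : X →ₗ[ℝ] ℝ) := by
    refine zeroSumSpace_le _
      (ContinuousLinearMap.isClosed_ker (co h (s n k) - (co h k).comp (Mop h (ρ n) (S.hρ n)))) ?_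
    intro j i i' hi hi'
    have hval : ∀ m, m ∈ Finset.Ico (t j) (t (j + 1)) → (Nat.unpair j).1 = n →
        (co h (s n k)) (e m) = (co h k) (e (ρ n m)) := by
      intro m hm hj
      have hjp : Nat.pair n (Nat.unpair j).2 = j := by
        rw [← hj]; exact Nat.pair_unpair j
      rw [← hjp] at hm
      obtain ⟨h1, h2⟩ := F4b_aux1 S n (Nat.unpair j).2 m hm
      set a := τ (Nat.unpair j).2 + (m - t (Nat.pair n (Nat.unpair j).2)) with ha
      have hρm : ρ n m = a := by rw [← h2]; exact S.hρs n a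
      rw [hρm, co_e, co_e]
      by_cases hak : a = k
      · rw [if_pos hak, if_pos (by rw [← h2, hak])]
      · rw [if_neg hak, if_neg (fun q => hak ((S.hs n).injective (h2.trans q)))]
    rw [LinearMap.mem_ker]
    show (co h (s n k)) (e i - e i') - (co h k) (Mop h (ρ n) (S.hρ n) (e i - e i')) = 0
    rw [map_sub, map_sub, map_sub, Mop_e, Mop_e]
    by_cases hj : (Nat.unpair j).1 = n
    · rw [hval i hi hj, hval i' hi' hj, sub_self]
    · rw [S.h3 n j hj i i' hi hi', sub_self, sub_zero]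
      have hne : ∀ m, m ∈ Finset.Ico (t j) (t (j + 1)) → (co h (s n k)) (e m) = 0 := by
        intro m hm
        rw [co_e, if_neg]
        intro q
        have hk := bidx_spec hτ h0 k
        have h5 := F4b_aux2 S n (bidx τ k) k (Finset.mem_Ico.mpr ⟨hk.1, hk.2⟩)
        rw [← q] at h5
        obtain ⟨a1, a2⟩ := Finset.mem_Ico.mp hm
        obtain ⟨b1, b2⟩ := Finset.mem_Ico.mp h5
        have e1 := bidx_eq S.ht S.ht0 a1 a2
        have e2 := bidx_eq S.ht S.ht0 b1 b2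
        apply hj
        rw [← e1, e2, Nat.unpair_pair]
      rw [hne i hi, hne i' hi', sub_self]
  have hx' := hkey hx
  rw [LinearMap.mem_ker] at hx'
  have hx2 : (co h (s n k)) x - (co h k) (Mop h (ρ n) (S.hρ n) x) = 0 := hx'
  exact sub_eq_zero.mp hx2

/-- By `co_s` all coordinates vanish: every `k` lies in a block `j = pair n i` of `t` (`bidx_spec`
for `t`), so it is of the form `s n k'`; `ext_co`. -/
theorem joint_inj (h : ESA e) {τ t : ℕ → ℕ} {s ρ : ℕ → ℕ → ℕ} (S : Shuf τ t s ρ)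
    (hτ : StrictMono τ) (h0 : τ 0 = 0) (x : X) (hx : x ∈ zeroSumSpace e t)
    (h' : ∀ n, Mop h (ρ n) (S.hρ n) x = 0) : x = 0 := by
  refine ext_co h x (fun k => ?_)
  have hk := bidx_spec S.ht S.ht0 k
  set j := bidx t k with hjdef
  have hjp : Nat.pair (Nat.unpair j).1 (Nat.unpair j).2 = j := Nat.pair_unpair j
  have hm : k ∈ Finset.Ico (t (Nat.pair (Nat.unpair j).1 (Nat.unpair j).2))
      (t (Nat.pair (Nat.unpair j).1 (Nat.unpair j).2 + 1)) := by
    rw [hjp]; exact Finset.mem_Ico.mpr hk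
  obtain ⟨_, h2⟩ := F4b_aux1 S (Nat.unpair j).1 (Nat.unpair j).2 k hm
  rw [← h2, co_s h S hτ h0 (Nat.unpair j).1 _ x hx, h' (Nat.unpair j).1, map_zero]

/-- the part of `x` on block `j` of `τ` -/
noncomputable def blk (h : ESA e) (τ : ℕ → ℕ) (j : ℕ) (x : X) : X :=
  ∑ i ∈ Finset.Ico (τ j) (τ (j + 1)), co h i x • e i

/-- By `co_s` and `S.h1`, `S.h2` (reindexing `k = t (pair n i) + l`, `k' = τ i + l`,
`k = s n k'`): `blk t (pair n i) x = Mop (s n) (blk τ i (Mop (ρ n) x))`; `norm_Mop_eq`. -/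
theorem norm_blk (h : ESA e) {τ t : ℕ → ℕ} {s ρ : ℕ → ℕ → ℕ} (S : Shuf τ t s ρ)
    (hτ : StrictMono τ) (h0 : τ 0 = 0) (n i : ℕ) (x : X) (hx : x ∈ zeroSumSpace e t) :
    ‖blk h t (Nat.pair n i) x‖ = ‖blk h τ i (Mop h (ρ n) (S.hρ n) x)‖ := by
  have hEq : blk h t (Nat.pair n i) x
      = Mop h (s n) (S.hs n).monotone (blk h τ i (Mop h (ρ n) (S.hρ n) x)) := by
    unfold blk
    rw [map_sum]
    symm
    refine Finset.sum_nbij (fun a => s n a) ?_ ?_ ?_ ?_
    · intro a ha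
      exact F4b_aux2 S n i a ha
    · intro a _ b _ hab
      exact (S.hs n).injective hab
    · intro m hm
      obtain ⟨h1, h2⟩ := F4b_aux1 S n i m (Finset.mem_coe.mp hm)
      exact ⟨_, Finset.mem_coe.mpr h1, h2⟩
    · intro a _
      rw [map_smul, Mop_e, co_s h S hτ h0 n a x hx]
  rw [hEq]
  exact norm_Mop_eq h (s n) (S.hs n) _

end Pool.Agent.MP_15d71b_an
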