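import Pool.Agent.Lib.MP_15d71b_an.F4b

/-!
# Two-sided p-estimates
-/

set_option autoImplicit false
open Filter Topology Finset

namespace Pool.Agent.MP_15d71b_an

variable {X : Type} [NormedAddCommGroup X] [NormedSpace ℝ X]

/-- two-sided `ℓ_p` estimates for finite sequences of successive zero-sum block vectors -/
def PEst (e : ℕ → X) (p C : ℝ) : Prop :=
  ∀ (m : ℕ) (τ : ℕ → ℕ) (a : ℕ → ℝ), StrictMono τ →
    (∀ j, j < m → ∑ i ∈ Finset.Ico (τ j) (τ (j + 1)), a i = 0) →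
    ∑ j ∈ Finset.range m, ‖∑ i ∈ Finset.Ico (τ j) (τ (j + 1)), a i • e i‖ ^ p
        ≤ C * ‖∑ j ∈ Finset.range m, ∑ i ∈ Finset.Ico (τ j) (τ (j + 1)), a i • e i‖ ^ p ∧
      ‖∑ j ∈ Finset.range m, ∑ i ∈ Finset.Ico (τ j) (τ (j + 1)), a i • e i‖ ^ p
        ≤ C * ∑ j ∈ Finset.range m, ‖∑ i ∈ Finset.Ico (τ j) (τ (j + 1)), a i • e i‖ ^ p

variable [CompleteSpace X] {e : ℕ → X}

/-- Block sums of the coordinates vanish on `zeroSumSpace` (`mem_zeroSumSpace`, `co_Rop`);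
`PN h (τ J) x = ∑_{j<J} blk h τ j x` (`PN_apply`, induction on `J` with
`Finset.sum_Ico_consecutive`, `τ 0 = 0`); `PEst` for `a i := co h i x`. -/
theorem pest_blk (h : ESA e) {p C : ℝ} (hP : PEst e p C) {τ : ℕ → ℕ} (hτ : StrictMono τ)
    (h0 : τ 0 = 0) (x : X) (hx : x ∈ zeroSumSpace e τ) (J : ℕ) :
    ∑ j ∈ Finset.range J, ‖blk h τ j x‖ ^ p ≤ C * ‖PN h (τ J) x‖ ^ p ∧
      ‖PN h (τ J) x‖ ^ p ≤ C * ∑ j ∈ Finset.range J, ‖blk h τ j x‖ ^ p := by
  have hz : ∀ j, j < J → ∑ i ∈ Finset.Ico (τ j) (τ (j + 1)), (fun i => co h i x) i = 0 := by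
    intro j _
    have h1 := (mem_zeroSumSpace h hτ h0 x).1 hx
    have h2 := co_Rop h hτ h0 j x
    rw [h1, map_zero] at h2
    exact h2.symm
  have hPN : PN h (τ J) x = ∑ j ∈ Finset.range J,
      ∑ i ∈ Finset.Ico (τ j) (τ (j + 1)), (fun i => co h i x) i • e i := by
    rw [PN_apply]
    clear hz
    induction J with
    | zero => rw [h0, Finset.range_zero, Finset.sum_empty, Finset.sum_empty]
    | succ J ih =>
      rw [Finset.sum_range_succ, ← ih, Finset.range_eq_Ico, Finset.range_eq_Ico]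
      exact (Finset.sum_Ico_consecutive _ (Nat.zero_le _) (hτ (Nat.lt_succ_self J)).le).symm
  have h1 := hP J τ (fun i => co h i x) hτ hz
  rw [← hPN] at h1
  exact h1

end Pool.Agent.MP_15d71b_an
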