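import Pool.Agent.Lib.MP_15d71b_an.F5a

/-!
# The lower estimate
-/

set_option autoImplicit false
open Filter Topology Finset

namespace Pool.Agent.MP_15d71b_an

variable {X : Type} [NormedAddCommGroup X] [NormedSpace ℝ X] [CompleteSpace X] {e : ℕ → X}

/-- `K0` the constant of `PN_bound`; the constant is `C^2 K0^p`. Fix `N` and `J`; let `L` be larger
than all `pair n i` with `n < N`, `i < J`. By `pest_blk` for `τ` (and `Mop_ρ_mem`), `norm_blk`, the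
injectivity of `pair`, and `pest_blk` for `t`:
`∑_{n<N} ‖PN (τ J) (Mop (ρ n) x)‖^p ≤ C ∑_{n<N} ∑_{i<J} ‖blk τ i (Mop (ρ n) x)‖^p
 = C ∑_{n<N} ∑_{i<J} ‖blk t (pair n i) x‖^p ≤ C ∑_{l<L} ‖blk t l x‖^p ≤ C^2 ‖PN (t L) x‖^p
 ≤ C^2 K0^p ‖x‖^p`; let `J → ∞` (`tendsto_PN` along `τ J → ∞`, continuity of `u ↦ ‖u‖^p` for
`p > 0`). `C ≥ 0` is assumed. -/
theorem lower (h : ESA e) {p C : ℝ} (hp : 0 < p) (hC : 0 ≤ C) (hP : PEst e p C) {τ t : ℕ → ℕ}
    {s ρ : ℕ → ℕ → ℕ} (S : Shuf τ t s ρ) (hτ : StrictMono τ) (h0 : τ 0 = 0) :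
    ∃ K : ℝ, 0 ≤ K ∧ ∀ (x : X), x ∈ zeroSumSpace e t → ∀ N : ℕ,
      ∑ n ∈ Finset.range N, ‖Mop h (ρ n) (S.hρ n) x‖ ^ p ≤ K * ‖x‖ ^ p := by
  classical
  obtain ⟨K0, hK0, hPN⟩ := PN_bound h
  refine ⟨C * (C * K0 ^ p), by positivity, ?_⟩
  intro x hx N
  have hkey : ∀ J : ℕ, ∑ n ∈ Finset.range N, ‖PN h (τ J) (Mop h (ρ n) (S.hρ n) x)‖ ^ p
      ≤ C * (C * K0 ^ p) * ‖x‖ ^ p := by
    intro J
    set L : ℕ := (Finset.range N ×ˢ Finset.range J).sup (fun q => Nat.pair q.1 q.2) + 1 with hL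
    have h1 : ∑ n ∈ Finset.range N, ‖PN h (τ J) (Mop h (ρ n) (S.hρ n) x)‖ ^ p
        ≤ ∑ n ∈ Finset.range N,
          C * ∑ i ∈ Finset.range J, ‖blk h τ i (Mop h (ρ n) (S.hρ n) x)‖ ^ p := by
      refine Finset.sum_le_sum (fun n _ => ?_)
      exact (pest_blk h hP hτ h0 _ (Mop_ρ_mem h S hτ h0 n x hx) J).2
    rw [← Finset.mul_sum] at h1
    have h2 : ∑ n ∈ Finset.range N, ∑ i ∈ Finset.range J,
          ‖blk h τ i (Mop h (ρ n) (S.hρ n) x)‖ ^ p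
        = ∑ q ∈ Finset.range N ×ˢ Finset.range J, ‖blk h t (Nat.pair q.1 q.2) x‖ ^ p := by
      rw [Finset.sum_product]
      refine Finset.sum_congr rfl (fun n _ => Finset.sum_congr rfl (fun i _ => ?_))
      show ‖blk h τ i (Mop h (ρ n) (S.hρ n) x)‖ ^ p = ‖blk h t (Nat.pair n i) x‖ ^ p
      rw [norm_blk h S hτ h0 n i x hx]
    have h3 : ∑ q ∈ Finset.range N ×ˢ Finset.range J, ‖blk h t (Nat.pair q.1 q.2) x‖ ^ p
        ≤ ∑ l ∈ Finset.range L, ‖blk h t l x‖ ^ p := by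
      have e1 : ∑ l ∈ (Finset.range N ×ˢ Finset.range J).image (fun q => Nat.pair q.1 q.2),
            ‖blk h t l x‖ ^ p
          = ∑ q ∈ Finset.range N ×ˢ Finset.range J, ‖blk h t (Nat.pair q.1 q.2) x‖ ^ p := by
        refine Finset.sum_image ?_
        intro a _ b _ hab
        have h' := Nat.pair_eq_pair.mp hab
        exact Prod.ext h'.1 h'.2
      rw [← e1]
      refine Finset.sum_le_sum_of_subset_of_nonneg ?_
        (fun l _ _ => Real.rpow_nonneg (norm_nonneg _) p)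
      intro l hl
      obtain ⟨q, hq, rfl⟩ := Finset.mem_image.mp hl
      refine Finset.mem_range.mpr ?_
      rw [hL]
      exact Nat.lt_succ_of_le (Finset.le_sup (f := fun q : ℕ × ℕ => Nat.pair q.1 q.2) hq)
    have h4 := (pest_blk h hP S.ht S.ht0 x hx L).1
    have h5 : ‖PN h (t L) x‖ ^ p ≤ K0 ^ p * ‖x‖ ^ p := by
      rw [← Real.mul_rpow hK0.le (norm_nonneg _)]
      exact Real.rpow_le_rpow (norm_nonneg _) (hPN _ _) hp.le
    calc ∑ n ∈ Finset.range N, ‖PN h (τ J) (Mop h (ρ n) (S.hρ n) x)‖ ^ p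
        ≤ C * ∑ n ∈ Finset.range N, ∑ i ∈ Finset.range J,
          ‖blk h τ i (Mop h (ρ n) (S.hρ n) x)‖ ^ p := h1
      _ ≤ C * (C * (K0 ^ p * ‖x‖ ^ p)) := by
          refine mul_le_mul_of_nonneg_left ?_ hC
          rw [h2]
          refine h3.trans (h4.trans ?_)
          exact mul_le_mul_of_nonneg_left h5 hC
      _ = C * (C * K0 ^ p) * ‖x‖ ^ p := by ring
  have hlim : Tendsto (fun J => ∑ n ∈ Finset.range N,
      ‖PN h (τ J) (Mop h (ρ n) (S.hρ n) x)‖ ^ p) atTop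
      (𝓝 (∑ n ∈ Finset.range N, ‖Mop h (ρ n) (S.hρ n) x‖ ^ p)) := by
    refine tendsto_finsetSum _ (fun n _ => ?_)
    have a1 : Tendsto (fun J => PN h (τ J) (Mop h (ρ n) (S.hρ n) x)) atTop
        (𝓝 (Mop h (ρ n) (S.hρ n) x)) :=
      (tendsto_PN h _).comp hτ.tendsto_atTop
    exact (a1.norm).rpow_const (Or.inr hp.le)
  exact le_of_tendsto' hlim hkey

end Pool.Agent.MP_15d71b_an
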