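import Pool.Agent.Lib.MP_15d71b_an.F5a

/-!
# The upper estimate
-/

set_option autoImplicit false
open Filter Topology Finset

namespace Pool.Agent.MP_15d71b_an

variable {X : Type} [NormedAddCommGroup X] [NormedSpace ℝ X] [CompleteSpace X] {e : ℕ → X}

/-- Let `z := ∑_{n∈F} Mop (s n) (y n) ∈ zeroSumSpace e t` (`Mop_s_mem`). For all `n`:
`Mop (ρ n) z = y n` if `n ∈ F` (`Mop_left_inv`, `Mop_ρ_s`), `0` otherwise. So by `norm_blk`
`‖blk t (pair n i) z‖ = ‖blk τ i (y n)‖` if `n ∈ F` and `= 0` otherwise, and with `pest_blk`: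
`‖PN (t L) z‖^p ≤ C ∑_{l<L} ‖blk t l z‖^p ≤ C ∑_{n∈F} ∑_{i<L} ‖blk τ i (y n)‖^p
 ≤ C^2 ∑_{n∈F} ‖PN (τ L) (y n)‖^p ≤ C^2 K0^p ∑_{n∈F} ‖y n‖^p`
(`l ↦ unpair l` is injective, both components are `≤ l < L`, `Nat.unpair_right_le`); let
`L → ∞`. -/
theorem upper (h : ESA e) {p C : ℝ} (hp : 0 < p) (hC : 0 ≤ C) (hP : PEst e p C) {τ t : ℕ → ℕ}
    {s ρ : ℕ → ℕ → ℕ} (S : Shuf τ t s ρ) (hτ : StrictMono τ) (h0 : τ 0 = 0) :
    ∃ K : ℝ, 0 ≤ K ∧ ∀ (F : Finset ℕ) (y : ℕ → X), (∀ n, y n ∈ zeroSumSpace e τ) →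
      ‖∑ n ∈ F, Mop h (s n) (S.hs n).monotone (y n)‖ ^ p ≤ K * ∑ n ∈ F, ‖y n‖ ^ p := by
  classical
  obtain ⟨K0, hK0, hPN⟩ := PN_bound h
  refine ⟨C * (C * K0 ^ p), by positivity, ?_⟩
  intro F y hy
  set z : X := ∑ n ∈ F, Mop h (s n) (S.hs n).monotone (y n) with hzdef
  have hz : z ∈ zeroSumSpace e t := by
    rw [hzdef]
    exact Submodule.sum_mem _ (fun n _ => Mop_s_mem h S hτ h0 n (y n) (hy n))
  have hρz : ∀ n, Mop h (ρ n) (S.hρ n) z = if n ∈ F then y n else 0 := by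
    intro n
    rw [hzdef, map_sum]
    have hterm : ∀ m ∈ F, Mop h (ρ n) (S.hρ n) (Mop h (s m) (S.hs m).monotone (y m))
        = if m = n then y n else 0 := by
      intro m _
      by_cases hmn : m = n
      · subst hmn
        rw [if_pos rfl]
        exact Mop_left_inv h (ρ m) (s m) (S.hρ m) (S.hs m).monotone (S.hρs m) (y m)
      · rw [if_neg hmn]
        exact Mop_ρ_s h S hτ h0 n m (fun q => hmn q.symm) (y m) (hy m)
    rw [Finset.sum_congr rfl hterm, Finset.sum_ite_eq' F n (fun _ => y n)]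
  have hblk0 : ∀ i, blk h τ i (0 : X) = 0 := by
    intro i
    unfold blk
    refine Finset.sum_eq_zero (fun j _ => ?_)
    rw [map_zero, zero_smul]
  set g : ℕ × ℕ → ℝ := fun q => ‖blk h τ q.2 (Mop h (ρ q.1) (S.hρ q.1) z)‖ ^ p with hg
  have hg0 : ∀ q, 0 ≤ g q := fun q => Real.rpow_nonneg (norm_nonneg _) p
  have hgF : ∀ q, q.1 ∉ F → g q = 0 := by
    intro q hq
    show ‖blk h τ q.2 (Mop h (ρ q.1) (S.hρ q.1) z)‖ ^ p = 0
    rw [hρz q.1, if_neg hq, hblk0, norm_zero, Real.zero_rpow hp.ne']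
  have hkey : ∀ L : ℕ, ‖PN h (t L) z‖ ^ p ≤ C * (C * K0 ^ p) * ∑ n ∈ F, ‖y n‖ ^ p := by
    intro L
    have h1 := (pest_blk h hP S.ht S.ht0 z hz L).2
    have h2 : ∑ l ∈ Finset.range L, ‖blk h t l z‖ ^ p
        = ∑ l ∈ Finset.range L, g (Nat.unpair l) := by
      refine Finset.sum_congr rfl (fun l _ => ?_)
      have := norm_blk h S hτ h0 (Nat.unpair l).1 (Nat.unpair l).2 z hz
      rw [Nat.pair_unpair] at this
      show ‖blk h t l z‖ ^ p
        = ‖blk h τ (Nat.unpair l).2 (Mop h (ρ (Nat.unpair l).1) (S.hρ (Nat.unpair l).1) z)‖ ^ p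
      rw [this]
    have h3 : ∑ l ∈ Finset.range L, g (Nat.unpair l)
        ≤ ∑ q ∈ F ×ˢ Finset.range L, g q := by
      have hinj : ∀ a b : ℕ, Nat.unpair a = Nat.unpair b → a = b := by
        intro a b hab
        rw [← Nat.pair_unpair a, ← Nat.pair_unpair b, hab]
      have e1 : ∑ l ∈ (Finset.range L).filter (fun l => (Nat.unpair l).1 ∈ F), g (Nat.unpair l)
          = ∑ l ∈ Finset.range L, g (Nat.unpair l) := by
        refine Finset.sum_subset (Finset.filter_subset _ _) ?_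
        intro l hl hl'
        refine hgF _ (fun hc => hl' ?_)
        exact Finset.mem_filter.mpr ⟨hl, hc⟩
      rw [← e1]
      have e2 : ∑ q ∈ ((Finset.range L).filter (fun l => (Nat.unpair l).1 ∈ F)).image Nat.unpair, g q
          = ∑ l ∈ (Finset.range L).filter (fun l => (Nat.unpair l).1 ∈ F), g (Nat.unpair l) :=
        Finset.sum_image (fun a _ b _ hab => hinj a b hab)
      rw [← e2]
      refine Finset.sum_le_sum_of_subset_of_nonneg ?_ (fun q _ _ => hg0 q)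
      intro q hq
      obtain ⟨l, hl, rfl⟩ := Finset.mem_image.mp hq
      obtain ⟨hl1, hl2⟩ := Finset.mem_filter.mp hl
      refine Finset.mem_product.mpr ⟨hl2, Finset.mem_range.mpr ?_⟩
      exact lt_of_le_of_lt (Nat.unpair_right_le l) (Finset.mem_range.mp hl1)
    have h4 : ∑ q ∈ F ×ˢ Finset.range L, g q
        = ∑ n ∈ F, ∑ i ∈ Finset.range L, ‖blk h τ i (y n)‖ ^ p := by
      rw [Finset.sum_product]
      refine Finset.sum_congr rfl (fun n hn => Finset.sum_congr rfl (fun i _ => ?_))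
      show ‖blk h τ i (Mop h (ρ n) (S.hρ n) z)‖ ^ p = ‖blk h τ i (y n)‖ ^ p
      rw [hρz n, if_pos hn]
    have h5 : ∑ n ∈ F, ∑ i ∈ Finset.range L, ‖blk h τ i (y n)‖ ^ p
        ≤ ∑ n ∈ F, C * K0 ^ p * ‖y n‖ ^ p := by
      refine Finset.sum_le_sum (fun n _ => ?_)
      refine ((pest_blk h hP hτ h0 (y n) (hy n) L).1).trans ?_
      have a1 : ‖PN h (τ L) (y n)‖ ^ p ≤ (K0 * ‖y n‖) ^ p :=
        Real.rpow_le_rpow (norm_nonneg _) (hPN _ _) hp.le
      rw [Real.mul_rpow hK0.le (norm_nonneg _)] at a1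
      calc C * ‖PN h (τ L) (y n)‖ ^ p ≤ C * (K0 ^ p * ‖y n‖ ^ p) :=
            mul_le_mul_of_nonneg_left a1 hC
        _ = C * K0 ^ p * ‖y n‖ ^ p := by ring
    rw [← Finset.mul_sum] at h5
    calc ‖PN h (t L) z‖ ^ p ≤ C * ∑ l ∈ Finset.range L, ‖blk h t l z‖ ^ p := h1
      _ ≤ C * (C * K0 ^ p * ∑ n ∈ F, ‖y n‖ ^ p) := by
          refine mul_le_mul_of_nonneg_left ?_ hC
          rw [h2]
          exact h3.trans (h4.le.trans h5)
      _ = C * (C * K0 ^ p) * ∑ n ∈ F, ‖y n‖ ^ p := by ring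
  have hlim : Tendsto (fun L => ‖PN h (t L) z‖ ^ p) atTop (𝓝 (‖z‖ ^ p)) := by
    have a1 : Tendsto (fun L => PN h (t L) z) atTop (𝓝 z) :=
      (tendsto_PN h z).comp S.ht.tendsto_atTop
    exact (a1.norm).rpow_const (Or.inr hp.le)
  exact le_of_tendsto' hlim hkey

end Pool.Agent.MP_15d71b_an
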