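import Pool.Agent.Lib.MP_15d71b_an.F2
import Pool.Agent.Lib.MP_15d71b_an.F5b
import Pool.Agent.Lib.MP_15d71b_an.F5c

/-!
# Absorption in the zero-sum block space
-/

set_option autoImplicit false
open Filter Topology Finset

namespace Pool.Agent.MP_15d71b_an

variable {X : Type} [NormedAddCommGroup X] [NormedSpace ℝ X] [CompleteSpace X] {e : ℕ → X}

/-- `swindle` for `D := zeroSumSpace e t`, `E := zeroSumSpace e τ` (complete, being closed:
`isClosed_zeroSumSpace`, `IsClosed.completeSpace_coe`), `π n`, `ι n` the restrictions of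
`Mop (ρ n)`, `Mop (s n)` (`Mop_ρ_mem`, `Mop_s_mem`, `ContinuousLinearMap.codRestrict`), with
`Mop_left_inv`, `Mop_ρ_s`, `joint_inj`, `lower`, `upper` (take the maximum of the two constants).
Here `t, s, ρ` come from `exists_shuf`. -/
theorem absorb_K (h : ESA e) {p C : ℝ} (hp : 0 < p) (hC : 0 ≤ C) (hP : PEst e p C) {τ : ℕ → ℕ}
    (hτ : StrictMono τ) (h0 : τ 0 = 0) (W V : Submodule ℝ (zeroSumSpace e τ))
    (hW : IsClosed (W : Set (zeroSumSpace e τ))) (hV : IsClosed (V : Set (zeroSumSpace e τ)))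
    (hWV : IsCompl W V) :
    ∃ t : ℕ → ℕ, StrictMono t ∧ t 0 = 0 ∧
      Nonempty (zeroSumSpace e t ≃L[ℝ] W × zeroSumSpace e t) := by
  obtain ⟨t, s, ρ, S⟩ := exists_shuf τ hτ h0
  refine ⟨t, S.ht, S.ht0, ?_⟩
  have : CompleteSpace (zeroSumSpace e t) := (isClosed_zeroSumSpace e t).completeSpace_coe
  have : CompleteSpace (zeroSumSpace e τ) := (isClosed_zeroSumSpace e τ).completeSpace_coe
  obtain ⟨K1, hK1, hlow⟩ := lower h hp hC hP S hτ h0
  obtain ⟨K2, hK2, hup⟩ := upper h hp hC hP S hτ h0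
  let π : ℕ → zeroSumSpace e t →L[ℝ] zeroSumSpace e τ := fun n =>
    ((Mop h (ρ n) (S.hρ n)).comp (zeroSumSpace e t).subtypeL).codRestrict (zeroSumSpace e τ)
      (fun x => Mop_ρ_mem h S hτ h0 n x.1 x.2)
  let ι : ℕ → zeroSumSpace e τ →L[ℝ] zeroSumSpace e t := fun n =>
    ((Mop h (s n) (S.hs n).monotone).comp (zeroSumSpace e τ).subtypeL).codRestrict
      (zeroSumSpace e t) (fun x => Mop_s_mem h S hτ h0 n x.1 x.2)
  have hπ : ∀ n (x : zeroSumSpace e t), (π n x : X) = Mop h (ρ n) (S.hρ n) x.1 :=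
    fun n x => rfl
  have hι : ∀ n (x : zeroSumSpace e τ), (ι n x : X) = Mop h (s n) (S.hs n).monotone x.1 :=
    fun n x => rfl
  refine swindle π ι p (max K1 K2) hp (hK1.trans (le_max_left _ _)) ?_ ?_ ?_ ?_ ?_ W V hW hV hWV
  · intro n y
    apply Subtype.ext
    rw [hπ, hι]
    exact Mop_left_inv h (ρ n) (s n) (S.hρ n) (S.hs n).monotone (S.hρs n) y.1
  · intro m n hmn y
    apply Subtype.ext
    rw [hπ, hι]
    exact Mop_ρ_s h S hτ h0 m n hmn y.1 y.2
  · intro x N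
    have h1 := hlow x.1 x.2 N
    have h2 : K1 * ‖x.1‖ ^ p ≤ max K1 K2 * ‖x.1‖ ^ p :=
      mul_le_mul_of_nonneg_right (le_max_left _ _) (Real.rpow_nonneg (norm_nonneg _) _)
    exact h1.trans h2
  · intro F y
    have h1 := hup F (fun n => (y n).1) (fun n => (y n).2)
    have h2 : K2 * ∑ n ∈ F, ‖(y n).1‖ ^ p ≤ max K1 K2 * ∑ n ∈ F, ‖(y n).1‖ ^ p :=
      mul_le_mul_of_nonneg_right (le_max_right _ _)
        (Finset.sum_nonneg fun n _ => Real.rpow_nonneg (norm_nonneg _) _)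
    have h3 : ((∑ n ∈ F, ι n (y n) : zeroSumSpace e t) : X)
        = ∑ n ∈ F, Mop h (s n) (S.hs n).monotone (y n).1 := by
      rw [Submodule.coe_sum]
      exact Finset.sum_congr rfl fun n _ => hι n (y n)
    have h4 : ‖∑ n ∈ F, ι n (y n)‖ = ‖∑ n ∈ F, Mop h (s n) (S.hs n).monotone (y n).1‖ := by
      rw [← h3]
      rfl
    rw [h4]
    exact h1.trans h2
  · intro x hx
    apply Subtype.ext
    refine joint_inj h S hτ h0 x.1 x.2 fun n => ?_
    rw [← hπ, hx n]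
    rfl

end Pool.Agent.MP_15d71b_an
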