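import Pool.Agent.Lib.MP_15d71b_an.F6a

/-!
# Absorption
-/

set_option autoImplicit false
open Filter Topology Finset

namespace Pool.Agent.MP_15d71b_an

variable {X : Type} [NormedAddCommGroup X] [NormedSpace ℝ X] [CompleteSpace X] {e : ℕ → X}

/-- `X ≃ X × K_t ≃ X × (W × K_t) ≃ (X × K_t) × W ≃ X × W` (`split_zeroSum`, `absorb_K`). -/
theorem absorb (h : ESA e) {p C : ℝ} (hp : 0 < p) (hC : 0 ≤ C) (hP : PEst e p C) {τ : ℕ → ℕ}
    (hτ : StrictMono τ) (h0 : τ 0 = 0) (W V : Submodule ℝ (zeroSumSpace e τ))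
    (hW : IsClosed (W : Set (zeroSumSpace e τ))) (hV : IsClosed (V : Set (zeroSumSpace e τ)))
    (hWV : IsCompl W V) : Nonempty ((X × W) ≃L[ℝ] X) := by
  obtain ⟨t, ht, ht0, ⟨eK⟩⟩ := absorb_K h hp hC hP hτ h0 W V hW hV hWV
  obtain ⟨eX⟩ := split_zeroSum h ht ht0
  exact ⟨(eX.prodCongr (ContinuousLinearEquiv.refl ℝ W)).trans
    ((ContinuousLinearEquiv.prodAssoc ℝ X (zeroSumSpace e t) W).trans
      (((ContinuousLinearEquiv.refl ℝ X).prodCongr
        ((ContinuousLinearEquiv.prodComm ℝ (zeroSumSpace e t) W).trans eK.symm)).trans eX.symm))⟩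

end Pool.Agent.MP_15d71b_an
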