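import Pool.Agent.Lib.MP_15d71b_an.E9

/-!
# Zero-sum vectors on successive intervals are suppression unconditional
-/

set_option autoImplicit false
open Filter Topology Finset

namespace Pool.Agent.MP_15d71b_an

variable {X : Type} [NormedAddCommGroup X] [NormedSpace ℝ X] [CompleteSpace X] {e : ℕ → X}

/-- `x` is supported on `[a, b)` and its coefficients sum to `0` -/
def Reg (h : ESA e) (a b : ℕ) (x : X) : Prop := PN h b x = x ∧ PN h a x = 0 ∧ SF h x = 0

theorem Reg.add {h : ESA e} {a b : ℕ} {x y : X} (hx : Reg h a b x) (hy : Reg h a b y) :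
    Reg h a b (x + y) := by
  obtain ⟨h1, h2, h3⟩ := hx
  obtain ⟨h4, h5, h6⟩ := hy
  exact ⟨by rw [map_add, h1, h4], by rw [map_add, h2, h5, add_zero],
    by rw [map_add, h3, h6, add_zero]⟩

theorem Reg.smul {h : ESA e} {a b : ℕ} {x : X} (c : ℝ) (hx : Reg h a b x) :
    Reg h a b (c • x) := by
  obtain ⟨h1, h2, h3⟩ := hx
  exact ⟨by rw [map_smul, h1], by rw [map_smul, h2, smul_zero],
    by rw [map_smul, h3, smul_zero]⟩

theorem Reg.zero (h : ESA e) (a b : ℕ) : Reg h a b (0 : X) := by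
  exact ⟨map_zero _, map_zero _, map_zero _⟩

/-- `x = PN b x - PN a x = ∑_{k ∈ Ico a b} co h k x • e k`. If `r` is the identity on `[a, b)` then
`Mop r x = x`; if `r` is constant on `[a, b)` then `Mop r x = (SF h x) • e _ = 0`. -/
theorem Mop_reg (h : ESA e) {a b : ℕ} (hab : a < b) {x : X} (hx : Reg h a b x) (r : ℕ → ℕ)
    (hr : Monotone r) :
    ((∀ k, a ≤ k → k < b → r k = k) → Mop h r hr x = x) ∧
      ((∀ k, a ≤ k → k < b → r k = r a) → Mop h r hr x = 0) := by
  obtain ⟨h1, h2, h3⟩ := hx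
  have hxs : x = ∑ k ∈ Finset.Ico a b, co h k x • e k := by
    rw [Finset.sum_Ico_eq_sub _ hab.le, ← PN_apply, ← PN_apply, h1, h2, sub_zero]
  have hM : Mop h r hr x = ∑ k ∈ Finset.Ico a b, co h k x • e (r k) := by
    have h4 := congrArg (Mop h r hr) hxs
    rw [map_sum] at h4
    rw [h4]
    refine Finset.sum_congr rfl (fun k _ => ?_)
    rw [map_smul, Mop_e]
  have hS : ∑ k ∈ Finset.Ico a b, co h k x = 0 := by
    have h4 := congrArg (SF h) hxs
    rw [map_sum, h3] at h4
    rw [h4]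
    refine Finset.sum_congr rfl (fun k _ => ?_)
    rw [map_smul, SF_e, smul_eq_mul, mul_one]
  constructor
  · intro hk
    rw [hM]
    conv_rhs => rw [hxs]
    refine Finset.sum_congr rfl (fun k hkk => ?_)
    obtain ⟨hk1, hk2⟩ := Finset.mem_Ico.1 hkk
    rw [hk k hk1 hk2]
  · intro hk
    rw [hM]
    have h5 : ∀ k ∈ Finset.Ico a b, co h k x • e (r k) = co h k x • e (r a) := by
      intro k hkk
      obtain ⟨hk1, hk2⟩ := Finset.mem_Ico.1 hkk
      rw [hk k hk1 hk2]
    rw [Finset.sum_congr rfl h5, ← Finset.sum_smul, hS, zero_smul]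

private theorem G1_one (h : ESA e) (T : ℕ → ℕ) (hT : StrictMono T) (w : ℕ → X)
    (hw : ∀ i, Reg h (T i) (T (i + 1)) (w i)) (M : ℕ) (i0 : ℕ) (t : ℝ) (ht : 0 ≤ t ∧ t ≤ 1) :
    ‖∑ i ∈ Finset.range M, (if i = i0 then t • w i else w i)‖ ≤
      ‖∑ i ∈ Finset.range M, w i‖ := by
  have hTl : ∀ i, T i < T (i + 1) := fun i => hT (Nat.lt_succ_self i)
  have hr : Monotone (fun k => if T i0 ≤ k ∧ k < T (i0 + 1) then T i0 else k) := by
    intro k l hkl
    dsimp only
    split_ifs <;> omega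
  have h1 : ∀ i, i ≠ i0 → Mop h _ hr (w i) = w i := by
    intro i hi
    refine (Mop_reg h (hTl i) (hw i) _ hr).1 ?_
    intro k hk1 hk2
    rw [if_neg]
    rintro ⟨hk3, hk4⟩
    rcases lt_or_gt_of_ne hi with hlt | hgt
    · have := hT.monotone (show i + 1 ≤ i0 by omega)
      omega
    · have := hT.monotone (show i0 + 1 ≤ i by omega)
      omega
  have h2 : Mop h _ hr (w i0) = 0 := by
    refine (Mop_reg h (hTl i0) (hw i0) _ hr).2 ?_
    intro k hk1 hk2
    rw [if_pos ⟨hk1, hk2⟩, if_pos ⟨le_rfl, hTl i0⟩]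
  have h3 : ∑ i ∈ Finset.range M, (if i = i0 then t • w i else w i) =
      t • ∑ i ∈ Finset.range M, w i + (1 - t) • Mop h _ hr (∑ i ∈ Finset.range M, w i) := by
    rw [map_sum, Finset.smul_sum, Finset.smul_sum, ← Finset.sum_add_distrib]
    refine Finset.sum_congr rfl (fun i _ => ?_)
    by_cases hi : i = i0
    · subst hi
      rw [if_pos rfl, h2, smul_zero, add_zero]
    · rw [if_neg hi, h1 i hi, ← add_smul]
      have : t + (1 - t) = 1 := by ring
      rw [this, one_smul]
  rw [h3]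
  have h4 := norm_Mop_le h _ hr (∑ i ∈ Finset.range M, w i)
  refine (norm_add_le _ _).trans ?_
  rw [norm_smul, norm_smul, Real.norm_of_nonneg ht.1, Real.norm_of_nonneg (by linarith [ht.2])]
  have h5 := mul_le_mul_of_nonneg_left h4 (show 0 ≤ 1 - t by linarith [ht.2])
  linarith

/-- For one index `i0` the monotone map `r k := if T i0 ≤ k ∧ k < T (i0+1) then T i0 else k` fixes
`z i` for `i ≠ i0` and kills `z i0` (`Mop_reg`), so dropping the summand `i0` does not increase the
norm; dropping it partially, `θ x + (1 - θ) (Mop r x)`, neither. Apply this successively to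
`i0 = 0, 1, ..., M - 1`: induction on `k ≤ M` for the multipliers `θ i` (`i < k`), `1` (`i ≥ k`);
the scaled vectors `θ i • z i` are still `Reg`. -/
theorem suppress (h : ESA e) (T : ℕ → ℕ) (hT : StrictMono T) (z : ℕ → X)
    (hz : ∀ i, Reg h (T i) (T (i + 1)) (z i)) (M : ℕ) (θ : ℕ → ℝ)
    (hθ : ∀ i, 0 ≤ θ i ∧ θ i ≤ 1) :
    ‖∑ i ∈ Finset.range M, θ i • z i‖ ≤ ‖∑ i ∈ Finset.range M, z i‖ := by
  have hk : ∀ k, ‖∑ i ∈ Finset.range M, (if i < k then θ i else 1) • z i‖ ≤
      ‖∑ i ∈ Finset.range M, z i‖ := by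
    intro k
    induction k with
    | zero =>
      refine le_of_eq ?_
      congr 1
      refine Finset.sum_congr rfl (fun i _ => ?_)
      rw [if_neg (Nat.not_lt_zero i), one_smul]
    | succ k ih =>
      refine le_trans ?_ ih
      have h1 := G1_one h T hT (fun i => (if i < k then θ i else 1) • z i)
        (fun i => (hz i).smul _) M k (θ k) (hθ k)
      refine le_trans (le_of_eq ?_) h1
      congr 1
      refine Finset.sum_congr rfl (fun i _ => ?_)
      by_cases hik : i = k
      · subst hik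
        rw [if_pos (Nat.lt_succ_self i), if_pos rfl, if_neg (lt_irrefl i), one_smul]
      · rw [if_neg hik]
        by_cases hlt : i < k
        · rw [if_pos hlt, if_pos (by omega)]
        · rw [if_neg hlt, if_neg (by omega)]
  refine le_trans (le_of_eq ?_) (hk M)
  congr 1
  refine Finset.sum_congr rfl (fun i hi => ?_)
  rw [if_pos (Finset.mem_range.1 hi)]

/-- `θ = max θ 0 - max (-θ) 0` and `suppress`. -/
theorem multiplier (h : ESA e) (T : ℕ → ℕ) (hT : StrictMono T) (z : ℕ → X)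
    (hz : ∀ i, Reg h (T i) (T (i + 1)) (z i)) (M : ℕ) (θ : ℕ → ℝ)
    (hθ : ∀ i, |θ i| ≤ 1) :
    ‖∑ i ∈ Finset.range M, θ i • z i‖ ≤ 2 * ‖∑ i ∈ Finset.range M, z i‖ := by
  have h1 := suppress h T hT z hz M (fun i => max (θ i) 0) (fun i =>
    ⟨le_max_right _ _, max_le (abs_le.1 (hθ i)).2 zero_le_one⟩)
  have h2 := suppress h T hT z hz M (fun i => max (-θ i) 0) (fun i =>
    ⟨le_max_right _ _, max_le (by have := (abs_le.1 (hθ i)).1; linarith) zero_le_one⟩)
  have h3 : ∑ i ∈ Finset.range M, θ i • z i = ∑ i ∈ Finset.range M, max (θ i) 0 • z i -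
      ∑ i ∈ Finset.range M, max (-θ i) 0 • z i := by
    rw [← Finset.sum_sub_distrib]
    refine Finset.sum_congr rfl (fun i _ => ?_)
    rw [← sub_smul]
    congr 1
    rcases le_total 0 (θ i) with h0 | h0
    · rw [max_eq_left h0, max_eq_right (by linarith), sub_zero]
    · rw [max_eq_right h0, max_eq_left (by linarith)]
      ring
  rw [h3]
  refine (norm_sub_le _ _).trans ?_
  linarith

end Pool.Agent.MP_15d71b_an
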