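import Pool.Agent.Lib.MP_15d71b_an.G1

/-!
# Growth of the alternating sums
-/

set_option autoImplicit false
open Filter Topology Finset

namespace Pool.Agent.MP_15d71b_an

variable {X : Type} [NormedAddCommGroup X] [NormedSpace ℝ X] [CompleteSpace X] {e : ℕ → X}

/-- `e (2i) - e (2i+1)` is `Reg h (2i) (2i+2)`; `suppress` with `T i = 2 i`. -/
theorem suppress_d (h : ESA e) (M : ℕ) (c θ : ℕ → ℝ) (hθ : ∀ i, 0 ≤ θ i ∧ θ i ≤ 1) :
    ‖∑ i ∈ Finset.range M, (θ i * c i) • (e (2 * i) - e (2 * i + 1))‖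
      ≤ ‖∑ i ∈ Finset.range M, c i • (e (2 * i) - e (2 * i + 1))‖ := by
  have h1 := suppress h (fun i => 2 * i) (fun a b hab => by
    change 2 * a < 2 * b
    omega) (fun i => c i • (e (2 * i) - e (2 * i + 1))) (fun i => Reg.smul (c i) (by
      refine ⟨?_, ?_, ?_⟩
      · rw [map_sub, PN_e, PN_e, if_pos (by omega), if_pos (by omega)]
      · rw [map_sub, PN_e, PN_e, if_neg (by omega), if_neg (by omega), sub_self]
      · rw [map_sub, SF_e, SF_e, sub_self])) M θ hθ
  simpa only [smul_smul] using h1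

/-- Let `ε > 0`. By `NoL1` (with `δ = ε / 8`, say) there are `m, c` with
`‖∑_{j<m} c_j d_j‖ < δ ∑ |c_j|`, where `d_j = e (2j) - e (2j+1)`; splitting into the positive and the
negative `c_j` (`suppress_d`) gives `‖∑ |c_j| d_j‖ ≤ 2 δ ∑ |c_j|`, so with `a_j = |c_j| / ∑ |c|`:
`a_j ≥ 0`, `∑_{j<m} a_j = 1`, `‖∑_{j<m} a_j d_j‖ ≤ 2 δ`. By spreading (`norm_Mop_eq` for
`k ↦ k + 2t`) `‖∑_j a_j d_{j+t}‖ ≤ 2 δ`, hence `‖∑_{t<M} ∑_{j<m} a_j d_{j+t}‖ ≤ 2 δ M`; the coefficient
of `d_k` in this sum is between `0` and `1`, and `= 1` for `m ≤ k < M`. By `suppress_d`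
`‖∑_{m≤k<M} d_k‖ ≤ 2 δ M`, so `‖D e M‖ ≤ 2 δ M + 2 m ‖e 0‖ ≤ ε M` for large `M`. -/
theorem D_small (h : ESA e) (hl1 : NoL1 e) (ε : ℝ) (hε : 0 < ε) :
    ∃ M0 : ℕ, ∀ M : ℕ, M0 ≤ M → ‖D e M‖ ≤ ε * M := by
  set d : ℕ → X := fun j => e (2 * j) - e (2 * j + 1) with hd
  set δ : ℝ := ε / 8 with hδ
  have hδ0 : 0 < δ := by positivity
  have hno : ¬ ∀ (m : ℕ) (c : ℕ → ℝ), δ * ∑ j ∈ Finset.range m, |c j|
      ≤ ‖∑ j ∈ Finset.range m, c j • (e (2 * j) - e (2 * j + 1))‖ := fun hh => hl1 ⟨δ, hδ0, hh⟩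
  push Not at hno
  obtain ⟨m, c, hc⟩ := hno
  set S : ℝ := ∑ j ∈ Finset.range m, |c j| with hS
  have hS0 : 0 < S := by
    by_contra hneg
    have h1 : δ * S ≤ 0 := mul_nonpos_of_nonneg_of_nonpos hδ0.le (not_lt.mp hneg)
    have h2 := norm_nonneg (∑ j ∈ Finset.range m, c j • (e (2 * j) - e (2 * j + 1)))
    linarith
  have hpos := suppress_d h m c (fun j => if 0 ≤ c j then 1 else 0) (fun j => by
    split_ifs <;> norm_num)
  have hneg := suppress_d h m c (fun j => if 0 ≤ c j then 0 else 1) (fun j => by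
    split_ifs <;> norm_num)
  have habs : ∑ j ∈ Finset.range m, |c j| • d j =
      ∑ j ∈ Finset.range m, ((if 0 ≤ c j then (1 : ℝ) else 0) * c j) • (e (2 * j) - e (2 * j + 1)) -
      ∑ j ∈ Finset.range m, ((if 0 ≤ c j then (0 : ℝ) else 1) * c j) • (e (2 * j) - e (2 * j + 1)) := by
    rw [← Finset.sum_sub_distrib]
    refine Finset.sum_congr rfl fun j _ => ?_
    rw [← sub_smul]
    congr 1
    by_cases hj : 0 ≤ c j
    · rw [if_pos hj, if_pos hj, abs_of_nonneg hj]; ring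
    · rw [if_neg hj, if_neg hj, abs_of_neg (not_le.mp hj)]; ring
  have habs2 : ‖∑ j ∈ Finset.range m, |c j| • d j‖ ≤ 2 * (δ * S) := by
    rw [habs]
    refine (norm_sub_le _ _).trans ?_
    linarith
  set a : ℕ → ℝ := fun j => |c j| / S with ha
  have ha0 : ∀ j, 0 ≤ a j := fun j => div_nonneg (abs_nonneg _) hS0.le
  have ha1 : ∑ j ∈ Finset.range m, a j = 1 := by
    rw [ha, ← Finset.sum_div, ← hS, div_self hS0.ne']
  have hasum : ‖∑ j ∈ Finset.range m, a j • d j‖ ≤ 2 * δ := by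
    have h1 : ∑ j ∈ Finset.range m, a j • d j = S⁻¹ • ∑ j ∈ Finset.range m, |c j| • d j := by
      rw [Finset.smul_sum]
      refine Finset.sum_congr rfl fun j _ => ?_
      rw [smul_smul]
      congr 1
      rw [ha]
      field_simp
    rw [h1, norm_smul, norm_inv, Real.norm_of_nonneg hS0.le]
    calc S⁻¹ * ‖∑ j ∈ Finset.range m, |c j| • d j‖ ≤ S⁻¹ * (2 * (δ * S)) :=
          mul_le_mul_of_nonneg_left habs2 (inv_nonneg.mpr hS0.le)
      _ = 2 * δ := by field_simp
  have hshift : ∀ t : ℕ, ‖∑ j ∈ Finset.range m, a j • d (j + t)‖ ≤ 2 * δ := by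
    intro t
    have hmono : StrictMono fun k : ℕ => k + 2 * t := fun x y hxy => by
      change x + 2 * t < y + 2 * t
      omega
    have h1 : ∑ j ∈ Finset.range m, a j • d (j + t) =
        Mop h (fun k : ℕ => k + 2 * t) hmono.monotone (∑ j ∈ Finset.range m, a j • d j) := by
      rw [map_sum]
      refine Finset.sum_congr rfl fun j _ => ?_
      rw [map_smul, hd]
      change a j • (e (2 * (j + t)) - e (2 * (j + t) + 1)) =
        a j • Mop h (fun k : ℕ => k + 2 * t) hmono.monotone (e (2 * j) - e (2 * j + 1))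
      rw [map_sub, Mop_e, Mop_e]
      congr 3 <;> omega
    rw [h1, norm_Mop_eq h _ hmono]
    exact hasum
  obtain ⟨M1, hM1⟩ := exists_nat_ge (2 * ‖D e m‖ / ε)
  refine ⟨max m M1, fun M hM => ?_⟩
  have hmM : m ≤ M := (le_max_left _ _).trans hM
  have hM1M : M1 ≤ M := (le_max_right _ _).trans hM
  set b : ℕ → ℝ := fun k => ∑ j ∈ Finset.range m, if j ≤ k ∧ k < j + M then a j else 0 with hb
  have hbsum : ∑ k ∈ Finset.range (m + M), b k • d k =
      ∑ t ∈ Finset.range M, ∑ j ∈ Finset.range m, a j • d (j + t) := by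
    have h1 : ∀ k, b k • d k = ∑ j ∈ Finset.range m,
        (if j ≤ k ∧ k < j + M then a j • d k else 0) := by
      intro k
      rw [hb]
      change (∑ j ∈ Finset.range m, if j ≤ k ∧ k < j + M then a j else 0) • d k = _
      rw [Finset.sum_smul]
      refine Finset.sum_congr rfl fun j _ => ?_
      split_ifs
      · rfl
      · rw [zero_smul]
    rw [Finset.sum_congr rfl fun k _ => h1 k, Finset.sum_comm, Finset.sum_comm (s := Finset.range M)]
    refine Finset.sum_congr rfl fun j hj => ?_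
    rw [Finset.mem_range] at hj
    have h2 : ∑ k ∈ Finset.range (m + M), (if j ≤ k ∧ k < j + M then a j • d k else 0) =
        ∑ k ∈ Finset.Ico j (j + M), a j • d k := by
      rw [← Finset.sum_filter]
      refine Finset.sum_congr ?_ fun _ _ => rfl
      ext k
      rw [Finset.mem_filter, Finset.mem_range, Finset.mem_Ico]
      omega
    rw [h2, Finset.sum_Ico_eq_sum_range]
    have h3 : j + M - j = M := by omega
    rw [h3]
  have hbnorm : ‖∑ k ∈ Finset.range (m + M), b k • d k‖ ≤ 2 * δ * M := by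
    rw [hbsum]
    calc ‖∑ t ∈ Finset.range M, ∑ j ∈ Finset.range m, a j • d (j + t)‖
        ≤ ∑ t ∈ Finset.range M, ‖∑ j ∈ Finset.range m, a j • d (j + t)‖ := norm_sum_le _ _
      _ ≤ ∑ t ∈ Finset.range M, 2 * δ := Finset.sum_le_sum fun t _ => hshift t
      _ = 2 * δ * M := by rw [Finset.sum_const, Finset.card_range, nsmul_eq_mul]; ring
  have hsup := suppress_d h (m + M) b (fun k => if m ≤ k ∧ k < M then 1 else 0) (fun k => by
    split_ifs <;> norm_num)
  have hmid : ∑ k ∈ Finset.range (m + M),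
      ((if m ≤ k ∧ k < M then (1 : ℝ) else 0) * b k) • (e (2 * k) - e (2 * k + 1)) =
      D e M - D e m := by
    have h1 : ∀ k ∈ Finset.range (m + M),
        ((if m ≤ k ∧ k < M then (1 : ℝ) else 0) * b k) • (e (2 * k) - e (2 * k + 1)) =
        if m ≤ k ∧ k < M then d k else 0 := by
      intro k _
      by_cases hk : m ≤ k ∧ k < M
      · rw [if_pos hk, if_pos hk]
        have hbk : b k = 1 := by
          rw [hb, ← ha1]
          refine Finset.sum_congr rfl fun j hj => ?_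
          rw [Finset.mem_range] at hj
          rw [if_pos ⟨by omega, by omega⟩]
        rw [hbk, one_mul, one_smul]
      · rw [if_neg hk, if_neg hk, zero_mul, zero_smul]
    rw [Finset.sum_congr rfl h1, ← Finset.sum_filter]
    have h2 : (Finset.range (m + M)).filter (fun k => m ≤ k ∧ k < M) = Finset.Ico m M := by
      ext k
      rw [Finset.mem_filter, Finset.mem_range, Finset.mem_Ico]
      omega
    rw [h2, Finset.sum_Ico_eq_sub _ hmM]
    rfl
  rw [hmid] at hsup
  have hfin : ‖D e M - D e m‖ ≤ 2 * δ * M := hsup.trans hbnorm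
  have h5 : ‖D e M‖ ≤ ‖D e M - D e m‖ + ‖D e m‖ := by
    have := norm_add_le (D e M - D e m) (D e m)
    rwa [sub_add_cancel] at this
  have h6 : 2 * ‖D e m‖ / ε ≤ (M : ℝ) := hM1.trans (by exact_mod_cast hM1M)
  rw [div_le_iff₀ hε] at h6
  have h7 : (0 : ℝ) ≤ M := Nat.cast_nonneg M
  have h8 : 2 * δ * M = ε / 4 * M := by rw [hδ]; ring
  nlinarith [mul_nonneg hε.le h7]

end Pool.Agent.MP_15d71b_an
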