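import Pool.Agent.Lib.MP_15d71b_an.E9
import Pool.Agent.Lib.MP_15d71b_an.E5

/-!
# Small steps
-/

set_option autoImplicit false
open Filter Topology Finset

namespace Pool.Agent.MP_15d71b_an

variable {X : Type} [NormedAddCommGroup X] [NormedSpace ℝ X] [CompleteSpace X] {e : ℕ → X}

private theorem G2b_div {N : ℕ} (q : ℕ) {x : ℕ} (hx : x < N) : (q * N + x) / N = q := by
  rw [mul_comm q N, Nat.mul_add_div (by lia), Nat.div_eq_of_lt hx, add_zero]

private theorem G2b_run {N : ℕ} (q : ℕ) {r : ℕ} (hr : r ≤ N) :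
    ∑ x ∈ Finset.range r, ((-1 : ℝ) ^ ((q * N + x) / N) / N) = (-1 : ℝ) ^ q * (r / N) := by
  have h1 : ∀ x ∈ Finset.range r, ((-1 : ℝ) ^ ((q * N + x) / N) / N) = (-1 : ℝ) ^ q / N := by
    intro x hx
    rw [G2b_div q (lt_of_lt_of_le (Finset.mem_range.1 hx) hr)]
  rw [Finset.sum_congr rfl h1, Finset.sum_const, Finset.card_range, nsmul_eq_mul]
  ring

private theorem G2b_S {N : ℕ} (hN : 0 < N) (q : ℕ) :
    ∑ j ∈ Finset.range (q * N), ((-1 : ℝ) ^ (j / N) / N) = (1 - (-1 : ℝ) ^ q) / 2 := by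
  have hN' : (N : ℝ) ≠ 0 := by exact_mod_cast hN.ne'
  induction q with
  | zero => simp
  | succ q ih =>
    rw [Nat.succ_mul, Finset.sum_range_add, ih, G2b_run q le_rfl, div_self hN', pow_succ]
    ring

private theorem G2b_abs {N : ℕ} (hN : 0 < N) (q r : ℕ) (hr : r ≤ N) :
    |∑ j ∈ Finset.range (q * N + r), ((-1 : ℝ) ^ (j / N) / N)| ≤ 1 := by
  have hN' : (0 : ℝ) < (N : ℝ) := by exact_mod_cast hN
  have hr1 : (r : ℝ) / N ≤ 1 := (div_le_one hN').2 (by exact_mod_cast hr)
  have hr0 : 0 ≤ (r : ℝ) / N := by positivity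
  rw [Finset.sum_range_add, G2b_S hN, G2b_run q hr]
  rcases neg_one_pow_eq_or ℝ q with h | h
  · rw [h, abs_le]
    constructor <;> linarith
  · rw [h, abs_le]
    constructor <;> linarith

omit [CompleteSpace X] in
private theorem G2b_fold {N : ℕ} (hN : 0 < N) (M : ℕ) :
    ∑ j ∈ Finset.range (M * N), ((-1 : ℝ) ^ (j / N) / N) • e (j / N) =
      ∑ i ∈ Finset.range M, ((-1 : ℝ) ^ i) • e i := by
  have hN' : (N : ℝ) ≠ 0 := by exact_mod_cast hN.ne'
  induction M with
  | zero => simp
  | succ M ih =>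
    rw [Nat.succ_mul, Finset.sum_range_add, ih, Finset.sum_range_succ]
    congr 1
    have h1 : ∀ x ∈ Finset.range N, ((-1 : ℝ) ^ ((M * N + x) / N) / N) • e ((M * N + x) / N) =
        ((-1 : ℝ) ^ M / N) • e M := by
      intro x hx
      rw [G2b_div M (Finset.mem_range.1 hx)]
    rw [Finset.sum_congr rfl h1, Finset.sum_const, Finset.card_range, ← Nat.cast_smul_eq_nsmul ℝ,
      smul_smul, mul_div_cancel₀ _ hN']

omit [CompleteSpace X] in
private theorem G2b_D (m : ℕ) : ∑ i ∈ Finset.range (2 * m), ((-1 : ℝ) ^ i) • e i = D e m := by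
  unfold D
  induction m with
  | zero => simp
  | succ m ih =>
    rw [Nat.mul_succ, Finset.sum_range_succ, Finset.sum_range_succ, ih, Finset.sum_range_succ,
      pow_succ, pow_mul]
    simp only [even_two, Even.neg_pow, one_pow, one_smul, one_mul, neg_smul]
    abel

/-- Each step `±1` is split into `N` equal steps of the same sign: `lc_mapDomain_eq` for
`r k = k / N` and the finitely supported `a k = (-1)^(k/N) / N` (`k < 2 m N`), for which
`a.mapDomain r = ∑_{i<2m} (-1)^i` at `i`, i.e. `lc e (a.mapDomain r) = D e m`; and `norm_Mop_eq` for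
`n`. -/
theorem small_steps (h : ESA e) (n : ℕ → ℕ) (hn : StrictMono n) (m N : ℕ) (hN : 0 < N) :
    ‖∑ j ∈ Finset.range (2 * m * N), ((-1 : ℝ) ^ (j / N) / N) • e (n j)‖ = ‖D e m‖ := by
  set c : ℕ → ℝ := fun j => (-1 : ℝ) ^ (j / N) / N with hc
  set a : ℕ →₀ ℝ := ∑ j ∈ Finset.range (2 * m * N), Finsupp.single j (c j) with ha
  have hai : ∀ i, a i = if i < 2 * m * N then c i else 0 := by
    intro i
    rw [ha, Finsupp.finsetSum_apply]
    simp only [Finsupp.single_apply, Finset.sum_ite_eq', Finset.mem_range]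
  have hr : Monotone fun k : ℕ => k / N := fun x y hxy => Nat.div_le_div_right hxy
  have hsgn : ∀ i j, i / N = j / N → 0 ≤ a i * a j := by
    intro i j hij
    rw [hai, hai]
    split_ifs
    · simp only [hc]
      rw [hij]
      exact mul_self_nonneg _
    · rw [mul_zero]
    · rw [zero_mul]
    · rw [zero_mul]
  have h1 := lc_mapDomain_eq h (fun k => k / N) hr a hsgn
  have h2 : lc e (a.mapDomain fun k => k / N) = D e m := by
    rw [Finsupp.linearCombination_mapDomain, ha, map_sum]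
    simp only [Finsupp.linearCombination_single, Function.comp_apply, hc]
    rw [G2b_fold hN, G2b_D]
  have h3 : Mop h n hn.monotone (lc e a) =
      ∑ j ∈ Finset.range (2 * m * N), ((-1 : ℝ) ^ (j / N) / N) • e (n j) := by
    rw [ha, map_sum, map_sum]
    refine Finset.sum_congr rfl fun j _ => ?_
    rw [Finsupp.linearCombination_single, map_smul, Mop_e]
  rw [← h3, norm_Mop_eq h n hn, ← h1, h2]

/-- tails of the small steps are bounded by one: on each of the `2m` runs of length `N` the sum is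
`±1`, alternating, so the sum from `j0` on is `(partial run) + (0 or ∓1)`. (E.g. backward induction:
for `j0 = q N + r`, `0 ≤ r < N`, the sum over `Ico j0 (2mN)` equals
`-(r / N)` if `q` is odd... precisely `(-1)^q (N - r)/N + (if q even then -1 else 0)` for
`q < 2m`.) -/
theorem tails (m N : ℕ) (hN : 0 < N) (j0 : ℕ) :
    |∑ j ∈ Finset.Ico j0 (2 * m * N), ((-1 : ℝ) ^ (j / N) / N)| ≤ 1 := by
  rcases le_total j0 (2 * m * N) with h1 | h1
  · rw [Finset.sum_Ico_eq_sub _ h1, G2b_S hN, pow_mul]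
    have h2 := G2b_abs hN (j0 / N) (j0 % N) (Nat.mod_lt _ hN).le
    have h3 : j0 / N * N + j0 % N = j0 := by
      rw [mul_comm]
      exact Nat.div_add_mod j0 N
    rw [h3] at h2
    simp only [even_two, Even.neg_pow, one_pow, sub_self, zero_div, zero_sub, abs_neg]
    exact h2
  · rw [Finset.Ico_eq_empty (by lia), Finset.sum_empty, abs_zero]
    exact zero_le_one

end Pool.Agent.MP_15d71b_an
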