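import Pool.Agent.Lib.MP_15d71b_an.G1
import Pool.Agent.Lib.MP_15d71b_an.E11

/-!
# Decomposition of the images of the basis vectors
-/

set_option autoImplicit false
open Filter Topology Finset

namespace Pool.Agent.MP_15d71b_an

variable {X : Type} [NormedAddCommGroup X] [NormedSpace ℝ X] [CompleteSpace X] {e : ℕ → X}

/-- `A (e (n j))` is close to `γ 0 + ... + γ (j-1) + v j`, where `γ i`, `v i` are zero-sum vectors on
`[T i, T (i+1))`. -/
structure Dec (h : ESA e) (A : X →L[ℝ] X) (T n : ℕ → ℕ) (v γ : ℕ → X) : Prop where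
  hT : StrictMono T
  hn : StrictMono n
  hv : ∀ i, Reg h (T i) (T (i + 1)) (v i)
  hγ : ∀ i, Reg h (T i) (T (i + 1)) (γ i)
  close : ∀ j, ‖A (e (n j)) - (∑ i ∈ Finset.range j, γ i + v j)‖ ≤ (1 / 2) ^ j

/-- the sum of the coefficients before a block boundary vanishes on the zero-sum block space -/
private theorem G3a_BF (h : ESA e) {τ : ℕ → ℕ} (hτ : StrictMono τ) (m : ℕ) {y : X}
    (hy : y ∈ zeroSumSpace e τ) : BF h (τ m) y = 0 := by
  have hle : zeroSumSpace e τ ≤ LinearMap.ker (BF h (τ m)).toLinearMap := by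
    apply zeroSumSpace_le
    · exact (BF h (τ m)).isClosed_ker
    · intro j i i' hi hi'
      rw [LinearMap.mem_ker]
      rw [Finset.mem_Ico] at hi hi'
      change BF h (τ m) (e i - e i') = 0
      rw [map_sub, BF_e, BF_e]
      rcases lt_or_ge j m with hj | hj
      · have h1 : τ (j + 1) ≤ τ m := hτ.monotone hj
        rw [if_pos (by omega), if_pos (by omega), sub_self]
      · have h1 : τ m ≤ τ j := hτ.monotone hj
        rw [if_neg (by omega), if_neg (by omega), sub_self]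
  exact hle hy

/-- By `conv` the limits `g k = lim_n BF h k (A (e n))` exist; `g (τ i) = 0`, since
`BF h (τ i) y = 0` for `y ∈ zeroSumSpace e τ` (`mem_zeroSumSpace`, `co_Rop`, `BF_eq_sum`). For fixed `K`,
`PN h K (A (e n)) → w K := ∑_{i<K} (g (i+1) - g i) • e i` as `n → ∞` (`PN_apply`, `co`). Choose
recursively indices `q j` (`q 0 = 0`), `T j = τ (q j)`, and `n j`: given `T j` (and `n (j-1)`)
choose `n j` with `‖PN h (T j) (A (e (n j))) - w (T j)‖ ≤ (1/2)^(j+1)`, then `q (j+1) > q j` with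
`‖A (e (n j)) - PN h (T (j+1)) (A (e (n j)))‖ ≤ (1/2)^(j+1)` (`tendsto_PN`). Put
`v j := PN (T (j+1)) (A (e (n j))) - PN (T j) (A (e (n j)))` (zero sum: `SF_PN` and
`BF h (T _) = 0` on `zeroSumSpace`), `γ i := w (T (i+1)) - w (T i)` (sum `g (T (i+1)) - g (T i) = 0`);
`w (T j) = ∑_{i<j} γ i` as `T 0 = 0`. -/
theorem exists_dec (h : ESA e) (hl1 : NoL1 e) {τ : ℕ → ℕ} (hτ : StrictMono τ) (h0 : τ 0 = 0)
    (A : X →L[ℝ] X) (hA : ∀ x, A x ∈ zeroSumSpace e τ) :
    ∃ (T n : ℕ → ℕ) (v γ : ℕ → X), Dec h A T n v γ := by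
  have hg : ∀ k, ∃ L, Tendsto (fun n => BF h k (A (e n))) atTop (𝓝 L) := fun k =>
    conv h hl1 ((BF h k).comp A)
  choose g hg using hg
  have hg0 : ∀ i, g (τ i) = 0 := by
    intro i
    refine tendsto_nhds_unique (hg (τ i)) ?_
    have h1 : (fun n => BF h (τ i) (A (e n))) = fun _ => (0 : ℝ) := by
      funext n
      exact G3a_BF h hτ i (hA _)
    rw [h1]
    exact tendsto_const_nhds
  set w : ℕ → X := fun K => ∑ i ∈ Finset.range K, (g (i + 1) - g i) • e i with hw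
  have hwlim : ∀ K, Tendsto (fun n => PN h K (A (e n))) atTop (𝓝 (w K)) := by
    intro K
    have h1 : (fun n => PN h K (A (e n))) = fun n => ∑ i ∈ Finset.range K,
        (BF h (i + 1) (A (e n)) - BF h i (A (e n))) • e i := by
      funext n
      rw [PN_apply]
      rfl
    rw [h1]
    exact tendsto_finsetSum _ fun i _ => ((hg (i + 1)).sub (hg i)).smul_const _
  have hwPN : ∀ N K, PN h N (w K) = w (min N K) := by
    intro N K
    refine tendsto_nhds_unique (((PN h N).continuous.tendsto _).comp (hwlim K)) ?_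
    have h1 : (fun n => PN h N (PN h K (A (e n)))) = fun n => PN h (min N K) (A (e n)) := by
      funext n
      exact PN_PN h N K _
    change Tendsto (fun n => PN h N (PN h K (A (e n)))) atTop (𝓝 (w (min N K)))
    rw [h1]
    exact hwlim (min N K)
  have hwSF : ∀ K, SF h (w K) = g K := by
    intro K
    refine tendsto_nhds_unique (((SF h).continuous.tendsto _).comp (hwlim K)) ?_
    have h1 : (fun n => SF h (PN h K (A (e n)))) = fun n => BF h K (A (e n)) := by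
      funext n
      exact SF_PN h K _
    change Tendsto (fun n => SF h (PN h K (A (e n)))) atTop (𝓝 (g K))
    rw [h1]
    exact hg K
  have hex1 : ∀ (K : ℕ) (ε : ℝ), 0 < ε → ∀ N, ∃ n, N < n ∧ ‖PN h K (A (e n)) - w K‖ ≤ ε := by
    intro K ε hε N
    have h1 := (hwlim K).sub_const (w K)
    rw [sub_self] at h1
    have h2 := h1.norm
    rw [norm_zero] at h2
    obtain ⟨n, hn1, hn2⟩ := ((h2.eventually (gt_mem_nhds hε)).and (eventually_gt_atTop N)).exists
    exact ⟨n, hn2, hn1.le⟩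
  have hex2 : ∀ (x : X) (ε : ℝ), 0 < ε → ∀ q, ∃ q', q < q' ∧ ‖x - PN h (τ q') x‖ ≤ ε := by
    intro x ε hε q
    have h1 := ((tendsto_PN h x).comp hτ.tendsto_atTop).const_sub x
    rw [sub_self] at h1
    have h2 := h1.norm
    rw [norm_zero] at h2
    obtain ⟨n, hn1, hn2⟩ := ((h2.eventually (gt_mem_nhds hε)).and (eventually_gt_atTop q)).exists
    exact ⟨n, hn2, hn1.le⟩
  have hstep : ∀ (j : ℕ) (p : ℕ × ℕ), ∃ p' : ℕ × ℕ, p.1 < p'.1 ∧ p.2 < p'.2 ∧
      ‖A (e p.2) - PN h (τ p'.1) (A (e p.2))‖ ≤ (1 / 2 : ℝ) ^ (j + 1) ∧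
      ‖PN h (τ p'.1) (A (e p'.2)) - w (τ p'.1)‖ ≤ (1 / 2 : ℝ) ^ (j + 2) := by
    intro j p
    obtain ⟨q', hq, hq'⟩ := hex2 (A (e p.2)) ((1 / 2 : ℝ) ^ (j + 1)) (by positivity) p.1
    obtain ⟨n', hn, hn'⟩ := hex1 (τ q') ((1 / 2 : ℝ) ^ (j + 2)) (by positivity) p.2
    exact ⟨(q', n'), hq, hn, hq', hn'⟩
  choose F hF1 hF2 hF3 hF4 using hstep
  set s : ℕ → ℕ × ℕ := fun j => Nat.rec (0, 0) (fun j p => F j p) j with hs
  have hs0 : s 0 = (0, 0) := rfl
  have hs1 : ∀ j, s (j + 1) = F j (s j) := fun j => rfl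
  have hw0 : w 0 = 0 := by simp [hw]
  have hclose2 : ∀ j, ‖PN h (τ (s j).1) (A (e (s j).2)) - w (τ (s j).1)‖ ≤ (1 / 2 : ℝ) ^ (j + 1) := by
    intro j
    cases j with
    | zero =>
      rw [hs0]
      change ‖PN h (τ 0) (A (e 0)) - w (τ 0)‖ ≤ _
      rw [h0, hw0, PN_apply]
      simp
    | succ j =>
      rw [hs1]
      exact hF4 j (s j)
  have hT : StrictMono fun j => τ (s j).1 :=
    hτ.comp (strictMono_nat_of_lt_succ fun j => by rw [hs1]; exact hF1 j (s j))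
  refine ⟨fun j => τ (s j).1, fun j => (s j).2,
    fun j => PN h (τ (s (j + 1)).1) (A (e (s j).2)) - PN h (τ (s j).1) (A (e (s j).2)),
    fun i => w (τ (s (i + 1)).1) - w (τ (s i).1), ?_⟩
  have hmin1 : ∀ i, min (τ (s (i + 1)).1) (τ (s i).1) = τ (s i).1 := fun i =>
    min_eq_right (hT (Nat.lt_succ_self i)).le
  have hmin2 : ∀ i, min (τ (s i).1) (τ (s (i + 1)).1) = τ (s i).1 := fun i =>
    min_eq_left (hT (Nat.lt_succ_self i)).le
  refine ⟨hT, ?_, ?_, ?_, ?_⟩
  · exact strictMono_nat_of_lt_succ fun j => by rw [hs1]; exact hF2 j (s j)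
  · intro i
    refine ⟨?_, ?_, ?_⟩
    · rw [map_sub, PN_PN, PN_PN, min_self, hmin1]
    · rw [map_sub, PN_PN, PN_PN, min_self, hmin2, sub_self]
    · rw [map_sub, SF_PN, SF_PN, G3a_BF h hτ _ (hA _), G3a_BF h hτ _ (hA _), sub_self]
  · intro i
    refine ⟨?_, ?_, ?_⟩
    · rw [map_sub, hwPN, hwPN, min_self, hmin1]
    · rw [map_sub, hwPN, hwPN, min_self, hmin2, sub_self]
    · rw [map_sub, hwSF, hwSF, hg0, hg0, sub_self]
  · intro j
    have h1 : ∑ i ∈ Finset.range j, (w (τ (s (i + 1)).1) - w (τ (s i).1)) = w (τ (s j).1) := by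
      rw [Finset.sum_range_sub (fun i => w (τ (s i).1)), hs0]
      change w (τ (s j).1) - w (τ 0) = _
      rw [h0, hw0, sub_zero]
    have h2 : A (e (s j).2) - (∑ i ∈ Finset.range j, (w (τ (s (i + 1)).1) - w (τ (s i).1)) +
        (PN h (τ (s (j + 1)).1) (A (e (s j).2)) - PN h (τ (s j).1) (A (e (s j).2))))
        = (A (e (s j).2) - PN h (τ (s (j + 1)).1) (A (e (s j).2))) +
          (PN h (τ (s j).1) (A (e (s j).2)) - w (τ (s j).1)) := by
      rw [h1]
      abel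
    change ‖A (e (s j).2) - (∑ i ∈ Finset.range j, (w (τ (s (i + 1)).1) - w (τ (s i).1)) +
        (PN h (τ (s (j + 1)).1) (A (e (s j).2)) - PN h (τ (s j).1) (A (e (s j).2))))‖ ≤ _
    rw [h2]
    refine (norm_add_le _ _).trans ?_
    have h3 : ‖A (e (s j).2) - PN h (τ (s (j + 1)).1) (A (e (s j).2))‖ ≤ (1 / 2 : ℝ) ^ (j + 1) := by
      rw [hs1]
      exact hF3 j (s j)
    have h4 : ((1 / 2 : ℝ)) ^ j = (1 / 2) ^ (j + 1) + (1 / 2) ^ (j + 1) := by
      rw [pow_succ]; ring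
    rw [h4]
    exact add_le_add h3 (hclose2 j)

end Pool.Agent.MP_15d71b_an
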