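import Pool.Agent.Lib.MP_15d71b_an.G3a

/-!
# Sums
-/

set_option autoImplicit false
open Filter Topology Finset

namespace Pool.Agent.MP_15d71b_an

variable {X : Type} [NormedAddCommGroup X] [NormedSpace ℝ X] [CompleteSpace X] {e : ℕ → X}

omit [CompleteSpace X] in
private theorem G3b_swap (c : ℕ → ℝ) (γ : ℕ → X) (M : ℕ) :
    ∑ j ∈ Finset.range M, c j • ∑ i ∈ Finset.range j, γ i =
      ∑ i ∈ Finset.range M, (∑ j ∈ Finset.Ico (i + 1) M, c j) • γ i := by
  induction M with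
  | zero => simp
  | succ M ih =>
    rw [Finset.sum_range_succ, ih, Finset.sum_range_succ (n := M)]
    have h1 : ∀ i ∈ Finset.range M, (∑ j ∈ Finset.Ico (i + 1) (M + 1), c j) • γ i =
        (∑ j ∈ Finset.Ico (i + 1) M, c j) • γ i + c M • γ i := by
      intro i hi
      have hi' : i + 1 ≤ M := Finset.mem_range.mp hi
      rw [Finset.sum_Ico_succ_top hi', add_smul]
    rw [Finset.sum_congr rfl h1, Finset.sum_add_distrib, ← Finset.smul_sum]
    simp

/-- Sum `Dec.close` (`∑ (1/2)^j ≤ 2`) and interchange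
`∑_j c_j ∑_{i<j} γ_i = ∑_i (∑_{i<j<M} c_j) γ_i` (induction on `M` or `Finset.sum_sigma'`). -/
theorem Dec.sum {h : ESA e} {A : X →L[ℝ] X} {T n : ℕ → ℕ} {v γ : ℕ → X} (d : Dec h A T n v γ)
    (M : ℕ) (c : ℕ → ℝ) (hc : ∀ j, |c j| ≤ 1) :
    ‖A (∑ j ∈ Finset.range M, c j • e (n j))
      - ∑ i ∈ Finset.range M, (c i • v i + (∑ j ∈ Finset.Ico (i + 1) M, c j) • γ i)‖ ≤ 2 := by
  have e1 : A (∑ j ∈ Finset.range M, c j • e (n j))
      - ∑ i ∈ Finset.range M, (c i • v i + (∑ j ∈ Finset.Ico (i + 1) M, c j) • γ i) =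
      ∑ j ∈ Finset.range M, c j • (A (e (n j)) - (∑ i ∈ Finset.range j, γ i + v j)) := by
    rw [Finset.sum_add_distrib, ← G3b_swap c γ M, map_sum, ← Finset.sum_add_distrib,
      ← Finset.sum_sub_distrib]
    refine Finset.sum_congr rfl fun j _ => ?_
    rw [map_smul, smul_sub, smul_add]
    abel
  rw [e1]
  refine (norm_sum_le _ _).trans (le_trans (Finset.sum_le_sum fun j _ => ?_) (sum_geometric_two_le M))
  rw [norm_smul, Real.norm_eq_abs]
  exact (mul_le_mul (hc j) (d.close j) (norm_nonneg _) zero_le_one).trans (one_mul _).le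

end Pool.Agent.MP_15d71b_an
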