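import Pool.Agent.Lib.MP_15d71b_an.G3b

/-!
# The parts v
-/

set_option autoImplicit false
open Filter Topology Finset

namespace Pool.Agent.MP_15d71b_an

variable {X : Type} [NormedAddCommGroup X] [NormedSpace ℝ X] [CompleteSpace X] {e : ℕ → X}

private theorem G4a_pair {M : Type} [AddCommMonoid M] (f : ℕ → M) (m : ℕ) :
    ∑ i ∈ Finset.range (2 * m), f i = ∑ j ∈ Finset.range m, (f (2 * j) + f (2 * j + 1)) := by
  induction m with
  | zero => rfl
  | succ m ih =>
    have : 2 * (m + 1) = 2 * m + 1 + 1 := by ring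
    rw [this, Finset.sum_range_succ, Finset.sum_range_succ, ih, Finset.sum_range_succ, add_assoc]

private theorem G4a_alt (a : ℕ) : ∑ j ∈ Finset.range (2 * a), (-1 : ℝ) ^ j = 0 := by
  rw [G4a_pair]
  refine Finset.sum_eq_zero (fun j _ => ?_)
  rw [pow_succ, pow_mul]
  norm_num

/-- `Dec.sum` for `c i = (-1)^i`, `M = 2m`: the tail `∑_{i<j<2m} (-1)^j` is `-1` for `i` even and `0` for
`i` odd, so the region vectors are `z i = v i - γ i` (`i` even), `z i = - v i` (`i` odd);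
`‖∑ z i‖ ≤ ‖A‖ ‖∑_{i<2m} (-1)^i e (n i)‖ + 2 = ‖A‖ ‖D e m‖ + 2` (`norm_Mop_eq`). Now drop the
even indices (`suppress` with `θ i = 1` for `i` odd, `0` for `i` even). -/
theorem Dec.odd_v {h : ESA e} {A : X →L[ℝ] X} {T n : ℕ → ℕ} {v γ : ℕ → X} (d : Dec h A T n v γ)
    (m : ℕ) : ‖∑ j ∈ Finset.range m, v (2 * j + 1)‖ ≤ ‖A‖ * ‖D e m‖ + 2 := by
  set z : ℕ → X := fun i => ((-1 : ℝ) ^ i) • v i +
    (∑ j ∈ Finset.Ico (i + 1) (2 * m), (-1 : ℝ) ^ j) • γ i with hz
  have hzR : ∀ i, Reg h (T i) (T (i + 1)) (z i) := fun i =>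
    ((d.hv i).smul _).add ((d.hγ i).smul _)
  have hsum := d.sum (2 * m) (fun i => (-1 : ℝ) ^ i) (by
    intro j
    rw [abs_pow, abs_neg, abs_one, one_pow])
  have hD : ∑ j ∈ Finset.range (2 * m), ((-1 : ℝ) ^ j) • e (n j) =
      Mop h n d.hn.monotone (D e m) := by
    rw [G4a_pair, D, map_sum]
    refine Finset.sum_congr rfl (fun j _ => ?_)
    rw [map_sub, Mop_e, Mop_e, pow_succ, pow_mul]
    norm_num
    abel
  have hA : ‖A (∑ j ∈ Finset.range (2 * m), ((-1 : ℝ) ^ j) • e (n j))‖ ≤ ‖A‖ * ‖D e m‖ := by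
    refine (A.le_opNorm _).trans ?_
    rw [hD, norm_Mop_eq h n d.hn]
  have hz2 : ‖∑ i ∈ Finset.range (2 * m), z i‖ ≤ ‖A‖ * ‖D e m‖ + 2 := by
    have h1 : ∑ i ∈ Finset.range (2 * m), z i =
        A (∑ j ∈ Finset.range (2 * m), ((-1 : ℝ) ^ j) • e (n j)) -
        (A (∑ j ∈ Finset.range (2 * m), ((-1 : ℝ) ^ j) • e (n j)) -
          ∑ i ∈ Finset.range (2 * m), z i) := by abel
    rw [h1]
    exact (norm_sub_le _ _).trans (add_le_add hA hsum)
  have hsup := suppress h T d.hT z hzR (2 * m) (fun i => if i % 2 = 1 then 1 else 0) (by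
    intro i
    split_ifs <;> norm_num)
  have hodd : ∑ i ∈ Finset.range (2 * m), (if i % 2 = 1 then (1 : ℝ) else 0) • z i =
      - ∑ j ∈ Finset.range m, v (2 * j + 1) := by
    rw [G4a_pair, ← Finset.sum_neg_distrib]
    refine Finset.sum_congr rfl (fun j hj => ?_)
    have e1 : ¬ (2 * j) % 2 = 1 := by omega
    have e2 : (2 * j + 1) % 2 = 1 := by omega
    rw [if_neg e1, if_pos e2, zero_smul, one_smul, zero_add]
    simp only [hz]
    have h3 : ∑ j ∈ Finset.Ico (2 * j + 1 + 1) (2 * m), (-1 : ℝ) ^ j = 0 := by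
      have hle : 2 * (j + 1) ≤ 2 * m := by
        have := Finset.mem_range.1 hj
        omega
      have h4 : 2 * j + 1 + 1 = 2 * (j + 1) := by ring
      rw [h4, Finset.sum_Ico_eq_sub _ hle, G4a_alt, G4a_alt, sub_zero]
    rw [h3, zero_smul, add_zero, pow_succ, pow_mul]
    norm_num
  rw [hodd, norm_neg] at hsup
  exact hsup.trans hz2

/-- `Dec.sum` with coefficients `c j` at the odd places `2j+1` and `0` at the even places. -/
theorem Dec.sum_odd {h : ESA e} {A : X →L[ℝ] X} {T n : ℕ → ℕ} {v γ : ℕ → X}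
    (d : Dec h A T n v γ) (M : ℕ) (c : ℕ → ℝ) (hc : ∀ j, |c j| ≤ 1) :
    ‖A (∑ j ∈ Finset.range M, c j • e (n (2 * j + 1)))
      - (∑ j ∈ Finset.range M, c j • v (2 * j + 1)
        + ∑ i ∈ Finset.range (2 * M), (∑ j ∈ Finset.Ico ((i + 1) / 2) M, c j) • γ i)‖ ≤ 2 := by
  set c' : ℕ → ℝ := fun i => if i % 2 = 1 then c (i / 2) else 0 with hc'
  have hce : ∀ j, c' (2 * j) = 0 := by
    intro j
    have e1 : ¬ (2 * j) % 2 = 1 := by omega
    simp only [hc']
    rw [if_neg e1]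
  have hco : ∀ j, c' (2 * j + 1) = c j := by
    intro j
    have e1 : (2 * j + 1) % 2 = 1 := by omega
    have e2 : (2 * j + 1) / 2 = j := by omega
    simp only [hc']
    rw [if_pos e1, e2]
  have hsum := d.sum (2 * M) c' (by
    intro j
    simp only [hc']
    split_ifs
    · exact hc _
    · norm_num)
  have hr : ∀ a, ∑ j ∈ Finset.range (2 * a), c' j = ∑ j ∈ Finset.range a, c j := by
    intro a
    rw [G4a_pair]
    refine Finset.sum_congr rfl (fun j _ => ?_)
    rw [hce, hco, zero_add]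
  have hr' : ∀ b, ∑ j ∈ Finset.range b, c' j = ∑ j ∈ Finset.range (b / 2), c j := by
    intro b
    rcases Nat.even_or_odd' b with ⟨a, rfl | rfl⟩
    · have e1 : 2 * a / 2 = a := by omega
      rw [hr, e1]
    · have e1 : (2 * a + 1) / 2 = a := by omega
      rw [Finset.sum_range_succ, hr, hce, add_zero, e1]
  have hS1 : ∑ j ∈ Finset.range (2 * M), c' j • e (n j) =
      ∑ j ∈ Finset.range M, c j • e (n (2 * j + 1)) := by
    rw [G4a_pair]
    refine Finset.sum_congr rfl (fun j _ => ?_)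
    rw [hce, hco, zero_smul, zero_add]
  have hS2 : ∑ i ∈ Finset.range (2 * M), (c' i • v i +
        (∑ j ∈ Finset.Ico (i + 1) (2 * M), c' j) • γ i) =
      ∑ j ∈ Finset.range M, c j • v (2 * j + 1)
        + ∑ i ∈ Finset.range (2 * M), (∑ j ∈ Finset.Ico ((i + 1) / 2) M, c j) • γ i := by
    rw [Finset.sum_add_distrib]
    have e1 : ∑ i ∈ Finset.range (2 * M), c' i • v i =
        ∑ j ∈ Finset.range M, c j • v (2 * j + 1) := by
      rw [G4a_pair]
      refine Finset.sum_congr rfl (fun j _ => ?_)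
      rw [hce, hco, zero_smul, zero_add]
    rw [e1]
    congr 1
    refine Finset.sum_congr rfl (fun i hi => ?_)
    have hi' : i + 1 ≤ 2 * M := Finset.mem_range.1 hi
    have hi2 : (i + 1) / 2 ≤ M := by omega
    have e2 : 2 * M / 2 = M := by omega
    rw [Finset.sum_Ico_eq_sub _ hi', Finset.sum_Ico_eq_sub _ hi2, hr', hr', e2]
  rw [hS1, hS2] at hsum
  exact hsum

end Pool.Agent.MP_15d71b_an
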