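import Pool.Agent.Lib.MP_15d71b_an.G4a

/-!
# The parts gamma
-/

set_option autoImplicit false
open Filter Topology Finset

namespace Pool.Agent.MP_15d71b_an

variable {X : Type} [NormedAddCommGroup X] [NormedSpace ℝ X] [CompleteSpace X] {e : ℕ → X}

/-- Let `m ≥ 1`; `Dec.sum_odd` for `M = m`, `c = 1/m`: the tails
`t i = (m - (i+1)/2)/m` (`i < 2m`) are in `[0,1]` and `≥ 1/2` for `i < m`. The vector
`∑_{j<m} (1/m) e (n (2j+1))` has norm `≤ ‖e 0‖`, and
`‖∑_{j<m} (1/m) v (2j+1)‖ ≤ (1/m) (‖A‖ ‖D e m‖ + 2) ≤ 2 ‖A‖ ‖e 0‖ + 2` (`Dec.odd_v`,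
`‖D e m‖ ≤ 2 m ‖e 0‖`). So `‖∑_{i<2m} t i • γ i‖ ≤ K1 := 3 ‖A‖ ‖e 0‖ + 4`. For `|θ i| ≤ 1`:
`∑_{i<m} θ i • γ i = 2 ∑_{i<2m} θ' i • (t i • γ i)` with `θ' i = θ i / (2 t i)` for `i < m`, `0` for
`i ≥ m`, `|θ' i| ≤ 1`; by `multiplier` the norm is `≤ 4 K1`. -/
theorem Dec.gamma {h : ESA e} {A : X →L[ℝ] X} {T n : ℕ → ℕ} {v γ : ℕ → X}
    (d : Dec h A T n v γ) :
    ∃ K : ℝ, 0 ≤ K ∧ ∀ (m : ℕ) (θ : ℕ → ℝ), (∀ i, |θ i| ≤ 1) →
      ‖∑ i ∈ Finset.range m, θ i • γ i‖ ≤ K := by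
  have hA0 : 0 ≤ ‖A‖ := norm_nonneg A
  have he0 : 0 ≤ ‖e 0‖ := norm_nonneg _
  refine ⟨4 * (3 * (‖A‖ * ‖e 0‖) + 4), by positivity, ?_⟩
  intro m θ hθ
  rcases Nat.eq_zero_or_pos m with rfl | hm
  · simp only [Finset.range_zero, Finset.sum_empty, norm_zero]
    positivity
  have hmR : (1 : ℝ) ≤ (m : ℝ) := by exact_mod_cast hm
  have hm0 : (0 : ℝ) < (m : ℝ) := by linarith
  have hinv : (1 : ℝ) / m ≤ 1 := by
    rw [div_le_one hm0]; exact hmR
  have hinv0 : (0 : ℝ) < 1 / m := by positivity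
  -- the tails
  set t : ℕ → ℝ := fun i => ∑ j ∈ Finset.Ico ((i + 1) / 2) m, (1 : ℝ) / m with ht
  have ht_eq : ∀ i, i < 2 * m → t i = ((m : ℝ) - (((i + 1) / 2 : ℕ) : ℝ)) / m := by
    intro i hi
    have h1 : (i + 1) / 2 ≤ m := by omega
    simp only [ht]
    rw [Finset.sum_const, Nat.card_Ico, nsmul_eq_mul, Nat.cast_sub h1]
    ring
  have ht_half : ∀ i, i < m → 1 / 2 ≤ t i := by
    intro i hi
    rw [ht_eq i (by omega), le_div_iff₀ hm0]
    have h1 : 2 * ((i + 1) / 2) ≤ m := by omega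
    have h2 : (2 : ℝ) * (((i + 1) / 2 : ℕ) : ℝ) ≤ (m : ℝ) := by exact_mod_cast h1
    linarith
  -- the estimate of the sum of the `t i • γ i`
  have hsum := d.sum_odd m (fun _ => 1 / (m : ℝ)) (fun _ => by
    rw [abs_of_pos hinv0]; exact hinv)
  have hD : ‖D e m‖ ≤ 2 * m * ‖e 0‖ := by
    unfold D
    calc ‖∑ j ∈ Finset.range m, (e (2 * j) - e (2 * j + 1))‖
        ≤ ∑ j ∈ Finset.range m, ‖e (2 * j) - e (2 * j + 1)‖ := norm_sum_le _ _
      _ ≤ ∑ _j ∈ Finset.range m, (2 * ‖e 0‖) := by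
          apply Finset.sum_le_sum
          intro j _
          calc ‖e (2 * j) - e (2 * j + 1)‖ ≤ ‖e (2 * j)‖ + ‖e (2 * j + 1)‖ := norm_sub_le _ _
            _ = 2 * ‖e 0‖ := by rw [norm_e h (2 * j), norm_e h (2 * j + 1)]; ring
      _ = 2 * m * ‖e 0‖ := by
          rw [Finset.sum_const, Finset.card_range, nsmul_eq_mul]; ring
  have hv : ‖∑ j ∈ Finset.range m, (1 / (m : ℝ)) • v (2 * j + 1)‖ ≤ 2 * (‖A‖ * ‖e 0‖) + 2 := by
    rw [← Finset.smul_sum, norm_smul, Real.norm_of_nonneg hinv0.le]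
    have h1 := d.odd_v m
    calc 1 / (m : ℝ) * ‖∑ j ∈ Finset.range m, v (2 * j + 1)‖
        ≤ 1 / (m : ℝ) * (‖A‖ * (2 * m * ‖e 0‖) + 2) := by
          apply mul_le_mul_of_nonneg_left _ hinv0.le
          refine le_trans h1 ?_
          have := mul_le_mul_of_nonneg_left hD hA0
          linarith
      _ = 2 * (‖A‖ * ‖e 0‖) + 1 / (m : ℝ) * 2 := by
          field_simp
      _ ≤ 2 * (‖A‖ * ‖e 0‖) + 2 := by linarith
  have hAe : ‖A (∑ j ∈ Finset.range m, (1 / (m : ℝ)) • e (n (2 * j + 1)))‖ ≤ ‖A‖ * ‖e 0‖ := by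
    refine le_trans (A.le_opNorm _) ?_
    apply mul_le_mul_of_nonneg_left _ hA0
    calc ‖∑ j ∈ Finset.range m, (1 / (m : ℝ)) • e (n (2 * j + 1))‖
        ≤ ∑ j ∈ Finset.range m, ‖(1 / (m : ℝ)) • e (n (2 * j + 1))‖ := norm_sum_le _ _
      _ = ∑ _j ∈ Finset.range m, 1 / (m : ℝ) * ‖e 0‖ := by
          apply Finset.sum_congr rfl
          intro j _
          rw [norm_smul, Real.norm_of_nonneg hinv0.le, norm_e h (n (2 * j + 1))]
      _ = ‖e 0‖ := by
          rw [Finset.sum_const, Finset.card_range, nsmul_eq_mul]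
          field_simp
  have hmain : ‖∑ i ∈ Finset.range (2 * m), t i • γ i‖ ≤ 3 * (‖A‖ * ‖e 0‖) + 4 := by
    have hsum' : ‖A (∑ j ∈ Finset.range m, (1 / (m : ℝ)) • e (n (2 * j + 1)))
      - (∑ j ∈ Finset.range m, (1 / (m : ℝ)) • v (2 * j + 1)
        + ∑ i ∈ Finset.range (2 * m), t i • γ i)‖ ≤ 2 := hsum
    set a := A (∑ j ∈ Finset.range m, (1 / (m : ℝ)) • e (n (2 * j + 1))) with ha
    set b := ∑ j ∈ Finset.range m, (1 / (m : ℝ)) • v (2 * j + 1) with hb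
    set c := ∑ i ∈ Finset.range (2 * m), t i • γ i with hc
    have h1 : c = a - b - (a - (b + c)) := by abel
    calc ‖c‖ = ‖a - b - (a - (b + c))‖ := by rw [← h1]
      _ ≤ ‖a - b‖ + ‖a - (b + c)‖ := norm_sub_le _ _
      _ ≤ (‖a‖ + ‖b‖) + 2 := by
          have := norm_sub_le a b
          linarith
      _ ≤ 3 * (‖A‖ * ‖e 0‖) + 4 := by linarith
  -- the multipliers
  have hreg : ∀ i, Reg h (T i) (T (i + 1)) (t i • γ i) := fun i => (d.hγ i).smul (t i)
  have hmul := multiplier h T d.hT (fun i => t i • γ i) hreg (2 * m)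
    (fun i => if i < m then θ i / (2 * t i) else 0) (by
      intro i
      by_cases hi : i < m
      · simp only [hi, if_true]
        have h1 := ht_half i hi
        have h2 : (0 : ℝ) < 2 * t i := by linarith
        rw [abs_div, abs_of_pos h2, div_le_one h2]
        have := hθ i
        linarith
      · simp only [hi, if_false, abs_zero]
        norm_num)
  have heq : ∑ i ∈ Finset.range (2 * m), (if i < m then θ i / (2 * t i) else 0) • (t i • γ i)
      = (1 / 2 : ℝ) • ∑ i ∈ Finset.range m, θ i • γ i := by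
    have hsub : Finset.range m ⊆ Finset.range (2 * m) := by
      intro i hi
      rw [Finset.mem_range] at hi ⊢
      omega
    rw [← Finset.sum_subset hsub]
    · rw [Finset.smul_sum]
      apply Finset.sum_congr rfl
      intro i hi
      rw [Finset.mem_range] at hi
      have h1 := ht_half i hi
      have h2 : t i ≠ 0 := by
        intro h0
        rw [h0] at h1
        norm_num at h1
      simp only [hi, if_true]
      rw [smul_smul, smul_smul]
      congr 1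
      field_simp
    · intro i _ hi
      rw [Finset.mem_range] at hi
      simp only [hi, if_false, zero_smul]
  rw [heq, norm_smul] at hmul
  have h3 : ‖(1 / 2 : ℝ)‖ = 1 / 2 := by norm_num
  rw [h3] at hmul
  linarith

end Pool.Agent.MP_15d71b_an
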