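import Pool.Agent.Lib.MP_15d71b_an.G4b
import Pool.Agent.Lib.MP_15d71b_an.G2a
import Pool.Agent.Lib.MP_15d71b_an.G2b

/-!
# X does not embed into its zero-sum block spaces
-/

set_option autoImplicit false
open Filter Topology Finset

namespace Pool.Agent.MP_15d71b_an

variable {X : Type} [NormedAddCommGroup X] [NormedSpace ℝ X] [CompleteSpace X] {e : ℕ → X}

omit [NormedSpace ℝ X] [CompleteSpace X] in
private theorem G5a_odd (f : ℕ → X) (M : ℕ) :
    ∑ i ∈ Finset.range (2 * M), (if i % 2 = 1 then f i else 0) =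
      ∑ j ∈ Finset.range M, f (2 * j + 1) := by
  induction M with
  | zero => simp
  | succ M ih =>
    rw [Nat.mul_succ, Finset.sum_range_succ, Finset.sum_range_succ, ih, Finset.sum_range_succ,
      if_neg (by lia), if_pos (by lia), add_zero]

private theorem G5a_abs (k : ℕ) : |(-1 : ℝ) ^ k| = 1 := by
  rw [abs_pow, abs_neg, abs_one, one_pow]

/-- The bound for the parts `v`. -/
private theorem G5a_v {h : ESA e} {A : X →L[ℝ] X} {T n : ℕ → ℕ} {v γ : ℕ → X}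
    (d : Dec h A T n v γ) (M N : ℕ) (hN : 0 < N) :
    N * ‖∑ j ∈ Finset.range M, ((-1 : ℝ) ^ (j / N) / N) • v (2 * j + 1)‖ ≤
      2 * (‖A‖ * ‖D e M‖ + 2) := by
  have hN' : (0 : ℝ) < (N : ℝ) := by exact_mod_cast hN
  have hz : ∀ i, Reg h (T i) (T (i + 1)) ((fun i => if i % 2 = 1 then v i else 0) i) := by
    intro i
    simp only
    split_ifs
    · exact d.hv i
    · exact Reg.zero h _ _
  have h1 := multiplier h T d.hT (fun i => if i % 2 = 1 then v i else 0) hz (2 * M)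
    (fun i => (-1 : ℝ) ^ (i / 2 / N)) (fun i => (G5a_abs _).le)
  have h2 : ∑ i ∈ Finset.range (2 * M), (-1 : ℝ) ^ (i / 2 / N) • (if i % 2 = 1 then v i else 0) =
      (N : ℝ) • ∑ j ∈ Finset.range M, ((-1 : ℝ) ^ (j / N) / N) • v (2 * j + 1) := by
    have h3 : ∀ i ∈ Finset.range (2 * M),
        (-1 : ℝ) ^ (i / 2 / N) • (if i % 2 = 1 then v i else 0) =
          if i % 2 = 1 then (-1 : ℝ) ^ (i / 2 / N) • v i else 0 := by
      intro i _
      rw [smul_ite, smul_zero]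
    rw [Finset.sum_congr rfl h3, G5a_odd (fun i => (-1 : ℝ) ^ (i / 2 / N) • v i), Finset.smul_sum]
    refine Finset.sum_congr rfl fun j _ => ?_
    have h4 : (2 * j + 1) / 2 = j := by lia
    rw [h4, smul_smul, mul_div_cancel₀ _ hN'.ne']
  have h5 := G5a_odd v M
  rw [h2, h5, norm_smul, Real.norm_of_nonneg hN'.le] at h1
  have h6 := d.odd_v M
  linarith

/-- Take `d : Dec h A T n v γ` (`exists_dec`) and `K` from `Dec.gamma`. Fix `m ≥ 1`. For `N ≥ 1` let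
`c j := (-1)^(j/N)/N`, `M := 2mN`, `x := ∑_{j<M} c j • e (n (2j+1))`. `‖x‖ = ‖D e m‖`
(`small_steps` for `j ↦ n (2j+1)`). By `Dec.sum_odd`, `tails` and `Dec.gamma`
`‖A x‖ ≤ ‖∑_{j<M} c j • v (2j+1)‖ + K + 2`, and by `multiplier` (for the vectors `z i = v i` for `i` odd,
`0` for `i` even, `i < 2M`, and the multipliers `N c`) and `Dec.odd_v`
`‖∑_{j<M} c j • v (2j+1)‖ ≤ (2/N) ‖∑_{j<M} v (2j+1)‖ ≤ (2/N) (‖A‖ ‖D e M‖ + 2)`. By `D_small` with
`ε = 1/(4 m (‖A‖ + 1))`, for large `N` this is `≤ 1 + 4`. So `‖D e m‖ ≤ c ‖A x‖ ≤ c (K + 7)` for all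
`m` (note `c > 0`, as `‖e 0‖ ≤ c ‖A (e 0)‖`), contradicting `NoC0`. -/
theorem no_embed (h : ESA e) (hl1 : NoL1 e) (hc0 : NoC0 e) {τ : ℕ → ℕ} (hτ : StrictMono τ)
    (h0 : τ 0 = 0) (A : X →L[ℝ] X) (hA : ∀ x, A x ∈ zeroSumSpace e τ) (c : ℝ)
    (hc : ∀ x, ‖x‖ ≤ c * ‖A x‖) : False := by
  obtain ⟨T, n, v, γ, d⟩ := exists_dec h hl1 hτ h0 A hA
  obtain ⟨K, hK0, hK⟩ := d.gamma
  have he0 : 0 < ‖e 0‖ := norm_pos_iff.2 (e_ne_zero h 0)
  have hcpos : 0 < c := by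
    by_contra hcn
    push Not at hcn
    have h1 := hc (e 0)
    have h2 : c * ‖A (e 0)‖ ≤ 0 := mul_nonpos_of_nonpos_of_nonneg hcn (norm_nonneg _)
    linarith
  obtain ⟨m, hm⟩ := hc0 (c * (K + 7))
  have hB : 0 ≤ c * (K + 7) := mul_nonneg hcpos.le (by linarith)
  have hm0 : 0 < m := by
    rcases Nat.eq_zero_or_pos m with h1 | h1
    · rw [h1] at hm
      unfold D at hm
      rw [Finset.range_zero, Finset.sum_empty, norm_zero] at hm
      linarith
    · exact h1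
  have hm' : (0 : ℝ) < (m : ℝ) := by exact_mod_cast hm0
  have hA0 : 0 ≤ ‖A‖ := norm_nonneg A
  obtain ⟨M0, hM0⟩ := D_small h hl1 (1 / (4 * m * (‖A‖ + 1))) (by positivity)
  set N := M0 + 1 with hNdef
  have hN : 0 < N := Nat.succ_pos _
  have hN1 : (1 : ℝ) ≤ (N : ℝ) := by exact_mod_cast hN
  have hN' : (0 : ℝ) < (N : ℝ) := by linarith
  set M := 2 * m * N with hM
  have hMM : M0 ≤ M := by
    rw [hM, hNdef]
    nlinarith
  have hD := hM0 M hMM
  have hMr : (M : ℝ) = 2 * m * N := by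
    rw [hM]
    push_cast
    ring
  have hstep := small_steps h (fun j => n (2 * j + 1))
    (fun a b hab => d.hn (by lia)) m N hN
  rw [← hM] at hstep
  have hcj : ∀ j : ℕ, |(-1 : ℝ) ^ (j / N) / N| ≤ 1 := by
    intro j
    rw [abs_div, G5a_abs, Nat.abs_cast, div_le_one hN']
    exact hN1
  have hsum := d.sum_odd M (fun j => (-1 : ℝ) ^ (j / N) / N) hcj
  have htail := hK (2 * M) (fun i => ∑ j ∈ Finset.Ico ((i + 1) / 2) M, ((-1 : ℝ) ^ (j / N) / N))
    (fun i => by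
      rw [hM]
      exact tails m N hN _)
  have hv := G5a_v d M N hN
  set x := ∑ j ∈ Finset.range M, ((-1 : ℝ) ^ (j / N) / N) • e (n (2 * j + 1)) with hx
  set V := ∑ j ∈ Finset.range M, ((-1 : ℝ) ^ (j / N) / N) • v (2 * j + 1) with hV
  set G := ∑ i ∈ Finset.range (2 * M),
    (∑ j ∈ Finset.Ico ((i + 1) / 2) M, ((-1 : ℝ) ^ (j / N) / N)) • γ i with hG
  have hVn : ‖V‖ ≤ 5 := by
    have h1 : ‖A‖ * ‖D e M‖ ≤ N / 2 := by
      have h2 : ‖A‖ * ‖D e M‖ ≤ ‖A‖ * (1 / (4 * m * (‖A‖ + 1)) * M) :=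
        mul_le_mul_of_nonneg_left hD hA0
      have h3 : ‖A‖ * (1 / (4 * m * (‖A‖ + 1)) * M) = ‖A‖ / (‖A‖ + 1) * (N / 2) := by
        rw [hMr]
        field_simp
        ring
      have h4 : ‖A‖ / (‖A‖ + 1) ≤ 1 := (div_le_one (by linarith)).2 (by linarith)
      have h5 : ‖A‖ / (‖A‖ + 1) * (N / 2) ≤ 1 * (N / 2) :=
        mul_le_mul_of_nonneg_right h4 (by linarith)
      linarith
    have h6 : N * ‖V‖ ≤ N * 5 := by linarith
    exact le_of_mul_le_mul_left h6 hN'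
  have hAx : ‖A x‖ ≤ K + 7 := by
    have h1 : A x = (A x - (V + G)) + (V + G) := by abel
    have h2 : ‖A x‖ ≤ ‖A x - (V + G)‖ + ‖V + G‖ := by
      conv_lhs => rw [h1]
      exact norm_add_le _ _
    have h3 := norm_add_le V G
    linarith
  have h1 := hc x
  have h2 : c * ‖A x‖ ≤ c * (K + 7) := mul_le_mul_of_nonneg_left hAx hcpos.le
  linarith

end Pool.Agent.MP_15d71b_an
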