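import Pool.Agent.Lib.MP_15d71b_an.G5a

/-!
# Absorption from primariness
-/

set_option autoImplicit false
open Filter Topology Finset

namespace Pool.Agent.MP_15d71b_an

variable {X : Type} [NormedAddCommGroup X] [NormedSpace ℝ X] [CompleteSpace X] {e : ℕ → X}

private theorem G5b_equiv_fst {A B : Type*} [NormedAddCommGroup A] [NormedSpace ℝ A]
    [NormedAddCommGroup B] [NormedSpace ℝ B] (θ : X ≃L[ℝ] A × B) (Y : Submodule ℝ X)
    (hY : ∀ x, x ∈ Y ↔ (θ x).2 = 0) : Nonempty (Y ≃L[ℝ] A) := by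
  have hm : ∀ a : A, (((θ.symm : A × B →L[ℝ] X).comp (ContinuousLinearMap.inl ℝ A B)) a) ∈ Y := by
    intro a
    rw [hY]
    simp
  refine ⟨ContinuousLinearEquiv.equivOfInverse
    (((ContinuousLinearMap.fst ℝ A B).comp (θ : X →L[ℝ] A × B)).comp Y.subtypeL)
    ((((θ.symm : A × B →L[ℝ] X).comp (ContinuousLinearMap.inl ℝ A B))).codRestrict Y hm) ?_ ?_⟩
  · intro y
    apply Subtype.ext
    have h2 : (θ (y : X)).2 = 0 := (hY _).1 y.2
    have h3 : θ (y : X) = ((θ (y : X)).1, 0) := Prod.ext rfl h2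
    show θ.symm ((θ (y : X)).1, 0) = y
    rw [← h3, θ.symm_apply_apply]
  · intro a
    show (θ (θ.symm (a, 0))).1 = a
    rw [θ.apply_symm_apply]

private theorem G5b_equiv_snd {A B : Type*} [NormedAddCommGroup A] [NormedSpace ℝ A]
    [NormedAddCommGroup B] [NormedSpace ℝ B] (θ : X ≃L[ℝ] A × B) (Z : Submodule ℝ X)
    (hZ : ∀ x, x ∈ Z ↔ (θ x).1 = 0) : Nonempty (Z ≃L[ℝ] B) :=
  G5b_equiv_fst (θ.trans (ContinuousLinearEquiv.prodComm ℝ A B)) Z hZ

/-- `X ≃ X × K_τ ≃ X × (W × V) ≃ (X × W) × V` (`split_zeroSum`,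
`Submodule.prodEquivOfClosedCompl`). Let `θ : X ≃L (X × W) × V`, `Y := θ⁻¹ ((X × W) × 0)`,
`Z := θ⁻¹ (0 × V)`, closed and complementary, `Y ≃ X × W`, `Z ≃ V`. By `hprim` either
`X ≃ Y ≃ X × W`, or `X ≃ Z ≃ V`; in the latter case `A : X → V → zeroSumSpace e τ → X` is
bounded below, contradicting `no_embed`. -/
theorem absorb_of_primary (h : ESA e) (hl1 : NoL1 e) (hc0 : NoC0 e)
    (hprim : ∀ Y Z : Submodule ℝ X, IsClosed (Y : Set X) → IsClosed (Z : Set X) → IsCompl Y Z →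
      Nonempty (X ≃L[ℝ] Y) ∨ Nonempty (X ≃L[ℝ] Z))
    {τ : ℕ → ℕ} (hτ : StrictMono τ) (h0 : τ 0 = 0) (W V : Submodule ℝ (zeroSumSpace e τ))
    (hW : IsClosed (W : Set (zeroSumSpace e τ))) (hV : IsClosed (V : Set (zeroSumSpace e τ)))
    (hWV : IsCompl W V) : Nonempty ((X × W) ≃L[ℝ] X) := by
  have hKc : IsClosed ((zeroSumSpace e τ : Submodule ℝ X) : Set X) := Submodule.isClosed_topologicalClosure _
  have : CompleteSpace (zeroSumSpace e τ) := hKc.completeSpace_coe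
  obtain ⟨e1⟩ := split_zeroSum h hτ h0
  obtain ⟨e2⟩ : Nonempty ((W × V) ≃L[ℝ] zeroSumSpace e τ) :=
    ⟨Submodule.prodEquivOfClosedCompl W V hWV hW hV⟩
  obtain ⟨θ⟩ : Nonempty (X ≃L[ℝ] (X × W) × V) :=
    ⟨(e1.trans ((ContinuousLinearEquiv.refl ℝ X).prodCongr e2.symm)).trans
      (ContinuousLinearEquiv.prodAssoc ℝ X W V).symm⟩
  obtain ⟨Y, hYd⟩ : ∃ Y : Submodule ℝ X, Y = LinearMap.ker
    (((ContinuousLinearMap.snd ℝ (X × W) V).comp (θ : X →L[ℝ] (X × W) × V)) : X →ₗ[ℝ] V) := ⟨_, rfl⟩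
  obtain ⟨Z, hZd⟩ : ∃ Z : Submodule ℝ X, Z = LinearMap.ker
    (((ContinuousLinearMap.fst ℝ (X × W) V).comp (θ : X →L[ℝ] (X × W) × V)) : X →ₗ[ℝ] X × W) := ⟨_, rfl⟩
  have hY : ∀ x, x ∈ Y ↔ (θ x).2 = 0 := by
    intro x
    rw [hYd]
    exact LinearMap.mem_ker
  have hZ : ∀ x, x ∈ Z ↔ (θ x).1 = 0 := by
    intro x
    rw [hZd]
    exact LinearMap.mem_ker
  have hYc : IsClosed (Y : Set X) := by
    have h1 : (Y : Set X) = (fun x => (θ x).2) ⁻¹' {0} := by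
      ext x
      exact hY x
    rw [h1]
    exact isClosed_singleton.preimage (continuous_snd.comp θ.continuous)
  have hZc : IsClosed (Z : Set X) := by
    have h1 : (Z : Set X) = (fun x => (θ x).1) ⁻¹' {0} := by
      ext x
      exact hZ x
    rw [h1]
    exact isClosed_singleton.preimage (continuous_fst.comp θ.continuous)
  have hYZ : IsCompl Y Z := by
    constructor
    · rw [Submodule.disjoint_def]
      intro x hx hx'
      have h1 : θ x = 0 := Prod.ext ((hZ x).1 hx') ((hY x).1 hx)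
      exact (map_eq_zero_iff θ θ.injective).1 h1
    · rw [codisjoint_iff, Submodule.eq_top_iff']
      intro x
      rw [Submodule.mem_sup]
      refine ⟨θ.symm ((θ x).1, 0), ?_, θ.symm (0, (θ x).2), ?_, ?_⟩
      · rw [hY, θ.apply_symm_apply]
      · rw [hZ, θ.apply_symm_apply]
      · rw [← map_add, Prod.mk_add_mk, add_zero, zero_add]
        exact θ.symm_apply_apply x
  obtain ⟨gY⟩ := G5b_equiv_fst θ Y hY
  obtain ⟨gZ⟩ := G5b_equiv_snd θ Z hZ
  rcases hprim Y Z hYc hZc hYZ with hg | hg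
  · obtain ⟨g⟩ := hg
    exact ⟨(g.trans gY).symm⟩
  · exfalso
    obtain ⟨g⟩ := hg
    obtain ⟨k, -⟩ : ∃ k : X ≃L[ℝ] V, k = g.trans gZ := ⟨_, rfl⟩
    refine no_embed h hl1 hc0 hτ h0
      ((zeroSumSpace e τ).subtypeL.comp (V.subtypeL.comp (k : X →L[ℝ] V))) (fun x => ?_)
      ‖(k.symm : V →L[ℝ] X)‖ (fun x => ?_)
    · exact (((k x : V) : zeroSumSpace e τ)).2
    · have h1 := (k.symm : V →L[ℝ] X).le_opNorm (k x)
      have h2 : (k.symm : V →L[ℝ] X) (k x) = x := k.symm_apply_apply x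
      rw [h2] at h1
      exact h1

end Pool.Agent.MP_15d71b_an
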