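import Pool.Agent.Lib.MP_15d71b_an.E9

/-!
# Every decomposition of a zero-sum block space occurs
-/

set_option autoImplicit false
open Filter Topology Finset

namespace Pool.Agent.MP_15d71b_an

variable {X : Type} [NormedAddCommGroup X] [NormedSpace ℝ X] [CompleteSpace X] {e : ℕ → X}

/-- an isomorphism onto a product gives complementary closed subspaces -/
theorem exists_of_prod {A B : Type} [NormedAddCommGroup A] [NormedSpace ℝ A]
    [NormedAddCommGroup B] [NormedSpace ℝ B] (θ : X ≃L[ℝ] A × B) :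
    ∃ Y Z : Submodule ℝ X, IsClosed (Y : Set X) ∧ IsClosed (Z : Set X) ∧ IsCompl Y Z ∧
      Nonempty (Y ≃L[ℝ] A) ∧ Nonempty (Z ≃L[ℝ] B) := by
  let πA : X →L[ℝ] A := (ContinuousLinearMap.fst ℝ A B).comp (θ : X →L[ℝ] A × B)
  let πB : X →L[ℝ] B := (ContinuousLinearMap.snd ℝ A B).comp (θ : X →L[ℝ] A × B)
  let ιA : A →L[ℝ] X := (θ.symm : A × B →L[ℝ] X).comp (ContinuousLinearMap.inl ℝ A B)
  let ιB : B →L[ℝ] X := (θ.symm : A × B →L[ℝ] X).comp (ContinuousLinearMap.inr ℝ A B)
  have hAA : ∀ a, πA (ιA a) = a := by intro a; simp [πA, ιA]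
  have hBB : ∀ b, πB (ιB b) = b := by intro b; simp [πB, ιB]
  have hBA : ∀ a, πB (ιA a) = 0 := by intro a; simp [πB, ιA]
  have hAB : ∀ b, πA (ιB b) = 0 := by intro b; simp [πA, ιB]
  have hsum : ∀ x, ιA (πA x) + ιB (πB x) = x := by
    intro x
    have : ιA (πA x) + ιB (πB x) = θ.symm ((θ x).1, (θ x).2) := by
      simp only [πA, πB, ιA, ιB, ContinuousLinearMap.comp_apply, ContinuousLinearEquiv.coe_coe,
        ContinuousLinearMap.coe_fst', ContinuousLinearMap.coe_snd', ContinuousLinearMap.inl_apply,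
        ContinuousLinearMap.inr_apply, ← map_add, Prod.mk_add_mk, add_zero, zero_add]
    rw [this]; simp
  refine ⟨LinearMap.ker (πB : X →ₗ[ℝ] B), LinearMap.ker (πA : X →ₗ[ℝ] A), ?_, ?_, ?_, ?_, ?_⟩
  · exact πB.isClosed_ker
  · exact πA.isClosed_ker
  · constructor
    · rw [Submodule.disjoint_def]
      intro x hx hy
      have h1 : πB x = 0 := by simpa using hx
      have h2 : πA x = 0 := by simpa using hy
      have := hsum x
      rw [h1, h2] at this
      simpa using this.symm
    · rw [codisjoint_iff, Submodule.eq_top_iff']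
      intro x
      rw [Submodule.mem_sup]
      refine ⟨ιA (πA x), ?_, ιB (πB x), ?_, hsum x⟩
      · simpa using hBA (πA x)
      · simpa using hAB (πB x)
  · refine ⟨ContinuousLinearEquiv.equivOfInverse
      (πA.comp (Submodule.subtypeL _)) (ιA.codRestrict _ (fun a => ?_)) ?_ ?_⟩
    · simpa using hBA a
    · intro x
      apply Subtype.ext
      have h1 : πB x = 0 := by simpa using x.2
      have := hsum x
      rw [h1, map_zero, add_zero] at this
      simpa using this
    · intro a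
      simpa using hAA a
  · refine ⟨ContinuousLinearEquiv.equivOfInverse
      (πB.comp (Submodule.subtypeL _)) (ιB.codRestrict _ (fun b => ?_)) ?_ ?_⟩
    · simpa using hAB b
    · intro x
      apply Subtype.ext
      have h1 : πA x = 0 := by simpa using x.2
      have := hsum x
      rw [h1, map_zero, zero_add] at this
      simpa using this
    · intro b
      simpa using hBB b

/-- `X ≃ X × K_τ ≃ X × (W × V) ≃ (X × W) × V`. -/
theorem prod_of_split (h : ESA e) {τ : ℕ → ℕ} (hτ : StrictMono τ) (h0 : τ 0 = 0)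
    (W V : Submodule ℝ (zeroSumSpace e τ))
    (hW : IsClosed (W : Set (zeroSumSpace e τ))) (hV : IsClosed (V : Set (zeroSumSpace e τ)))
    (hWV : IsCompl W V) : Nonempty (X ≃L[ℝ] (X × W) × V) := by
  obtain ⟨φ⟩ := split_zeroSum h hτ h0
  haveI : CompleteSpace (zeroSumSpace e τ) := (isClosed_zeroSumSpace e τ).completeSpace_coe
  let ψ : (W × V) ≃L[ℝ] zeroSumSpace e τ := Submodule.prodEquivOfClosedCompl W V hWV hW hV
  refine ⟨φ.trans ((((ContinuousLinearEquiv.refl ℝ X).prodCongr ψ.symm)).trans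
    (ContinuousLinearEquiv.prodAssoc ℝ X W V).symm)⟩

theorem realize (h : ESA e) {τ : ℕ → ℕ} (hτ : StrictMono τ) (h0 : τ 0 = 0)
    (W V : Submodule ℝ (zeroSumSpace e τ))
    (hW : IsClosed (W : Set (zeroSumSpace e τ))) (hV : IsClosed (V : Set (zeroSumSpace e τ)))
    (hWV : IsCompl W V) :
    ∃ Y Z : Submodule ℝ X, IsClosed (Y : Set X) ∧ IsClosed (Z : Set X) ∧ IsCompl Y Z ∧
      Nonempty (Y ≃L[ℝ] X × W) ∧ Nonempty (Z ≃L[ℝ] V) := by
  obtain ⟨θ⟩ := prod_of_split h hτ h0 W V hW hV hWV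
  exact exists_of_prod θ

end Pool.Agent.MP_15d71b_an
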