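import Pool.Agent.Lib.MP_15d71b_an.Defs

/-!
# Definitions for the statement of the absorption criterion
-/

set_option autoImplicit false

namespace Pool.Agent.MP_15d71b_an

/-- `Y` and `Z` are closed complementary subspaces. -/
def IsDecomp {X : Type} [NormedAddCommGroup X] [NormedSpace ℝ X] (Y Z : Submodule ℝ X) : Prop :=
  IsClosed (Y : Set X) ∧ IsClosed (Z : Set X) ∧ IsCompl Y Z

/-- `X` is primary: whenever it splits into closed complementary subspaces, it is isomorphic to one
of them. -/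
def Primary (X : Type) [NormedAddCommGroup X] [NormedSpace ℝ X] : Prop :=
  ∀ Y Z : Submodule ℝ X, IsDecomp Y Z → Nonempty (X ≃L[ℝ] Y) ∨ Nonempty (X ≃L[ℝ] Z)

/-- There is a linear isomorphism of `X` onto a subspace of `Y`: a bounded operator which is bounded
below. -/
def Embeds (X Y : Type) [NormedAddCommGroup X] [NormedSpace ℝ X] [NormedAddCommGroup Y]
    [NormedSpace ℝ Y] : Prop :=
  ∃ (A : X →L[ℝ] Y) (c : ℝ), ∀ x : X, ‖x‖ ≤ c * ‖A x‖

/-- `[τ j, τ (j + 1))`, `j ≥ 0`, is a partition of `ℕ` into successive intervals. -/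
def IsPartition (τ : ℕ → ℕ) : Prop := StrictMono τ ∧ τ 0 = 0

variable {X : Type} [NormedAddCommGroup X] [NormedSpace ℝ X]

/-- There are a partition `τ` and a decomposition of `zeroSumSpace e τ` into closed complementary
subspaces `W` and `V` such that `Y` is isomorphic to `X × W` and `Z` to `V`. -/
def ComesFrom (e : ℕ → X) (Y Z : Submodule ℝ X) : Prop :=
  ∃ τ : ℕ → ℕ, IsPartition τ ∧ ∃ W V : Submodule ℝ (zeroSumSpace e τ),
    IsDecomp W V ∧ Nonempty (Y ≃L[ℝ] X × W) ∧ Nonempty (Z ≃L[ℝ] V)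

/-- For every partition `τ` and every decomposition of `zeroSumSpace e τ` into closed complementary
subspaces `W` and `V` there are closed complementary subspaces `Y`, `Z` of `X` isomorphic to
`X × W` and `V`. -/
def Realizes (e : ℕ → X) : Prop :=
  ∀ τ : ℕ → ℕ, IsPartition τ → ∀ W V : Submodule ℝ (zeroSumSpace e τ), IsDecomp W V →
    ∃ Y Z : Submodule ℝ X, IsDecomp Y Z ∧ Nonempty (Y ≃L[ℝ] X × W) ∧ Nonempty (Z ≃L[ℝ] V)

/-- `X × W` is isomorphic to `X` for every complemented subspace `W` of every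
`zeroSumSpace e τ`. -/
def Absorbs (e : ℕ → X) : Prop :=
  ∀ τ : ℕ → ℕ, IsPartition τ → ∀ W V : Submodule ℝ (zeroSumSpace e τ), IsDecomp W V →
    Nonempty ((X × W) ≃L[ℝ] X)

end Pool.Agent.MP_15d71b_an
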