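import Pool.Agent.Lib.MP_15d71b_an.G5b
import Pool.Agent.Lib.MP_15d71b_an.G6
import Pool.Agent.Lib.MP_15d71b_an.Sq.A8
import Pool.Agent.Lib.MP_15d71b_an.Statement

/-!
# A subspace of a zero-sum block space does not contain a copy of the whole space
-/

set_option autoImplicit false

namespace Pool.Agent.MP_15d71b_an

/-- a closed subspace which embeds into a zero-sum block space does not contain a copy of `X` -/
theorem no_copy {X : Type} [NormedAddCommGroup X] [NormedSpace ℝ X] [CompleteSpace X] {e : ℕ → X}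
    (h : ESA e) (hl1 : NoL1 e) (hc0 : NoC0 e) {τ : ℕ → ℕ} (hτ : StrictMono τ) (h0 : τ 0 = 0)
    {Z : Submodule ℝ X} {V : Submodule ℝ (zeroSumSpace e τ)} (ψ : Z ≃L[ℝ] V)
    (hA : ∃ (A : X →L[ℝ] Z) (c : ℝ), ∀ x, ‖x‖ ≤ c * ‖A x‖) : False := by
  obtain ⟨A, c, hc⟩ := hA
  let B : X →L[ℝ] X := (zeroSumSpace e τ).subtypeL.comp
    (V.subtypeL.comp ((ψ : Z →L[ℝ] V).comp A))
  refine no_embed h hl1 hc0 hτ h0 B (fun x => ((ψ (A x) : V) : zeroSumSpace e τ).2)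
    (|c| * ‖(ψ.symm : V →L[ℝ] Z)‖) (fun x => ?_)
  have h1 : ‖A x‖ ≤ ‖(ψ.symm : V →L[ℝ] Z)‖ * ‖B x‖ := by
    have h2 := (ψ.symm : V →L[ℝ] Z).le_opNorm (ψ (A x))
    have h3 : (ψ.symm : V →L[ℝ] Z) (ψ (A x)) = A x := ψ.symm_apply_apply (A x)
    rw [h3] at h2
    exact h2
  calc ‖x‖ ≤ c * ‖A x‖ := hc x
    _ ≤ |c| * ‖A x‖ := mul_le_mul_of_nonneg_right (le_abs_self c) (norm_nonneg _)
    _ ≤ |c| * (‖(ψ.symm : V →L[ℝ] Z)‖ * ‖B x‖) := mul_le_mul_of_nonneg_left h1 (abs_nonneg c)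
    _ = |c| * ‖(ψ.symm : V →L[ℝ] Z)‖ * ‖B x‖ := by ring

end Pool.Agent.MP_15d71b_an
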